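import Pool.Agent.YX49.FL

/-!
# [YX49-POLY] The polynomial bound

`loc_class`, `om_class`: one class for every prime. `poly_bound`: `s` from `fund (1/2)`, `A = s`; if `x^s ≤ y` take `N = g`, `H = x ^ s`, `z = x`; the sum of
`sf x (xc a)` over `(g, g + H]` is positive (`WW ≥ 1/x^5 > 0`, `WW_lower`), so that some `n` in it is not covered.
-/

namespace YX49

open Finset

open Classical in
/-- the class of `a l` -/
noncomputable def xc (a : ℕ → ℤ) (l n : ℕ) : ℝ := if (n : ℤ) ≡ a l [ZMOD (l : ℤ)] then 1 else 0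

theorem om_xc (a : ℕ → ℤ) {l : ℕ} (hl : 0 < l) : om (xc a) l = 1 := by
  classical
  unfold om
  have hl' : (0 : ℤ) < l := by exact_mod_cast hl
  have h0 : 0 ≤ a l % (l : ℤ) := Int.emod_nonneg _ (by omega)
  have h1 : a l % (l : ℤ) < l := Int.emod_lt_of_pos _ hl'
  rw [Finset.sum_eq_single ((a l % (l : ℤ)).toNat)]
  · unfold xc
    rw [if_pos]
    rw [Int.toNat_of_nonneg h0]
    exact Int.mod_modEq _ _
  · intro n hn hne
    unfold xc
    rw [if_neg]
    intro hc
    apply hne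
    have h2 : (n : ℤ) % (l : ℤ) = a l % (l : ℤ) := hc
    rw [← h2]
    rw [mem_range] at hn
    rw [Int.emod_eq_of_lt (by positivity) (by exact_mod_cast hn)]
    simp
  · intro hn
    exfalso
    apply hn
    rw [mem_range]
    omega

theorem loc_xc (a : ℕ → ℤ) : Loc (xc a) := by
  refine ⟨?_, ?_, ?_, ?_⟩
  · intro l n
    unfold xc
    split_ifs
    · exact Or.inr rfl
    · exact Or.inl rfl
  · intro l n
    unfold xc
    have h : (((n + l : ℕ) : ℤ) ≡ a l [ZMOD (l : ℤ)]) ↔ ((n : ℤ) ≡ a l [ZMOD (l : ℤ)]) := by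
      unfold Int.ModEq
      rw [Nat.cast_add, Int.add_emod_right]
    simp only [h]
  · intro l hl
    rw [om_xc a hl.pos]
    norm_num
  · intro l hl
    rw [om_xc a hl.pos]
    have h2 : (2 : ℝ) ≤ l := by exact_mod_cast hl.two_le
    linarith

theorem poly_bound : ∃ A : ℕ, ∀ (x g y : ℕ) (a : ℕ → ℤ), 2 ≤ x → Covers x g (g + y) a →
    y < x ^ A := by
  obtain ⟨s, hs1, hs⟩ := fund (1 / 2) (by norm_num) (by norm_num)
  refine ⟨s, fun x g y a hx hcov => ?_⟩
  by_contra hcon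
  push Not at hcon
  have h1 := hs x hx (xc a) (loc_xc a) g (x ^ s) le_rfl
  have h2 : ∑ n ∈ Ioc g (g + x ^ s), sf x (xc a) n = 0 := by
    apply Finset.sum_eq_zero
    intro n hn
    rw [mem_Ioc] at hn
    obtain ⟨p, hp, hpx, hpa⟩ := hcov n hn.1 (by omega)
    unfold sf
    apply Finset.prod_eq_zero (mem_prs.2 ⟨hp, hpx⟩)
    unfold xc
    rw [if_pos hpa]
    ring
  rw [h2] at h1
  have hx0 : (0 : ℝ) < x := by exact_mod_cast (by omega : 0 < x)
  have hW : 0 < WW x (xc a) := lt_of_lt_of_le (by positivity) (WW_lower (loc_xc a) hx)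
  have hH : (0 : ℝ) < ((x ^ s : ℕ) : ℝ) * WW x (xc a) := by
    have : (0 : ℝ) < ((x ^ s : ℕ) : ℝ) := by exact_mod_cast Nat.pow_pos (by omega)
    positivity
  have hs' : (1 : ℝ) ≤ s := by exact_mod_cast hs1
  have h3 : (1 / 2 : ℝ) / s ≤ 1 / 2 := by
    rw [div_le_iff₀ (by linarith)]
    linarith
  rw [zero_sub, abs_neg, abs_of_pos hH] at h1
  nlinarith

end YX49
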