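import Pool.Agent.YX49.Defs

/-!
# [YX49-NUM2] Primes in (P, 4P]

Mathlib `Chebyshev.theta_ge`, `Chebyshev.theta_le_log4_mul_x` (or similar): `θ (4P) - θ P ≥ 4 P log 2 - o(P) - 2 P log 2 ≥ P log 2` for large `P`
(`θ (4P) - θ P = ∑ over the primes in (P, 4P] of log p ≤ count * log (4P) ≤ count * 3 log P`).
-/

namespace YX49

open Finset Pool.Agent.E456

private theorem theta_diff (P : ℕ) : Chebyshev.theta ((4 * P : ℕ) : ℝ) - Chebyshev.theta (P : ℝ) ≤
    (((Ioc P (4 * P)).filter Nat.Prime).card : ℝ) * Real.log (4 * P : ℕ) := by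
  have h : Chebyshev.theta ((4 * P : ℕ) : ℝ) =
      Chebyshev.theta (P : ℝ) + ∑ p ∈ (Ioc P (4 * P)).filter Nat.Prime, Real.log p := by
    unfold Chebyshev.theta
    rw [Nat.floor_natCast, Nat.floor_natCast, ← sum_union]
    · apply sum_congr _ (fun _ _ => rfl)
      ext q
      simp only [mem_filter, mem_Ioc, mem_union]
      constructor
      · rintro ⟨⟨h1, h2⟩, h3⟩
        rcases le_or_gt q P with h4 | h4
        · exact Or.inl ⟨⟨h1, h4⟩, h3⟩
        · exact Or.inr ⟨⟨h4, h2⟩, h3⟩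
      · rintro (⟨⟨h1, h2⟩, h3⟩ | ⟨⟨h1, h2⟩, h3⟩)
        · exact ⟨⟨h1, by omega⟩, h3⟩
        · exact ⟨⟨by omega, h2⟩, h3⟩
    · rw [disjoint_left]
      intro q h1 h2
      simp only [mem_filter, mem_Ioc] at h1 h2
      omega
  rw [h, add_sub_cancel_left, ← nsmul_eq_mul]
  apply sum_le_card_nsmul
  intro q hq
  simp only [mem_filter, mem_Ioc] at hq
  apply Real.log_le_log
  · exact_mod_cast hq.2.pos
  · exact_mod_cast hq.1.2

theorem primes_lower : ∃ c : ℝ, 0 < c ∧ ∃ P0 : ℕ, ∀ P : ℕ, P0 ≤ P →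
    c * P / Real.log P ≤ (((Ioc P (4 * P)).filter Nat.Prime).card : ℝ) := by
  refine ⟨Real.log 2 / 3, by positivity, 60 ^ 4, fun P hP => ?_⟩
  have hP' : (60 : ℝ) ^ 4 ≤ (P : ℝ) := by exact_mod_cast hP
  have hPpos : (0 : ℝ) < P := by nlinarith
  have h1 := theta_diff P
  have h2 := Chebyshev.theta_ge (4 * P)
  have h3 := Chebyshev.theta_le_log4_mul_x (x := (P : ℝ)) hPpos.le
  have hlog4 : Real.log 4 = 2 * Real.log 2 := by
    rw [show (4 : ℝ) = 2 ^ 2 by norm_num, Real.log_pow]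
    norm_num
  have hl2 : (0.69 : ℝ) < Real.log 2 := by
    have := Real.log_two_gt_d9
    linarith
  obtain ⟨t, ht, ht4⟩ : ∃ t : ℝ, 0 < t ∧ t ^ 4 = 4 * P := by
    refine ⟨Real.sqrt (Real.sqrt (4 * P)), by positivity, ?_⟩
    rw [show 4 = 2 * 2 by norm_num, pow_mul, Real.sq_sqrt (by positivity), Real.sq_sqrt (by positivity)]
  have ht60 : 60 ≤ t := by
    by_contra hcon
    push Not at hcon
    have : t ^ 4 < 60 ^ 4 := pow_lt_pow_left₀ hcon ht.le (by norm_num)
    nlinarith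
  have hlogt : Real.log t ≤ t := (Real.log_le_sub_one_of_pos ht).trans (by linarith)
  have hlog4P : Real.log (4 * P) ≤ 4 * t := by
    rw [← ht4, Real.log_pow]
    push_cast
    linarith
  have hsq : Real.sqrt (4 * P) = t ^ 2 := by
    rw [← ht4, show t ^ 4 = (t ^ 2) ^ 2 by ring, Real.sqrt_sq (by positivity)]
  have hlog1 : Real.log (4 * P + 1) ≤ 4 * t + 1 := by
    have hle : (4 * P + 1 : ℝ) ≤ (4 * P) * 2 := by linarith
    have : Real.log (4 * P + 1) ≤ Real.log ((4 * P) * 2) := Real.log_le_log (by positivity) hle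
    rw [Real.log_mul (by positivity) (by norm_num)] at this
    have hl3 := Real.log_two_lt_d9
    linarith
  push_cast at h1 h2
  rw [hsq] at h2
  rw [hlog4] at h3
  have hmain : (P : ℝ) * Real.log 2 ≤ Real.log 2 * (4 * P) - Real.log (4 * P + 1) -
      2 * t ^ 2 * Real.log (4 * P) - 2 * Real.log 2 * P := by
    have e1 : 2 * t ^ 2 * Real.log (4 * P) ≤ 2 * t ^ 2 * (4 * t) :=
      mul_le_mul_of_nonneg_left hlog4P (by positivity)
    have e2 : 8 * t ^ 3 + (4 * t + 1) ≤ 0.1725 * t ^ 4 := by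
      have a1 : 60 * t ^ 3 ≤ t ^ 4 := by
        have : t ^ 4 = t * t ^ 3 := by ring
        rw [this]
        exact mul_le_mul_of_nonneg_right ht60 (by positivity)
      have a2 : 3600 * t ≤ t ^ 3 := by
        have : t ^ 3 = (t * t) * t := by ring
        rw [this]
        apply mul_le_mul_of_nonneg_right _ ht.le
        nlinarith
      nlinarith
    have e3 : 0.1725 * t ^ 4 ≤ P * Real.log 2 := by
      rw [ht4]
      nlinarith
    nlinarith
  have hcount : (P : ℝ) * Real.log 2 ≤ (((Ioc P (4 * P)).filter Nat.Prime).card : ℝ) * Real.log (4 * P) := by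
    linarith
  have hlogP : 0 < Real.log P := Real.log_pos (by nlinarith)
  have hlog3 : Real.log (4 * P) ≤ 3 * Real.log P := by
    have : (4 * P : ℝ) ≤ P ^ 3 := by nlinarith [sq_nonneg ((P : ℝ) - 2)]
    have := Real.log_le_log (by positivity) this
    rw [Real.log_pow] at this
    exact_mod_cast this
  rw [div_le_iff₀ hlogP]
  have := mul_le_mul_of_nonneg_left hlog3 (Nat.cast_nonneg (α := ℝ) ((Ioc P (4 * P)).filter Nat.Prime).card)
  linarith

end YX49
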