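import Pool.Agent.YX49.Defs

/-!
# [YX49-HS] Averages of the singular series

`HH Q k = ∑ S ∈ (Q.filter (· ∣ k)).powerset, ∏ l ∈ S, 1/(l-2)` (`Finset.prod_one_add`), and for a set `S` of primes all `l ∈ S` divide `k` iff
`∏ S ∣ k`. `pair`: for fixed `u` and `d = ∏ S` with `S` nonempty: the number of `v ∈ (V, 2V]`, `v ≠ u`, `d ∣ dist u v` is at most `V/d`
(the integers of `(V, 2V]` in the class of `u` modulo `d` other than `u`). Hence the double sum is at most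
`V^2 ∑_{S ≠ ∅} ∏_{l ∈ S} 1/(l (l-2)) = V^2 (∏_{l ∈ Q} (1 + 1/(l (l-2))) - 1) ≤ V^2 (exp (∑_{l ∈ Q} 1/(l(l-2))) - 1)` and
`∑_{l ≥ R} 1/(l(l-2)) ≤ 2/(R-2)` by telescoping; `exp t - 1 ≤ 2 t` for `0 ≤ t ≤ 1`.
`big`: the number of multiples of `d` in `(V, 2V]` is at most `2V/d` in all cases; so the sum over `u` of `HH u - 1` is at most
`2 V * C / R`, and Markov's inequality.
-/

namespace YX49

open Finset

theorem one_le_HH (Q : Finset ℕ) (hQ : ∀ l ∈ Q, 7 ≤ l) (k : ℕ) : 1 ≤ HH Q k := by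
  unfold HH
  have : ∏ l ∈ Q.filter (fun l => l ∣ k), (1 : ℝ) ≤
      ∏ l ∈ Q.filter (fun l => l ∣ k), (1 + 1 / ((l : ℝ) - 2)) := by
    refine prod_le_prod (fun _ _ => zero_le_one) fun l hl => ?_
    have h7 : (7 : ℝ) ≤ l := by exact_mod_cast hQ l (mem_filter.1 hl).1
    have : (0 : ℝ) ≤ 1 / ((l : ℝ) - 2) := div_nonneg zero_le_one (by linarith)
    linarith
  simpa using this

private lemma HH_sub (Q : Finset ℕ) (hQ : ∀ l ∈ Q, l.Prime) (k : ℕ) :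
    HH Q k - 1 = ∑ S ∈ Q.powerset.erase ∅,
      if (∏ l ∈ S, l) ∣ k then ∏ l ∈ S, (1 / ((l : ℝ) - 2)) else 0 := by
  unfold HH
  rw [prod_one_add]
  have h1 : (Q.filter (fun l => l ∣ k)).powerset = Q.powerset.filter (fun S => (∏ l ∈ S, l) ∣ k) := by
    ext S
    simp only [mem_powerset, mem_filter]
    constructor
    · intro h
      refine ⟨fun l hl => (mem_filter.1 (h hl)).1, ?_⟩
      exact Finset.prod_primes_dvd k (fun l hl => (hQ l (mem_filter.1 (h hl)).1).prime)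
        fun l hl => (mem_filter.1 (h hl)).2
    · rintro ⟨h, hd⟩ l hl
      exact mem_filter.2 ⟨h hl, (dvd_prod_of_mem _ hl).trans hd⟩
  rw [h1, sum_filter, ← add_sum_erase Q.powerset _ (empty_mem_powerset Q)]
  simp

private lemma tele (R N : ℕ) (hR : 7 ≤ R) (hN : R ≤ N) :
    ∑ l ∈ Ico R N, 1 / ((l : ℝ) * ((l : ℝ) - 2)) ≤ 1 / ((R : ℝ) - 2) - 1 / ((N : ℝ) - 2) := by
  induction N, hN using Nat.le_induction with
  | base => simp
  | succ n hn ih =>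
    rw [sum_Ico_succ_top hn]
    have h7 : (7 : ℝ) ≤ n := by exact_mod_cast hR.trans hn
    have h1 : (0 : ℝ) < (n : ℝ) - 2 := by linarith
    have h2 : (0 : ℝ) < (n : ℝ) + 1 - 2 := by linarith
    have h3 : 1 / ((n : ℝ) * ((n : ℝ) - 2)) ≤ 1 / ((n : ℝ) - 2) - 1 / ((n : ℝ) + 1 - 2) := by
      rw [div_sub_div _ _ h1.ne' h2.ne', div_le_div_iff₀ (by positivity) (by positivity)]
      nlinarith
    push_cast
    linarith

private lemma sum_le (Q : Finset ℕ) (R : ℕ) (hR : 7 ≤ R) (hQ : ∀ l ∈ Q, l.Prime ∧ R ≤ l) :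
    ∑ l ∈ Q, 1 / ((l : ℝ) * ((l : ℝ) - 2)) ≤ 2 / R := by
  have hsub : Q ⊆ Ico R (R + (Q.sup id + 1)) := fun l hl => by
    have h1 : l ≤ Q.sup id := le_sup (f := id) hl
    have h2 := (hQ l hl).2
    exact mem_Ico.2 ⟨h2, by omega⟩
  have hpos : ∀ l ∈ Ico R (R + (Q.sup id + 1)), l ∉ Q → (0 : ℝ) ≤ 1 / ((l : ℝ) * ((l : ℝ) - 2)) := by
    intro l hl _
    have h7 : (7 : ℝ) ≤ l := by exact_mod_cast hR.trans (mem_Ico.1 hl).1
    have h1 : (0 : ℝ) < (l : ℝ) - 2 := by linarith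
    positivity
  refine (sum_le_sum_of_subset_of_nonneg hsub hpos).trans ((tele R _ hR (by omega)).trans ?_)
  have h7 : (7 : ℝ) ≤ R := by exact_mod_cast hR
  have h3 : (0 : ℝ) ≤ 1 / (((R + (Q.sup id + 1) : ℕ) : ℝ) - 2) := by
    apply div_nonneg zero_le_one
    push_cast
    have : (0 : ℝ) ≤ ((Q.sup id : ℕ) : ℝ) := Nat.cast_nonneg _
    linarith
  have h4 : 1 / ((R : ℝ) - 2) ≤ 2 / R := by
    rw [div_le_div_iff₀ (by linarith) (by linarith)]
    linarith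
  linarith

private lemma prod_le' (Q : Finset ℕ) (R : ℕ) (hR : 7 ≤ R) (hQ : ∀ l ∈ Q, l.Prime ∧ R ≤ l) :
    ∏ l ∈ Q, (1 + 1 / ((l : ℝ) * ((l : ℝ) - 2))) - 1 ≤ 4 / R := by
  have hnn : ∀ l ∈ Q, (0 : ℝ) ≤ 1 / ((l : ℝ) * ((l : ℝ) - 2)) := by
    intro l hl
    have h7 : (7 : ℝ) ≤ l := by exact_mod_cast hR.trans (hQ l hl).2
    have h1 : (0 : ℝ) < (l : ℝ) - 2 := by linarith
    positivity
  have h1 : ∏ l ∈ Q, (1 + 1 / ((l : ℝ) * ((l : ℝ) - 2))) ≤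
      Real.exp (∑ l ∈ Q, 1 / ((l : ℝ) * ((l : ℝ) - 2))) := by
    rw [Real.exp_sum]
    refine prod_le_prod (fun l hl => by linarith [hnn l hl]) fun l _ => ?_
    rw [add_comm]
    exact Real.add_one_le_exp _
  have h2 := sum_le Q R hR hQ
  have h7 : (7 : ℝ) ≤ R := by exact_mod_cast hR
  have ht0 : (0 : ℝ) ≤ 2 / R := by positivity
  have ht1 : (2 : ℝ) / R ≤ 1 / 2 := by
    rw [div_le_div_iff₀ (by linarith) (by norm_num)]
    linarith
  have h3 : Real.exp (∑ l ∈ Q, 1 / ((l : ℝ) * ((l : ℝ) - 2))) ≤ Real.exp (2 / R) :=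
    Real.exp_le_exp.2 h2
  have h4 : Real.exp (2 / R) ≤ 1 / (1 - 2 / R) :=
    Real.exp_bound_div_one_sub_of_interval ht0 (by linarith)
  have h5 : 1 / (1 - 2 / (R : ℝ)) ≤ 1 + 2 * (2 / R) := by
    rw [div_le_iff₀ (by linarith)]
    nlinarith
  have h6 : 2 * (2 / (R : ℝ)) = 4 / R := by ring
  linarith

/-- the general averaging bound -/
private lemma avg (Q : Finset ℕ) (R : ℕ) (hR : 7 ≤ R) (hQ : ∀ l ∈ Q, l.Prime ∧ R ≤ l)
    (A : Finset ℕ) (f : ℕ → ℕ) (X : ℝ) (hX : 0 ≤ X)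
    (hA : ∀ d : ℕ, 1 ≤ d → ((A.filter fun v => d ∣ f v).card : ℝ) ≤ X / d) :
    ∑ v ∈ A, (HH Q (f v) - 1) ≤ X * (4 / R) := by
  have h1 : ∑ v ∈ A, (HH Q (f v) - 1) =
      ∑ S ∈ Q.powerset.erase ∅, (∏ l ∈ S, (1 / ((l : ℝ) - 2))) *
        ((A.filter fun v => (∏ l ∈ S, l) ∣ f v).card : ℝ) := by
    rw [sum_congr rfl fun v _ => HH_sub Q (fun l hl => (hQ l hl).1) (f v), sum_comm]
    refine sum_congr rfl fun S _ => ?_
    rw [← sum_filter, sum_const, nsmul_eq_mul, mul_comm]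
  rw [h1]
  have h2 : ∀ S ∈ Q.powerset.erase ∅, (∏ l ∈ S, (1 / ((l : ℝ) - 2))) *
        ((A.filter fun v => (∏ l ∈ S, l) ∣ f v).card : ℝ) ≤
      X * ∏ l ∈ S, (1 / ((l : ℝ) * ((l : ℝ) - 2))) := by
    intro S hS
    have hSQ : S ⊆ Q := mem_powerset.1 (mem_erase.1 hS).2
    have hpos : ∀ l ∈ S, (0 : ℝ) < 1 / ((l : ℝ) - 2) := by
      intro l hl
      have h7 : (7 : ℝ) ≤ l := by exact_mod_cast hR.trans (hQ l (hSQ hl)).2
      have h1 : (0 : ℝ) < (l : ℝ) - 2 := by linarith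
      positivity
    have hd : 1 ≤ ∏ l ∈ S, l := Nat.one_le_iff_ne_zero.2
      (prod_ne_zero_iff.2 fun l hl => (hQ l (hSQ hl)).1.ne_zero)
    refine (mul_le_mul_of_nonneg_left (hA _ hd) (prod_pos hpos).le).trans (le_of_eq ?_)
    have h3 : ∏ l ∈ S, (1 / ((l : ℝ) * ((l : ℝ) - 2))) =
        (∏ l ∈ S, (1 / ((l : ℝ) - 2))) * (1 / ((∏ l ∈ S, l : ℕ) : ℝ)) := by
      rw [Nat.cast_prod, one_div (∏ l ∈ S, (l : ℝ)), ← prod_inv_distrib, ← prod_mul_distrib]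
      refine prod_congr rfl fun l _ => ?_
      rw [one_div, one_div, mul_inv, mul_comm]
    rw [h3]
    ring
  refine (sum_le_sum h2).trans ?_
  rw [← mul_sum]
  refine mul_le_mul_of_nonneg_left ?_ hX
  have h4 := prod_le' Q R hR hQ
  rw [prod_one_add, ← add_sum_erase Q.powerset _ (empty_mem_powerset Q)] at h4
  simp only [prod_empty] at h4
  linarith

private lemma card_dist (V u d : ℕ) (hu : u ∈ Ioc V (2 * V)) :
    ((((Ioc V (2 * V)).erase u).filter fun v => d ∣ Nat.dist u v).card : ℝ) ≤ (V : ℝ) / d := by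
  obtain ⟨hu1, hu2⟩ := mem_Ioc.1 hu
  have h1 : (((Ioc V (2 * V)).erase u).filter fun v => d ∣ Nat.dist u v) ⊆
      (((Ioc 0 (u - V)).filter fun k => d ∣ k).image fun k => u - k) ∪
      (((Ioc 0 (2 * V - u)).filter fun k => d ∣ k).image fun k => u + k) := by
    intro v hv
    obtain ⟨hv1, hv2⟩ := mem_filter.1 hv
    obtain ⟨hv3, hv4⟩ := mem_erase.1 hv1
    obtain ⟨hv5, hv6⟩ := mem_Ioc.1 hv4
    rcases lt_or_gt_of_ne hv3 with h | h
    · refine mem_union_left _ (mem_image.2 ⟨u - v, mem_filter.2 ⟨mem_Ioc.2 ⟨by omega, by omega⟩, ?_⟩,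
        by omega⟩)
      rwa [Nat.dist_eq_sub_of_le_right h.le] at hv2
    · refine mem_union_right _ (mem_image.2 ⟨v - u, mem_filter.2 ⟨mem_Ioc.2 ⟨by omega, by omega⟩, ?_⟩,
        by omega⟩)
      rwa [Nat.dist_eq_sub_of_le h.le] at hv2
  have h2 := (card_le_card h1).trans ((card_union_le _ _).trans
    (add_le_add card_image_le card_image_le))
  rw [Nat.Ioc_filter_dvd_card_eq_div, Nat.Ioc_filter_dvd_card_eq_div] at h2
  have h3 : (u - V) / d + (2 * V - u) / d ≤ V / d := by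
    refine Nat.div_add_div_le_add_div.trans (Nat.div_le_div_right (by omega))
  calc ((((Ioc V (2 * V)).erase u).filter fun v => d ∣ Nat.dist u v).card : ℝ)
      ≤ ((V / d : ℕ) : ℝ) := by exact_mod_cast h2.trans h3
    _ ≤ (V : ℝ) / d := Nat.cast_div_le

theorem pair : ∃ C : ℝ, 0 < C ∧ ∀ (Q : Finset ℕ) (R V : ℕ), 7 ≤ R → 1 ≤ V →
    (∀ l ∈ Q, l.Prime ∧ R ≤ l) → ∀ U ⊆ Ioc V (2 * V),
    ∑ u ∈ U, ∑ v ∈ U.erase u, (HH Q (Nat.dist u v) - 1) ≤ C / R * (V : ℝ) ^ 2 := by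
  refine ⟨4, by norm_num, fun Q R V hR hV hQ U hU => ?_⟩
  have h7 : ∀ l ∈ Q, 7 ≤ l := fun l hl => hR.trans (hQ l hl).2
  have h1 : ∀ u ∈ U, ∑ v ∈ U.erase u, (HH Q (Nat.dist u v) - 1) ≤ (V : ℝ) * (4 / R) := by
    intro u hu
    refine (sum_le_sum_of_subset_of_nonneg (erase_subset_erase u hU) fun v _ _ => ?_).trans
      (avg Q R hR hQ _ (fun v => Nat.dist u v) V (Nat.cast_nonneg V)
        fun d _ => card_dist V u d (hU hu))
    have := one_le_HH Q h7 (Nat.dist u v)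
    linarith
  refine (sum_le_sum h1).trans ?_
  rw [sum_const, nsmul_eq_mul]
  have h2 : (U.card : ℝ) ≤ V := by
    have := card_le_card hU
    rw [Nat.card_Ioc] at this
    exact_mod_cast (by omega : U.card ≤ V)
  have h3 : (0 : ℝ) ≤ (V : ℝ) * (4 / R) := by positivity
  refine (mul_le_mul_of_nonneg_right h2 h3).trans (le_of_eq ?_)
  ring

theorem big : ∃ C : ℝ, 0 < C ∧ ∀ (Q : Finset ℕ) (R V : ℕ), 7 ≤ R → 1 ≤ V →
    (∀ l ∈ Q, l.Prime ∧ R ≤ l) →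
    (((Ioc V (2 * V)).filter fun u => 2 < HH Q u).card : ℝ) ≤ C / R * V := by
  refine ⟨8, by norm_num, fun Q R V hR hV hQ => ?_⟩
  have h7 : ∀ l ∈ Q, 7 ≤ l := fun l hl => hR.trans (hQ l hl).2
  have h1 := avg Q R hR hQ (Ioc V (2 * V)) (fun v => v) (2 * V) (by positivity) fun d hd => by
    have h2 : ((Ioc V (2 * V)).filter fun v => d ∣ v).card ≤ 2 * V / d := by
      rw [← Nat.Ioc_filter_dvd_card_eq_div (2 * V) d]
      exact card_le_card (filter_subset_filter _ (Ioc_subset_Ioc_left (Nat.zero_le V)))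
    calc (((Ioc V (2 * V)).filter fun v => d ∣ v).card : ℝ) ≤ ((2 * V / d : ℕ) : ℝ) := by
          exact_mod_cast h2
      _ ≤ ((2 * V : ℕ) : ℝ) / d := Nat.cast_div_le
      _ = 2 * (V : ℝ) / d := by push_cast; ring
  have h3 : (((Ioc V (2 * V)).filter fun u => 2 < HH Q u).card : ℝ) ≤
      ∑ v ∈ Ioc V (2 * V), (HH Q v - 1) := by
    refine le_trans ?_ (sum_le_sum_of_subset_of_nonneg
      (filter_subset (fun u => 2 < HH Q u) (Ioc V (2 * V))) fun v _ _ => ?_)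
    · have := card_nsmul_le_sum ((Ioc V (2 * V)).filter fun u => 2 < HH Q u)
        (fun v => HH Q v - 1) 1 fun v hv => by
          have := (mem_filter.1 hv).2
          show (1 : ℝ) ≤ HH Q v - 1
          linarith
      simpa using this
    · have := one_le_HH Q h7 v
      linarith
  have h4 : (2 * (V : ℝ)) * (4 / R) = 8 / R * V := by ring
  linarith

end YX49
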