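import Pool.Agent.YX49.Vr2
import Pool.Agent.YX49.Hs

/-!
# [YX49-VR4] Few exceptions

`bad_card`: from `variance`. `NN < μ/2` gives `(NN - μ)^2 ≥ μ^2/4`, `μ = ∑_{u ∈ U} MU Q u`; `MU u ≤ 2 M`, `MU u ≥ M` where `M = ∏_{l ∈ Q} (1 - 1/(l-1)) > 0`, because
`MU u = M * HH u` (`MU_eq`) and `1 ≤ HH u ≤ 2` (`one_le_HH`); so `M κ V ≤ M |U| ≤ μ`. Divide the bound of `variance` by `μ^2/4`:
`4 H W0 [(1+ε) 4 M^2 D V^2 / μ^2 + 4 ε + (1+ε)/μ] ≤ 4 H W0 [8 D/κ^2 + 4 ε + 2/(M κ V)]`.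
-/

namespace YX49

open Finset

private theorem sf_nonneg (Z n : ℕ) : 0 ≤ sf Z x0 n := by
  rw [sf_x0]
  split_ifs
  · exact zero_le_one
  · exact le_refl _

/-- the last step: pure algebra -/
private theorem alg {A S M μ V κ D ε T : ℝ} (hA : 0 ≤ A) (hM : 0 < M) (hκ : 0 < κ) (hV : 0 < V)
    (hε : 0 ≤ ε) (hε1 : ε ≤ 1) (hμ : M * (κ * V) ≤ μ) (hS : S ≤ 4 * M ^ 2 * (D * V ^ 2))
    (hD : 0 ≤ D) (hT : μ ^ 2 / 4 * T ≤ A * ((1 + ε) * S + 4 * ε * μ ^ 2 + (1 + ε) * μ)) :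
    T ≤ 4 * (A * (8 * D / κ ^ 2 + 4 * ε + 2 / (M * (κ * V)))) := by
  have hm : 0 < M * (κ * V) := by positivity
  have hμ0 : 0 < μ := hm.trans_le hμ
  have h1 : T ≤ 4 * (A * ((1 + ε) * S + 4 * ε * μ ^ 2 + (1 + ε) * μ)) / μ ^ 2 := by
    rw [le_div_iff₀ (by positivity)]
    linarith
  refine h1.trans ?_
  rw [div_le_iff₀ (by positivity)]
  have h2 : (1 + ε) * S ≤ 8 * D / κ ^ 2 * μ ^ 2 := by
    have e1 : (1 + ε) * S ≤ 2 * (4 * M ^ 2 * (D * V ^ 2)) := by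
      have e2 : (1 + ε) * S ≤ (1 + ε) * (4 * M ^ 2 * (D * V ^ 2)) :=
        mul_le_mul_of_nonneg_left hS (by linarith)
      have e3 : (1 + ε) * (4 * M ^ 2 * (D * V ^ 2)) ≤ 2 * (4 * M ^ 2 * (D * V ^ 2)) :=
        mul_le_mul_of_nonneg_right (by linarith) (by positivity)
      exact e2.trans e3
    have e4 : 2 * (4 * M ^ 2 * (D * V ^ 2)) = 8 * D / κ ^ 2 * (M * (κ * V)) ^ 2 := by
      field_simp
      ring
    have e5 : (M * (κ * V)) ^ 2 ≤ μ ^ 2 := pow_le_pow_left₀ hm.le hμ 2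
    have e6 : 8 * D / κ ^ 2 * (M * (κ * V)) ^ 2 ≤ 8 * D / κ ^ 2 * μ ^ 2 :=
      mul_le_mul_of_nonneg_left e5 (by positivity)
    linarith
  have h3 : (1 + ε) * μ ≤ 2 / (M * (κ * V)) * μ ^ 2 := by
    have e1 : (1 + ε) * μ ≤ 2 * μ := mul_le_mul_of_nonneg_right (by linarith) hμ0.le
    have e2 : 1 ≤ μ / (M * (κ * V)) := by
      rw [le_div_iff₀ hm]
      linarith
    have e3 : 2 / (M * (κ * V)) * μ ^ 2 = 2 * μ * (μ / (M * (κ * V))) := by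
      ring
    rw [e3]
    have e4 : 2 * μ * 1 ≤ 2 * μ * (μ / (M * (κ * V))) :=
      mul_le_mul_of_nonneg_left e2 (by positivity)
    linarith
  have h4 : (1 + ε) * S + 4 * ε * μ ^ 2 + (1 + ε) * μ ≤
      (8 * D / κ ^ 2 + 4 * ε + 2 / (M * (κ * V))) * μ ^ 2 := by
    rw [add_mul, add_mul]
    linarith
  have h5 := mul_le_mul_of_nonneg_left h4 hA
  linarith

/-- the number of `n` without prime factors up to `Z` for which few `u n` avoid the classes -/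
theorem bad_card {z Z : ℕ} {Q : Finset ℕ} {α : ℕ → ℕ} (h : Good z Q α) (hz : z ≤ Z) {ε : ℝ}
    (hε : 0 ≤ ε) (hε1 : ε ≤ 1) (N H : ℕ)
    (hF : ∀ x : ℕ → ℕ → ℝ, Loc x →
      |∑ n ∈ Ioc N (N + H), sf Z x n - H * WW Z x| ≤ ε * (H * WW Z x))
    {U : Finset ℕ} {V : ℕ} {κ D : ℝ} (hκ : 0 < κ) (hV : 1 ≤ V) (hU : ∀ u ∈ U, HH Q u ≤ 2)
    (hUV : κ * V ≤ U.card)
    (hD : ∑ u ∈ U, ∑ v ∈ U.erase u, (HH Q (Nat.dist u v) - 1) ≤ D * (V : ℝ) ^ 2) :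
    (∑ n ∈ (Ioc N (N + H)).filter (fun n => NN Q α U n < (∑ u ∈ U, MU Q u) / 2), sf Z x0 n) ≤
      4 * (H * WW Z x0 * (8 * D / κ ^ 2 + 4 * ε +
        2 / ((∏ l ∈ Q, (1 - 1 / ((l : ℝ) - 1))) * (κ * V)))) := by
  have hvar := variance h hz hε hε1 N H hF U
  have hM : 0 < ∏ l ∈ Q, (1 - 1 / ((l : ℝ) - 1)) := Vr2_prod_pos Q h.seven
  have hMU : ∀ u, MU Q u = (∏ l ∈ Q, (1 - 1 / ((l : ℝ) - 1))) * HH Q u := MU_eq Q h.seven
  have h1 : ∀ k, 1 ≤ HH Q k := one_le_HH Q h.seven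
  have hV0 : (0 : ℝ) < V := by exact_mod_cast hV
  obtain ⟨M, hMe⟩ : ∃ M, M = ∏ l ∈ Q, (1 - 1 / ((l : ℝ) - 1)) := ⟨_, rfl⟩
  rw [← hMe] at hM ⊢
  obtain ⟨μ, hμ⟩ : ∃ μ, μ = ∑ u ∈ U, MU Q u := ⟨_, rfl⟩
  rw [← hμ] at hvar ⊢
  have hMUl : ∀ u, M ≤ MU Q u := fun u => by
    rw [hMU, ← hMe]
    exact le_mul_of_one_le_right hM.le (h1 u)
  have hMUu : ∀ u ∈ U, MU Q u ≤ 2 * M := fun u hu => by
    rw [hMU, ← hMe, mul_comm 2 M]
    exact mul_le_mul_of_nonneg_left (hU u hu) hM.le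
  have hμl : M * (κ * V) ≤ μ := by
    have e1 : M * (κ * V) ≤ M * U.card := mul_le_mul_of_nonneg_left hUV hM.le
    have e2 : M * (U.card : ℝ) ≤ μ := by
      rw [hμ, mul_comm, ← nsmul_eq_mul]
      exact Finset.card_nsmul_le_sum U _ M fun u _ => hMUl u
    exact e1.trans e2
  have hμ0 : 0 < μ := lt_of_lt_of_le (by positivity) hμl
  have hDn : 0 ≤ D := by
    have e1 : 0 ≤ ∑ u ∈ U, ∑ v ∈ U.erase u, (HH Q (Nat.dist u v) - 1) :=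
      Finset.sum_nonneg fun u _ => Finset.sum_nonneg fun v _ => by linarith [h1 (Nat.dist u v)]
    have e2 : 0 ≤ D * (V : ℝ) ^ 2 := e1.trans hD
    exact nonneg_of_mul_nonneg_left e2 (by positivity)
  have hS : ∑ u ∈ U, ∑ v ∈ U.erase u, MU Q u * MU Q v * (HH Q (Nat.dist u v) - 1) ≤
      4 * M ^ 2 * (D * (V : ℝ) ^ 2) := by
    have e1 : ∑ u ∈ U, ∑ v ∈ U.erase u, MU Q u * MU Q v * (HH Q (Nat.dist u v) - 1) ≤
        ∑ u ∈ U, ∑ v ∈ U.erase u, 4 * M ^ 2 * (HH Q (Nat.dist u v) - 1) := by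
      refine Finset.sum_le_sum fun u hu => Finset.sum_le_sum fun v hv => ?_
      have e2 : MU Q u * MU Q v ≤ 2 * M * (2 * M) :=
        mul_le_mul (hMUu u hu) (hMUu v (Finset.mem_of_mem_erase hv)) (hM.le.trans (hMUl v))
          (by positivity)
      have e3 : 0 ≤ HH Q (Nat.dist u v) - 1 := by linarith [h1 (Nat.dist u v)]
      have e4 := mul_le_mul_of_nonneg_right e2 e3
      refine e4.trans (le_of_eq ?_)
      ring
    refine e1.trans ?_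
    simp only [← Finset.mul_sum]
    exact mul_le_mul_of_nonneg_left hD (by positivity)
  have hA : 0 ≤ (H : ℝ) * WW Z x0 := mul_nonneg (Nat.cast_nonneg _) (Vr2_W0 Z)
  refine alg hA hM hκ hV0 hε hε1 hμl hS hDn ?_
  refine le_trans ?_ hvar
  rw [Finset.mul_sum]
  have e1 : ∑ n ∈ (Ioc N (N + H)).filter (fun n => NN Q α U n < μ / 2), μ ^ 2 / 4 * sf Z x0 n ≤
      ∑ n ∈ (Ioc N (N + H)).filter (fun n => NN Q α U n < μ / 2),
        sf Z x0 n * (NN Q α U n - μ) ^ 2 := by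
    refine Finset.sum_le_sum fun n hn => ?_
    have e2 : NN Q α U n < μ / 2 := (Finset.mem_filter.1 hn).2
    have e3 : μ ^ 2 / 4 ≤ (NN Q α U n - μ) ^ 2 := by nlinarith
    rw [mul_comm]
    exact mul_le_mul_of_nonneg_left e3 (sf_nonneg Z n)
  refine e1.trans ?_
  exact Finset.sum_le_sum_of_subset_of_nonneg (Finset.filter_subset _ _) fun n _ _ =>
    mul_nonneg (sf_nonneg Z n) (sq_nonneg _)

end YX49
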