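import Pool.Agent.YX49.FL
import Pool.Agent.YX49.Vr4
import Pool.Agent.YX49.Num2

/-!
# [YX49-BOX] Products of a prime and a member of a dense set

Constants: `c1`, `P0` from `primes_lower`, `C2` from `mert_upper`, `δ` with `C2 * 48 * 4 * δ ≤ c1 / 100` (`δ ≤ 1`), `s` from `fund δ`;
`ε = δ / s`. Given `κ`: `Ch`, `Cb` from `pair`, `big`, `cm` from `mu_lower`; `U' = U.filter (HH Q · ≤ 2)` has at least `κ V / (2 log T)` elements,
because all the primes of `Q` are at least `R1 = max (T+1) R`, so that `big` gives at most `(Cb / R1) V` exceptions and `log T / R1 ≤ log R1 / R1` is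
small for `R` large. Apply `bad_card` to `U'` with `N = P`, `H = 3 P`, `κ' = κ / (2 log T)`, `D = Ch / R1` (`pair`),
`M = ∏ (1 - 1/(l-1)) ≥ cm log T / log z` (`mu_lower`): the three terms `8 D / κ'^2 ≤ C log^2 R1 / (κ^2 R1)` (small for large `R`),
`4 ε = 4 δ / s`, `2 / (M κ' V) ≤ 4 log z / (cm κ V) ≤ 4 / (cm κ C)`. `WW Z x0 ≤ C2 / log Z ≤ 4 s C2 / log P` (`WW_x0`). So the sum of `sf Z x0 n` over the bad
`n ∈ (P, 4P]` is at most `(c1 / 2) P / log P`; every prime in `(P, 4P]` has `sf Z x0 p = 1` (as `Z ≤ Z^s ≤ P < p`), so at least half of the primes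
(`≥ (c1/2) P / log P`) are good: `NN Q α U p ≥ NN Q α U' p ≥ μ / 2`, `μ = ∑_{u ∈ U'} MU Q u ≥ M |U'| ≥ (cm log T / log z) (κ V / (2 log T))`.
-/

namespace YX49

open Finset

private theorem logpow (n : ℕ) (A : ℝ) (hA : 0 < A) :
    ∃ R : ℕ, ∀ r : ℕ, R ≤ r → Real.log r ^ n ≤ A * r := by
  have h := (Real.isLittleO_pow_log_id_atTop (n := n)).bound hA
  have h2 := (tendsto_natCast_atTop_atTop (R := ℝ)).eventually h
  obtain ⟨R, hR⟩ := Filter.eventually_atTop.1 h2
  refine ⟨R, fun r hr => ?_⟩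
  have h3 := hR r hr
  simp only [id, Real.norm_eq_abs] at h3
  calc Real.log r ^ n ≤ |Real.log r ^ n| := le_abs_self _
    _ ≤ A * |(r : ℝ)| := h3
    _ = A * r := by rw [abs_of_nonneg (Nat.cast_nonneg r)]

private theorem NN_mono {Q : Finset ℕ} {α : ℕ → ℕ} {U U' : Finset ℕ} (h : U' ⊆ U) (n : ℕ) :
    NN Q α U' n ≤ NN Q α U n := by
  unfold NN
  exact_mod_cast card_le_card (filter_subset_filter _ h)

private theorem NN_nonneg (Q : Finset ℕ) (α : ℕ → ℕ) (U : Finset ℕ) (n : ℕ) :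
    0 ≤ NN Q α U n := by
  unfold NN
  positivity

private theorem sf_nonneg (Z n : ℕ) : 0 ≤ sf Z x0 n := by
  rw [sf_x0]
  split_ifs <;> norm_num

/-- half of the primes are good -/
private theorem half_good {Z P : ℕ} {Q : Finset ℕ} {α : ℕ → ℕ} {U' : Finset ℕ} {μ t : ℝ}
    (hμ : 0 ≤ μ) (hZP : Z ≤ P)
    (hbad : (∑ n ∈ (Ioc P (P + 3 * P)).filter (fun n => NN Q α U' n < μ / 2), sf Z x0 n) ≤ t)
    (hcard : 2 * t ≤ (((Ioc P (4 * P)).filter Nat.Prime).card : ℝ)) :
    t * (μ / 2) ≤ ∑ p ∈ (Ioc P (4 * P)).filter Nat.Prime, NN Q α U' p := by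
  classical
  have e4 : P + 3 * P = 4 * P := by ring
  rw [e4] at hbad
  set A := (Ioc P (4 * P)).filter Nat.Prime with hA
  set B := A.filter (fun n => NN Q α U' n < μ / 2) with hB
  have hBt : (B.card : ℝ) ≤ t := by
    have h1 : (B.card : ℝ) = ∑ n ∈ B, sf Z x0 n := by
      rw [card_eq_sum_ones, Nat.cast_sum]
      refine sum_congr rfl fun p hp => ?_
      rw [hB, mem_filter, hA, mem_filter, mem_Ioc] at hp
      rw [sf_x0, if_pos]
      · norm_num
      · intro l hl hlp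
        rw [mem_prs] at hl
        have h2 := (Nat.prime_dvd_prime_iff_eq hl.1 hp.1.2).1 hlp
        omega
    rw [h1]
    refine le_trans ?_ hbad
    refine sum_le_sum_of_subset_of_nonneg ?_ fun n _ _ => sf_nonneg Z n
    intro p hp
    rw [hB, mem_filter, hA, mem_filter] at hp
    rw [mem_filter]
    exact ⟨hp.1.1, hp.2⟩
  set G := A.filter (fun n => ¬ NN Q α U' n < μ / 2) with hG
  have hGB : B.card + G.card = A.card := card_filter_add_card_filter_not _
  have hGt : t ≤ (G.card : ℝ) := by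
    have h3 : ((B.card : ℝ)) + G.card = A.card := by exact_mod_cast hGB
    linarith
  calc t * (μ / 2) ≤ G.card * (μ / 2) := mul_le_mul_of_nonneg_right hGt (by linarith)
    _ = ∑ p ∈ G, μ / 2 := by rw [sum_const, nsmul_eq_mul]
    _ ≤ ∑ p ∈ G, NN Q α U' p := by
        refine sum_le_sum fun p hp => ?_
        rw [hG, mem_filter] at hp
        exact not_lt.1 hp.2
    _ ≤ ∑ p ∈ A, NN Q α U' p :=
        sum_le_sum_of_subset_of_nonneg (filter_subset _ _) fun n _ _ => NN_nonneg _ _ _ _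

theorem box : ∃ s : ℕ, 1 ≤ s ∧ ∀ κ : ℝ, 0 < κ → ∃ (R : ℕ) (C c : ℝ), 7 ≤ R ∧ 0 < C ∧ 0 < c ∧
    ∀ (T z Z P V : ℕ) (Q : Finset ℕ) (α : ℕ → ℕ) (U : Finset ℕ), Good z Q α → 2 ≤ T → T ≤ z →
    z ≤ Z → Z ^ s ≤ P → Real.log P ≤ 4 * s * Real.log Z → C ≤ P → (∀ l ∈ Q, T < l ∧ R < l) →
    U ⊆ Ioc V (2 * V) → κ * V / Real.log T ≤ U.card → C * Real.log z ≤ V →
    c * (P / Real.log P) * (V / Real.log z) ≤
      ∑ p ∈ (Ioc P (4 * P)).filter Nat.Prime, NN Q α U p := by
  obtain ⟨c1, hc1, P0, hP0⟩ := primes_lower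
  obtain ⟨C2, hC2, hmert⟩ := mert_upper
  obtain ⟨cm, hcm, hmu⟩ := mu_lower
  obtain ⟨Ch, hCh, hpair⟩ := pair
  obtain ⟨Cb, hCb, hbig⟩ := big
  obtain ⟨δ, hδ, hδ1, hδ2⟩ : ∃ δ : ℝ, 0 < δ ∧ δ ≤ 1 ∧ C2 * δ ≤ c1 / 1536 := by
    refine ⟨min 1 (c1 / (1536 * C2)), lt_min one_pos (by positivity), min_le_left _ _, ?_⟩
    calc C2 * min 1 (c1 / (1536 * C2)) ≤ C2 * (c1 / (1536 * C2)) :=
          mul_le_mul_of_nonneg_left (min_le_right _ _) hC2.le
      _ = c1 / 1536 := by field_simp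
  obtain ⟨s, hs, hfund⟩ := fund δ hδ hδ1
  refine ⟨s, hs, ?_⟩
  intro κ hκ
  have hs0 : (0 : ℝ) < s := by exact_mod_cast hs
  obtain ⟨η, hη, hηdef⟩ : ∃ η : ℝ, 0 < η ∧ 48 * s * C2 * η = c1 / 8 :=
    ⟨c1 / (384 * s * C2), by positivity, by field_simp; norm_num⟩
  obtain ⟨R1, hR1⟩ := logpow 2 (η * κ ^ 2 / (32 * Ch)) (by positivity)
  obtain ⟨R2, hR2⟩ := logpow 1 (κ / (2 * Cb)) (by positivity)
  refine ⟨max 7 (max R1 R2), max (max 2 (P0 : ℝ)) (4 / (cm * κ * η)), c1 * cm * κ / 8,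
    le_max_left _ _, lt_of_lt_of_le (by norm_num : (0 : ℝ) < 2)
      (le_trans (le_max_left _ _) (le_max_left _ _)), by positivity, ?_⟩
  intro T z Z P V Q α U hgood hT hTz hzZ hZP hlogP hCP hQ hU hUcard hCV
  set R := max 7 (max R1 R2) with hRdef
  have hP2 : (2 : ℝ) ≤ P := le_trans (le_trans (le_max_left _ _) (le_max_left _ _)) hCP
  have hPP0 : P0 ≤ P := by
    have : (P0 : ℝ) ≤ P := le_trans (le_trans (le_max_right _ _) (le_max_left _ _)) hCP
    exact_mod_cast this
  have hz2 : 2 ≤ z := le_trans hT hTz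
  have hZ2 : 2 ≤ Z := le_trans hz2 hzZ
  have hlogz : 0 < Real.log z := Real.log_pos (by exact_mod_cast (by omega : 1 < z))
  have hlogT : 0 < Real.log T := Real.log_pos (by exact_mod_cast (by omega : 1 < T))
  have hlogZ : 0 < Real.log Z := Real.log_pos (by exact_mod_cast (by omega : 1 < Z))
  have hlogPpos : 0 < Real.log P := Real.log_pos (by linarith)
  have hPpos : (0 : ℝ) < P := by linarith
  have hCC : 4 / (cm * κ * η) * Real.log z ≤ V :=
    le_trans (mul_le_mul_of_nonneg_right (le_max_right _ _) hlogz.le) hCV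
  have hVpos : (0 : ℝ) < V := lt_of_lt_of_le (by positivity) hCC
  have hV1 : 1 ≤ V := by
    have : 0 < V := by exact_mod_cast hVpos
    omega
  -- the lower bound r for the primes of Q
  set r := max (T + 1) R with hr
  have hr7 : 7 ≤ r := le_trans (le_max_left _ _) (le_max_right _ _)
  have hrR1 : R1 ≤ r :=
    le_trans (le_trans (le_max_left _ _) (le_max_right _ _)) (le_max_right (T + 1) R)
  have hrR2 : R2 ≤ r :=
    le_trans (le_trans (le_max_right _ _) (le_max_right _ _)) (le_max_right (T + 1) R)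
  have hr0 : (0 : ℝ) < r := by exact_mod_cast (by omega : 0 < r)
  have hTr : Real.log T ≤ Real.log r := by
    refine Real.log_le_log (by exact_mod_cast (by omega : 0 < T)) ?_
    have : T + 1 ≤ r := le_max_left _ _
    exact_mod_cast (by omega : T ≤ r)
  have hQr : ∀ l ∈ Q, l.Prime ∧ r ≤ l := by
    intro l hl
    refine ⟨(mem_prs.1 (hgood.sub hl)).1, ?_⟩
    have h1 := hQ l hl
    exact max_le (by omega) (by omega)
  have hL2 : Real.log T ^ 2 ≤ η * κ ^ 2 / (32 * Ch) * r :=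
    le_trans (pow_le_pow_left₀ hlogT.le hTr 2) (hR1 r hrR1)
  have hL1 : Real.log T ≤ κ / (2 * Cb) * r := by
    have := hR2 r hrR2
    rw [pow_one] at this
    exact le_trans hTr this
  -- the set U'
  set U' := U.filter (fun u => HH Q u ≤ 2) with hU'
  have hU'U : U' ⊆ U := filter_subset _ _
  have hU'V : U' ⊆ Ioc V (2 * V) := hU'U.trans hU
  have hexc : ((U.filter (fun u => ¬ HH Q u ≤ 2)).card : ℝ) ≤ κ * V / (2 * Real.log T) := by
    have h1 : U.filter (fun u => ¬ HH Q u ≤ 2) ⊆ (Ioc V (2 * V)).filter fun u => 2 < HH Q u := by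
      intro u hu
      rw [mem_filter] at hu ⊢
      exact ⟨hU hu.1, not_le.1 hu.2⟩
    have h2 : ((U.filter (fun u => ¬ HH Q u ≤ 2)).card : ℝ) ≤ Cb / r * V :=
      le_trans (by exact_mod_cast card_le_card h1) (hbig Q r V hr7 hV1 hQr)
    refine le_trans h2 ?_
    have h3 : Cb / r ≤ κ / (2 * Real.log T) := by
      rw [div_le_div_iff₀ hr0 (by positivity)]
      have h4 : Cb * (2 * Real.log T) ≤ Cb * (2 * (κ / (2 * Cb) * r)) := by
        refine mul_le_mul_of_nonneg_left ?_ hCb.le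
        linarith
      calc Cb * (2 * Real.log T) ≤ Cb * (2 * (κ / (2 * Cb) * r)) := h4
        _ = κ * r := by field_simp
    calc Cb / r * V ≤ κ / (2 * Real.log T) * V := mul_le_mul_of_nonneg_right h3 hVpos.le
      _ = κ * V / (2 * Real.log T) := by ring
  have hU'card : κ / (2 * Real.log T) * V ≤ U'.card := by
    have h1 : U'.card + (U.filter (fun u => ¬ HH Q u ≤ 2)).card = U.card :=
      card_filter_add_card_filter_not _
    have h2 : (U'.card : ℝ) + (U.filter (fun u => ¬ HH Q u ≤ 2)).card = U.card := by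
      exact_mod_cast h1
    have h3 : κ * V / Real.log T = κ / (2 * Real.log T) * V + κ * V / (2 * Real.log T) := by
      field_simp; ring
    linarith
  -- M
  set M := ∏ l ∈ Q, (1 - 1 / ((l : ℝ) - 1)) with hM
  have hMlow : cm * Real.log T / Real.log z ≤ M :=
    hmu z T hT hTz Q hgood.sub fun l hl => (hQ l hl).1
  have hMpos : 0 < M := lt_of_lt_of_le (by positivity) hMlow
  have hκ' : 0 < κ / (2 * Real.log T) := by positivity
  have hMκV : cm * κ * V / (2 * Real.log z) ≤ M * (κ / (2 * Real.log T) * V) := by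
    calc cm * κ * V / (2 * Real.log z)
        = cm * Real.log T / Real.log z * (κ / (2 * Real.log T) * V) := by field_simp
      _ ≤ M * (κ / (2 * Real.log T) * V) :=
        mul_le_mul_of_nonneg_right hMlow (by positivity)
  -- μ
  set μ := ∑ u ∈ U', MU Q u with hμ
  have hμlow : cm * κ * V / (2 * Real.log z) ≤ μ := by
    have h1 : ∀ u ∈ U', M ≤ MU Q u := by
      intro u _
      rw [MU_eq Q hgood.seven u]
      calc M = M * 1 := (mul_one M).symm
        _ ≤ M * HH Q u := mul_le_mul_of_nonneg_left (one_le_HH Q hgood.seven u) hMpos.le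
    have h2 : (U'.card : ℝ) * M ≤ μ := by
      calc (U'.card : ℝ) * M = ∑ u ∈ U', M := by rw [sum_const, nsmul_eq_mul]
        _ ≤ μ := sum_le_sum h1
    have h3 : M * (κ / (2 * Real.log T) * V) ≤ (U'.card : ℝ) * M := by
      rw [mul_comm (U'.card : ℝ) M]
      exact mul_le_mul_of_nonneg_left hU'card hMpos.le
    linarith
  have hμ0 : 0 ≤ μ := le_trans (by positivity) hμlow
  -- the bad integers
  have hε0 : 0 ≤ δ / s := by positivity
  have hε1 : δ / s ≤ 1 := by
    rw [div_le_one hs0]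
    have : (1 : ℝ) ≤ s := by exact_mod_cast hs
    linarith
  have hZP' : Z ≤ P := le_trans (Nat.le_self_pow (by omega) Z) hZP
  have hF : ∀ x : ℕ → ℕ → ℝ, Loc x →
      |∑ n ∈ Ioc P (P + 3 * P), sf Z x n - (3 * P : ℕ) * WW Z x| ≤
        δ / s * ((3 * P : ℕ) * WW Z x) :=
    fun x hx => hfund Z hZ2 x hx P (3 * P) (by omega)
  have hbad := bad_card hgood hzZ hε0 hε1 P (3 * P) hF (U := U') (V := V)
    (κ := κ / (2 * Real.log T)) (D := Ch / r) hκ' hV1
    (fun u hu => (mem_filter.1 hu).2) hU'card (hpair Q r V hr7 hV1 hQr U' hU'V)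
  have hW : WW Z x0 ≤ C2 * (4 * s) / Real.log P := by
    rw [WW_x0]
    refine le_trans (hmert Z hZ2) ?_
    rw [div_le_div_iff₀ hlogZ hlogPpos]
    calc C2 * Real.log P ≤ C2 * (4 * s * Real.log Z) := mul_le_mul_of_nonneg_left hlogP hC2.le
      _ = C2 * (4 * s) * Real.log Z := by ring
  have hbr : 8 * (Ch / r) / (κ / (2 * Real.log T)) ^ 2 + 4 * (δ / s) +
      2 / (M * (κ / (2 * Real.log T) * V)) ≤ η + 4 * (δ / s) + η := by
    have h1 : 8 * (Ch / r) / (κ / (2 * Real.log T)) ^ 2 ≤ η := by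
      rw [div_le_iff₀ (by positivity)]
      have h2 : 8 * (Ch / r) = (32 * Ch) / (4 * r) := by field_simp; ring
      have h3 : η * (κ / (2 * Real.log T)) ^ 2 = (η * κ ^ 2) / (4 * Real.log T ^ 2) := by
        field_simp; ring
      rw [h2, h3, div_le_div_iff₀ (by positivity) (by positivity)]
      have h4 : 32 * Ch * (4 * Real.log T ^ 2) ≤
          32 * Ch * (4 * (η * κ ^ 2 / (32 * Ch) * r)) := by
        refine mul_le_mul_of_nonneg_left ?_ (by positivity)
        linarith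
      calc 32 * Ch * (4 * Real.log T ^ 2) ≤ 32 * Ch * (4 * (η * κ ^ 2 / (32 * Ch) * r)) := h4
        _ = η * κ ^ 2 * (4 * r) := by field_simp
    have h5 : 2 / (M * (κ / (2 * Real.log T) * V)) ≤ η := by
      rw [div_le_iff₀ (by positivity)]
      have h6 : 2 = η * (cm * κ * (4 / (cm * κ * η) * Real.log z) / (2 * Real.log z)) := by
        field_simp
        norm_num
      calc (2 : ℝ) = η * (cm * κ * (4 / (cm * κ * η) * Real.log z) / (2 * Real.log z)) := h6
        _ ≤ η * (cm * κ * V / (2 * Real.log z)) := by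
            refine mul_le_mul_of_nonneg_left ?_ hη.le
            refine div_le_div_of_nonneg_right ?_ (by positivity)
            exact mul_le_mul_of_nonneg_left hCC (by positivity)
        _ ≤ η * (M * (κ / (2 * Real.log T) * V)) := mul_le_mul_of_nonneg_left hMκV hη.le
    linarith
  have hW0 : 0 ≤ WW Z x0 := by
    rw [WW_x0]
    refine prod_nonneg fun l hl => ?_
    have h1 := (mem_prs.1 hl).1.two_le
    have h2 : (2 : ℝ) ≤ l := by exact_mod_cast h1
    have h3 : 1 / (l : ℝ) ≤ 1 := by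
      rw [div_le_one (by linarith)]
      linarith
    linarith
  have hbad2 : (∑ n ∈ (Ioc P (P + 3 * P)).filter (fun n => NN Q α U' n < μ / 2), sf Z x0 n) ≤
      c1 / 2 * (P / Real.log P) := by
    refine le_trans hbad ?_
    have h1 : ((3 * P : ℕ) : ℝ) * WW Z x0 ≤ 3 * P * (C2 * (4 * s) / Real.log P) := by
      push_cast
      exact mul_le_mul_of_nonneg_left hW (by positivity)
    have h2 : 0 ≤ η + 4 * (δ / s) + η := by positivity
    have h3 : ((3 * P : ℕ) : ℝ) * WW Z x0 * (8 * (Ch / r) / (κ / (2 * Real.log T)) ^ 2 +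
        4 * (δ / s) + 2 / (M * (κ / (2 * Real.log T) * V))) ≤
        3 * P * (C2 * (4 * s) / Real.log P) * (η + 4 * (δ / s) + η) := by
      refine le_trans (mul_le_mul_of_nonneg_left hbr (by positivity)) ?_
      exact mul_le_mul_of_nonneg_right h1 h2
    have h4 : 4 * (3 * P * (C2 * (4 * s) / Real.log P) * (η + 4 * (δ / s) + η)) =
        (2 * (48 * s * C2 * η) + 192 * (C2 * δ)) * (P / Real.log P) := by
      field_simp
      ring
    have h5 : (2 * (48 * s * C2 * η) + 192 * (C2 * δ)) * (P / Real.log P) ≤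
        c1 / 2 * (P / Real.log P) := by
      refine mul_le_mul_of_nonneg_right ?_ (by positivity)
      rw [hηdef]
      linarith
    calc 4 * (((3 * P : ℕ) : ℝ) * WW Z x0 * (8 * (Ch / r) / (κ / (2 * Real.log T)) ^ 2 +
        4 * (δ / s) + 2 / (M * (κ / (2 * Real.log T) * V)))) ≤
        4 * (3 * P * (C2 * (4 * s) / Real.log P) * (η + 4 * (δ / s) + η)) := by linarith
      _ = (2 * (48 * s * C2 * η) + 192 * (C2 * δ)) * (P / Real.log P) := h4
      _ ≤ c1 / 2 * (P / Real.log P) := h5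
  have hcard : 2 * (c1 / 2 * (P / Real.log P)) ≤
      (((Ioc P (4 * P)).filter Nat.Prime).card : ℝ) := by
    refine le_trans (le_of_eq ?_) (hP0 P hPP0)
    ring
  have hmain := half_good (Q := Q) (α := α) (U' := U') hμ0 hZP' hbad2 hcard
  calc c1 * cm * κ / 8 * (P / Real.log P) * (V / Real.log z)
      = c1 / 2 * (P / Real.log P) * (cm * κ * V / (2 * Real.log z) / 2) := by
        field_simp
        ring
    _ ≤ c1 / 2 * (P / Real.log P) * (μ / 2) := by
        refine mul_le_mul_of_nonneg_left ?_ (by positivity)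
        linarith
    _ ≤ ∑ p ∈ (Ioc P (4 * P)).filter Nat.Prime, NN Q α U' p := hmain
    _ ≤ ∑ p ∈ (Ioc P (4 * P)).filter Nat.Prime, NN Q α U p :=
        sum_le_sum fun p _ => NN_mono hU'U p

end YX49
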