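import Pool.Agent.YX49.CovA

/-!
# [YX49-COV] Few integers can be covered by the remaining primes

Every `m ∈ Sv z x y a` satisfies `g < m` (`16 g ≤ y`), so it is covered by some prime `p ≤ x`, and this `p` is in `La z x a` (definition of `Sv`); a prime `l ≤ x` with
`l ∉ La z x a` has `l ≤ z` or `(l : ℤ) ∣ a l`. `upper_ap` with `Λ = La z x a`, `b = a`, summed over `p ∈ La z x a`.
-/

namespace YX49

open Finset

theorem cov_upper : ∃ C : ℝ, 0 < C ∧ ∀ (x g y z : ℕ) (a : ℕ → ℤ), 2 * x ≤ y → y ≤ x ^ 2 →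
    16 * g ≤ y → Covers x g y a → ∑ p ∈ La z x a, (1 : ℝ) / p ≤ 1 →
    ((Sv z x y a).card : ℝ) ≤
      C * y * (∑ p ∈ La z x a, (1 : ℝ) / p) / Real.log ((y : ℝ) / x) := by
  classical
  obtain ⟨C, hC, hap⟩ := upper_ap
  refine ⟨C, hC, ?_⟩
  intro x g y z a h1 h2 hg hcov hsum
  have hprime : ∀ l ∈ La z x a, l.Prime := by
    intro l hl
    unfold La at hl
    rw [mem_filter] at hl
    exact hl.2.1
  have hle : ∀ l ∈ La z x a, l ≤ x := by
    intro l hl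
    unfold La at hl
    rw [mem_filter, mem_Ioc] at hl
    exact hl.1.2
  have hsub : Sv z x y a ⊆ (La z x a).biUnion fun p =>
      ((Ioc 0 y).filter fun m : ℕ => (m : ℤ) ≡ a p [ZMOD (p : ℤ)] ∧
        ∀ l : ℕ, l.Prime → l ≤ x → l ∉ La z x a → ¬ (m : ℤ) ≡ a l [ZMOD (l : ℤ)]) := by
    intro m hm
    unfold Sv at hm
    rw [mem_filter, mem_Ioc] at hm
    obtain ⟨⟨hm1, hm2⟩, hm3⟩ := hm
    have hgm : g < m := by omega
    obtain ⟨p, hp, hpx, hpm⟩ := hcov m hgm hm2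
    have hnot : ¬ (p ≤ z ∨ (p : ℤ) ∣ a p) := fun h => hm3 p hp hpx h hpm
    push Not at hnot
    rw [mem_biUnion]
    refine ⟨p, ?_, ?_⟩
    · unfold La
      rw [mem_filter, mem_Ioc]
      exact ⟨⟨hnot.1, hpx⟩, hp, hnot.2⟩
    · rw [mem_filter, mem_Ioc]
      refine ⟨⟨by omega, hm2⟩, hpm, ?_⟩
      intro l hl hlx hlL
      apply hm3 l hl hlx
      by_contra hcon
      push Not at hcon
      apply hlL
      unfold La
      rw [mem_filter, mem_Ioc]
      exact ⟨⟨hcon.1, hlx⟩, hl, hcon.2⟩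
  have hcard : ((Sv z x y a).card : ℝ) ≤ ∑ p ∈ La z x a, C * ((y : ℝ) / p) / Real.log ((y : ℝ) / x) := by
    have h3 := (card_le_card hsub).trans card_biUnion_le
    calc ((Sv z x y a).card : ℝ) ≤ ((∑ p ∈ La z x a, ((Ioc 0 y).filter fun m : ℕ => (m : ℤ) ≡ a p [ZMOD (p : ℤ)] ∧
        ∀ l : ℕ, l.Prime → l ≤ x → l ∉ La z x a → ¬ (m : ℤ) ≡ a l [ZMOD (l : ℤ)]).card : ℕ) : ℝ) := by
          exact_mod_cast h3
      _ = ∑ p ∈ La z x a, (((Ioc 0 y).filter fun m : ℕ => (m : ℤ) ≡ a p [ZMOD (p : ℤ)] ∧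
        ∀ l : ℕ, l.Prime → l ≤ x → l ∉ La z x a → ¬ (m : ℤ) ≡ a l [ZMOD (l : ℤ)]).card : ℝ) := by
          push_cast; rfl
      _ ≤ _ := by
          apply sum_le_sum
          intro p hp
          have := hap x y p a (La z x a) h1 h2 hprime hsum hp (hle p hp)
          convert this
  refine hcard.trans (le_of_eq ?_)
  rw [mul_sum, sum_div]
  apply sum_congr rfl
  intro p _
  ring

end YX49
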