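import Pool.Agent.YX49.Up

/-!
# [YX49-COVA] Integers in a progression avoiding many classes

`upper_ap`: the `m ∈ (0, y]` with `m ≡ b p` modulo `p` are `r + p n`, `r ∈ (0, p]` fixed, `n ∈ [0, y/p]`; write `n = n' - 1`, `n' ∈ (0, H]`, `H = y/p + 1`.
For a prime `l ≠ p` the condition `r + p n ≡ b l` modulo `l` is `n' ≡ β l` modulo `l`. `sieve_up` with `x' l n = if l ∈ Λ then 0 else (if n ≡ β l [MOD l] then 1 else 0)`
(`Loc`, `om = 1` for `l ∉ Λ`), `T = y / x` (natural division; `2 ≤ T ≤ x`, `T ≤ y / p ≤ H`, `p ∈ Λ`), `H ≤ 2 (y/p)` and `log T ≥ (1/2) log (y/x)`.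
-/

namespace YX49

open Finset

private lemma one_class {p l : ℕ} (hp : p.Prime) (hl : l.Prime) (hne : l ≠ p) (r : ℕ) (c : ℤ) :
    ((range l).filter fun n : ℕ => ((r : ℤ) + p * ((n : ℤ) - 1) ≡ c [ZMOD (l : ℤ)])).card = 1 := by
  have : Fact l.Prime := ⟨hl⟩
  have hp0 : (p : ZMod l) ≠ 0 := by
    intro h
    rw [ZMod.natCast_eq_zero_iff] at h
    exact hne ((Nat.prime_dvd_prime_iff_eq hl hp).1 h)
  rw [Finset.card_eq_one]
  refine ⟨(((c : ZMod l) - r) / p + 1).val, ?_⟩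
  ext n
  simp only [mem_filter, mem_range, mem_singleton]
  have hiff : ((r : ℤ) + p * ((n : ℤ) - 1) ≡ c [ZMOD (l : ℤ)]) ↔
      (n : ZMod l) = ((c : ZMod l) - r) / p + 1 := by
    rw [← ZMod.intCast_eq_intCast_iff]
    push_cast
    constructor
    · intro h
      field_simp
      linear_combination h
    · intro h
      rw [h]
      field_simp
      ring
  rw [hiff]
  constructor
  · rintro ⟨hn, h⟩
    rw [← h, ZMod.val_natCast, Nat.mod_eq_of_lt hn]
  · intro h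
    subst h
    exact ⟨ZMod.val_lt _, ZMod.natCast_zmod_val _⟩

open Classical in
private noncomputable def xp (Λ : Finset ℕ) (r p : ℕ) (b : ℕ → ℤ) (l n : ℕ) : ℝ :=
  if l ∈ Λ then 0 else if ((r : ℤ) + p * ((n : ℤ) - 1) ≡ b l [ZMOD (l : ℤ)]) then 1 else 0

private lemma om_xp_mem {Λ : Finset ℕ} {r p : ℕ} {b : ℕ → ℤ} {l : ℕ} (h : l ∈ Λ) :
    om (xp Λ r p b) l = 0 := by
  unfold om xp
  simp [h]

private lemma om_xp {Λ : Finset ℕ} {r p : ℕ} {b : ℕ → ℤ} (hp : p.Prime) (hpΛ : p ∈ Λ) {l : ℕ}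
    (hl : l.Prime) (h : l ∉ Λ) : om (xp Λ r p b) l = 1 := by
  classical
  have hne : l ≠ p := fun e => h (e ▸ hpΛ)
  have h1 := one_class hp hl hne r (b l)
  unfold om xp
  simp only [h, if_false]
  rw [Finset.sum_ite, Finset.sum_const_zero, add_zero, Finset.sum_const, nsmul_eq_mul, mul_one]
  have : (((range l).filter fun n : ℕ =>
      ((r : ℤ) + p * ((n : ℤ) - 1) ≡ b l [ZMOD (l : ℤ)])).card : ℝ) = 1 := by exact_mod_cast h1
  convert this

private lemma xp_loc {Λ : Finset ℕ} {r p : ℕ} {b : ℕ → ℤ} (hp : p.Prime) (hpΛ : p ∈ Λ) :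
    Loc (xp Λ r p b) := by
  classical
  refine ⟨?_, ?_, ?_, ?_⟩
  · intro l n
    unfold xp
    split_ifs <;> simp
  · intro l n
    unfold xp
    have : ((r : ℤ) + p * (((n + l : ℕ) : ℤ) - 1) ≡ b l [ZMOD (l : ℤ)]) ↔
        ((r : ℤ) + p * ((n : ℤ) - 1) ≡ b l [ZMOD (l : ℤ)]) := by
      have e : (r : ℤ) + p * (((n + l : ℕ) : ℤ) - 1) = ((r : ℤ) + p * ((n : ℤ) - 1)) + l * p := by
        push_cast; ring
      rw [e]
      unfold Int.ModEq
      rw [Int.add_mul_emod_self_left]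
    simp only [this]
  · intro l hl
    by_cases h : l ∈ Λ
    · rw [om_xp_mem h]; norm_num
    · rw [om_xp hp hpΛ hl h]; norm_num
  · intro l hl
    have h2 : (2 : ℝ) ≤ l := by exact_mod_cast hl.two_le
    by_cases h : l ∈ Λ
    · rw [om_xp_mem h]; positivity
    · rw [om_xp hp hpΛ hl h]; linarith

open Classical in
theorem upper_ap : ∃ C : ℝ, 0 < C ∧ ∀ (x y p : ℕ) (b : ℕ → ℤ) (Λ : Finset ℕ), 2 * x ≤ y →
    y ≤ x ^ 2 → (∀ l ∈ Λ, l.Prime) → ∑ l ∈ Λ, (1 : ℝ) / l ≤ 1 → p ∈ Λ → p ≤ x →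
    (((Ioc 0 y).filter fun m : ℕ => (m : ℤ) ≡ b p [ZMOD (p : ℤ)] ∧
      ∀ l : ℕ, l.Prime → l ≤ x → l ∉ Λ → ¬ (m : ℤ) ≡ b l [ZMOD (l : ℤ)]).card : ℝ) ≤
      C * ((y : ℝ) / p) / Real.log ((y : ℝ) / x) := by
  obtain ⟨C, hC, hsv⟩ := sieve_up
  refine ⟨4 * C, by positivity, ?_⟩
  intro x y p b Λ h1 h2 hΛ hsum hp hpx
  have hpp := hΛ p hp
  have hp0 : 0 < p := hpp.pos
  have hx0 : 0 < x := lt_of_lt_of_le hp0 hpx
  have hT2 : 2 ≤ y / x := (Nat.le_div_iff_mul_le hx0).2 h1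
  have hTx : y / x ≤ x := by
    have : y / x ≤ x ^ 2 / x := Nat.div_le_div_right h2
    rwa [pow_two, Nat.mul_div_cancel _ hx0] at this
  have hTp : y / x ≤ y / p := Nat.div_le_div_left hpx hp0
  -- representative of the class
  obtain ⟨r, hr1, hrp, hrb⟩ : ∃ r : ℕ, 1 ≤ r ∧ r ≤ p ∧ (p : ℤ) ∣ (r : ℤ) - b p := by
    have hpz : (0 : ℤ) < p := by exact_mod_cast hp0
    have h3 := Int.emod_nonneg (b p - 1) hpz.ne'
    have h4 := Int.emod_lt_of_pos (b p - 1) hpz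
    refine ⟨((b p - 1) % p).toNat + 1, by omega, by omega, ?_⟩
    have h5 : ((((b p - 1) % p).toNat + 1 : ℕ) : ℤ) = (b p - 1) % p + 1 := by
      push_cast
      rw [Int.toNat_of_nonneg h3]
    rw [h5]
    have h6 := Int.emod_add_mul_ediv (b p - 1) p
    refine ⟨-((b p - 1) / p), ?_⟩
    linarith
  have hH : y / x ≤ 2 * (y / p + 1) := by omega
  have hmain := hsv (xp Λ r p b) Λ (xp_loc hpp hp) hΛ hsum
    (fun l hl h => (om_xp hpp hp hl h).ge) (y / x) 0 (y / p + 1) hT2 hH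
  set S := ((Ioc 0 y).filter fun m : ℕ => (m : ℤ) ≡ b p [ZMOD (p : ℤ)] ∧
      ∀ l : ℕ, l.Prime → l ≤ x → l ∉ Λ → ¬ (m : ℤ) ≡ b l [ZMOD (l : ℤ)]) with hS
  have key : ∀ m ∈ S, ∃ k : ℕ, m = r + p * k := by
    intro m hm
    rw [hS, mem_filter, mem_Ioc] at hm
    obtain ⟨⟨hm0, _⟩, hmb, _⟩ := hm
    have hd : (p : ℤ) ∣ (m : ℤ) - r := by
      have h3 : (p : ℤ) ∣ b p - m := hmb.dvd
      have h4 : (m : ℤ) - r = -((r : ℤ) - b p) - (b p - m) := by ring
      rw [h4]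
      exact dvd_sub ((dvd_neg).2 hrb) h3
    obtain ⟨c, hc⟩ := hd
    have hc0 : 0 ≤ c := by
      by_contra hneg
      push Not at hneg
      have : (p : ℤ) * c ≤ -p := by
        have hpz : (0 : ℤ) < p := by exact_mod_cast hp0
        nlinarith
      have h5 : (1 : ℤ) ≤ m := by exact_mod_cast hm0
      have h6 : (r : ℤ) ≤ p := by exact_mod_cast hrp
      linarith
    refine ⟨c.toNat, ?_⟩
    zify
    rw [Int.toNat_of_nonneg hc0]
    linarith
  have hsf0 : ∀ n, 0 ≤ sf (y / x) (xp Λ r p b) n := by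
    intro n
    unfold sf
    apply Finset.prod_nonneg
    intro l _
    rcases (xp_loc (b := b) (r := r) hpp hp).val l n with h | h <;> rw [h] <;> norm_num
  have hf : ∀ m ∈ S, sf (y / x) (xp Λ r p b) ((m - r) / p + 1) = 1 := by
    intro m hm
    obtain ⟨k, hk⟩ := key m hm
    rw [hS, mem_filter] at hm
    have hk' : (m - r) / p = k := by
      rw [hk, Nat.add_sub_cancel_left, Nat.mul_div_cancel_left _ hp0]
    rw [hk']
    unfold sf
    apply Finset.prod_eq_one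
    intro l hl
    rw [mem_prs] at hl
    have : xp Λ r p b l (k + 1) = 0 := by
      unfold xp
      by_cases h : l ∈ Λ
      · simp [h]
      · have h7 := hm.2.2 l hl.1 (hl.2.trans hTx) h
        have e : (r : ℤ) + p * (((k + 1 : ℕ) : ℤ) - 1) = (m : ℤ) := by
          rw [hk]; push_cast; ring
        rw [e]
        simp [h, h7]
    rw [this, sub_zero]
  have hinj : Set.InjOn (fun m : ℕ => (m - r) / p + 1) (S : Set ℕ) := by
    intro m hm m' hm' h
    obtain ⟨k, hk⟩ := key m hm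
    obtain ⟨k', hk'⟩ := key m' hm'
    simp only at h
    rw [hk, hk', Nat.add_sub_cancel_left, Nat.add_sub_cancel_left, Nat.mul_div_cancel_left _ hp0,
      Nat.mul_div_cancel_left _ hp0] at h
    have : k = k' := by omega
    rw [hk, hk', this]
  have hsub : S.image (fun m : ℕ => (m - r) / p + 1) ⊆ Ioc 0 (0 + (y / p + 1)) := by
    intro n hn
    rw [mem_image] at hn
    obtain ⟨m, hm, rfl⟩ := hn
    rw [hS, mem_filter, mem_Ioc] at hm
    rw [mem_Ioc]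
    have h12 : (m - r) / p ≤ y / p := Nat.div_le_div_right (by omega)
    generalize (m - r) / p = q at h12 ⊢
    omega
  have hcard : (S.card : ℝ) ≤ ∑ n ∈ Ioc 0 (0 + (y / p + 1)), sf (y / x) (xp Λ r p b) n := by
    calc (S.card : ℝ) = ∑ m ∈ S, sf (y / x) (xp Λ r p b) ((m - r) / p + 1) := by
          rw [Finset.sum_congr rfl hf]; simp
      _ = ∑ n ∈ S.image (fun m : ℕ => (m - r) / p + 1), sf (y / x) (xp Λ r p b) n := by
          rw [Finset.sum_image hinj]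
      _ ≤ _ := Finset.sum_le_sum_of_subset_of_nonneg hsub fun n _ _ => hsf0 n
  refine hcard.trans (hmain.trans ?_)
  -- numerics
  have hxr : (0 : ℝ) < x := by exact_mod_cast hx0
  have hpr : (0 : ℝ) < p := by exact_mod_cast hp0
  have hq2 : (2 : ℝ) ≤ (y : ℝ) / x := by
    rw [le_div_iff₀ hxr]; exact_mod_cast h1
  have hqp : (y : ℝ) / x ≤ (y : ℝ) / p := by
    apply div_le_div_of_nonneg_left (by positivity) hpr
    exact_mod_cast hpx
  have hHle : (((y / p + 1 : ℕ) : ℕ) : ℝ) ≤ 2 * ((y : ℝ) / p) := by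
    push_cast
    have : ((y / p : ℕ) : ℝ) ≤ (y : ℝ) / p := Nat.cast_div_le
    linarith
  have hTr : (2 : ℝ) ≤ ((y / x : ℕ) : ℝ) := by exact_mod_cast hT2
  have hTq : (y : ℝ) / x ≤ ((y / x : ℕ) : ℝ) ^ 2 := by
    have h8 : (y : ℝ) / x < ((y / x : ℕ) : ℝ) + 1 := by
      rw [div_lt_iff₀ hxr]
      have h9 : y < (y / x + 1) * x := by
        have := Nat.div_add_mod y x
        have h10 := Nat.mod_lt y hx0
        nlinarith
      exact_mod_cast h9
    nlinarith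
  have hlogq : 0 < Real.log ((y : ℝ) / x) := Real.log_pos (by linarith)
  have hlog : Real.log ((y : ℝ) / x) ≤ 2 * Real.log ((y / x : ℕ) : ℝ) := by
    have := Real.log_le_log (by linarith : (0 : ℝ) < (y : ℝ) / x) hTq
    rwa [Real.log_pow] at this
  have hlogT : 0 < Real.log ((y / x : ℕ) : ℝ) := Real.log_pos (by linarith)
  rw [div_le_div_iff₀ hlogT hlogq]
  have h11 : C * (((y / p + 1 : ℕ) : ℕ) : ℝ) ≤ C * (2 * ((y : ℝ) / p)) :=
    mul_le_mul_of_nonneg_left hHle hC.le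
  calc C * (((y / p + 1 : ℕ) : ℕ) : ℝ) * Real.log ((y : ℝ) / x)
      ≤ (C * (2 * ((y : ℝ) / p))) * (2 * Real.log ((y / x : ℕ) : ℝ)) := by
        apply mul_le_mul h11 hlog hlogq.le
        positivity
    _ = 4 * C * ((y : ℝ) / p) * Real.log ((y / x : ℕ) : ℝ) := by ring

end YX49
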