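import Mathlib
import Pool.Agent.E456.Bonf
import Pool.Agent.E456.Sieve
import Pool.Agent.E456.Mertens

/-!
# Coverings of Erdos-Rankin type: definitions

Problem MP_d4a901_nt. Everything elementary: a two-sided Brun-Hooley sieve (fundamental lemma), and a
second moment over integers without small prime factors.
-/

namespace YX49

open Finset

/-- the primes up to `z` -/
def prs (z : ℕ) : Finset ℕ := (Ioc 0 z).filter Nat.Prime

theorem mem_prs {z l : ℕ} : l ∈ prs z ↔ l.Prime ∧ l ≤ z := by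
  unfold prs
  rw [mem_filter, mem_Ioc]
  exact ⟨fun h => ⟨h.2, h.1.2⟩, fun h => ⟨⟨h.1.pos, h.2⟩, h.1⟩⟩

/-- sifted indicator: `n` avoids, for all primes `l ≤ z`, the classes with `x l n = 1` -/
noncomputable def sf (z : ℕ) (x : ℕ → ℕ → ℝ) (n : ℕ) : ℝ := ∏ l ∈ prs z, (1 - x l n)

/-- the number of classes modulo `l` -/
noncomputable def om (x : ℕ → ℕ → ℝ) (l : ℕ) : ℝ := ∑ n ∈ range l, x l n

/-- the expected density -/
noncomputable def WW (z : ℕ) (x : ℕ → ℕ → ℝ) : ℝ := ∏ l ∈ prs z, (1 - om x l / l)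

/-- at most three classes and at most half of the classes, for every prime -/
structure Loc (x : ℕ → ℕ → ℝ) : Prop where
  val : ∀ l n, x l n = 0 ∨ x l n = 1
  per : ∀ l n, x l (n + l) = x l n
  three : ∀ l, l.Prime → om x l ≤ 3
  half : ∀ l, l.Prime → om x l ≤ l / 2

/-- block boundaries 1, 2, 4, 16, 256, ... -/
def uu : ℕ → ℕ
  | 0 => 1
  | j + 1 => 2 ^ (2 ^ j)

/-- blocks of primes -/
def bk (j : ℕ) : Finset ℕ := (Ioc (uu j) (uu (j + 1))).filter Nat.Prime

/-- product of the truncated sums over the blocks -/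
noncomputable def nub (J : ℕ) (b : ℕ → ℕ) (x : ℕ → ℝ) : ℝ :=
  ∏ j ∈ range J, Pool.Agent.E456.TT (bk j) x (b j)

/-- raise the truncation level of the block `j` by one -/
def up1 (b : ℕ → ℕ) (j : ℕ) : ℕ → ℕ := Function.update b j (b j + 1)

/-- truncation levels -/
def lev (B J j : ℕ) : ℕ := 2 * B + 2 * (J - 1 - j)

/-! ### the local conditions -/

/-- multiples of `l` -/
noncomputable def x0 (l n : ℕ) : ℝ := if l ∣ n then 1 else 0

open Classical in
/-- multiples of `l`, and `n` with `u n` in the class `α l`, for `l ∈ Q` -/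
noncomputable def x1 (Q : Finset ℕ) (α : ℕ → ℕ) (u l n : ℕ) : ℝ :=
  if l ∣ n ∨ (l ∈ Q ∧ u * n ≡ α l [MOD l]) then 1 else 0

open Classical in
/-- the same for two factors `u`, `v` -/
noncomputable def x2 (Q : Finset ℕ) (α : ℕ → ℕ) (u v l n : ℕ) : ℝ :=
  if l ∣ n ∨ (l ∈ Q ∧ (u * n ≡ α l [MOD l] ∨ v * n ≡ α l [MOD l])) then 1 else 0

/-- conditions on the set `Q` of primes and the classes `α` -/
structure Good (z : ℕ) (Q : Finset ℕ) (α : ℕ → ℕ) : Prop where
  sub : Q ⊆ prs z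
  seven : ∀ l ∈ Q, 7 ≤ l
  nz : ∀ l ∈ Q, ¬ l ∣ α l

/-- relative density for the factor `u` -/
noncomputable def MU (Q : Finset ℕ) (u : ℕ) : ℝ := ∏ l ∈ Q.filter (fun l => ¬ l ∣ u), (1 - 1 / ((l : ℝ) - 1))

/-- singular series -/
noncomputable def HH (Q : Finset ℕ) (k : ℕ) : ℝ :=
  ∏ l ∈ Q.filter (fun l => l ∣ k), (1 + 1 / ((l : ℝ) - 2))

open Classical in
/-- the number of `u ∈ U` such that `u n` avoids all classes `α l`, `l ∈ Q` -/
noncomputable def NN (Q : Finset ℕ) (α : ℕ → ℕ) (U : Finset ℕ) (n : ℕ) : ℝ :=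
  ((U.filter fun u => ∀ l ∈ Q, ¬ u * n ≡ α l [MOD l]).card : ℝ)

/-- the integers `g + 1, ..., y` are covered by the classes `a p` modulo `p`, `p ≤ x` prime -/
def Covers (x g y : ℕ) (a : ℕ → ℤ) : Prop :=
  ∀ m : ℕ, g < m → m ≤ y → ∃ p : ℕ, p.Prime ∧ p ≤ x ∧ (m : ℤ) ≡ a p [ZMOD (p : ℤ)]

open Classical in
/-- the integers in `(y/16, y]` not covered by the classes of the primes up to `z` and of the primes
`l ≤ x` whose class is the class of `0` -/
noncomputable def Sv (z x y : ℕ) (a : ℕ → ℤ) : Finset ℕ :=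
  (Ioc (y / 16) y).filter fun m => ∀ l : ℕ, l.Prime → l ≤ x → (l ≤ z ∨ (l : ℤ) ∣ a l) →
    ¬ (m : ℤ) ≡ a l [ZMOD (l : ℤ)]

open Classical in
/-- the primes between `z` and `x` whose class is not the class of `0` -/
noncomputable def La (z x : ℕ) (a : ℕ → ℤ) : Finset ℕ :=
  (Ioc z x).filter fun p => p.Prime ∧ ¬ (p : ℤ) ∣ a p

open Classical in
/-- the primes between `T` and `z` whose class is the class of `0` -/
noncomputable def Ze (T z : ℕ) (a : ℕ → ℤ) : Finset ℕ :=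
  (Ioc T z).filter fun p => p.Prime ∧ (p : ℤ) ∣ a p

end YX49
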