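import Pool.Agent.YX49.FLB

/-!
# [YX49-FLB2] Counting with the truncated sums

`prod_lev`: `prod_DD_le` (and `mem_DD_blk`) of E456/Bonf.lean: `∏ S ≤ ∏_{j<J} uu (j+1)^(b j)`, `uu (j+1) = 2^(2^j)`, `b j ≤ lev B J j + 1`, and
`∑_{j<J} 2^j (2B + 1 + 2 (J-1-j)) ≤ (2B + 3) 2^J` (see `sum_exp_bb` in E456/Sieve.lean).
`count_nub`: `nub_eq`, `count_set` for every `S`; the number of `S` is at most `2^((2B+3) 2^J)`, because `S ↦ ∏ S` is injective on sets of primes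
(`card_SS_le` in E456/Sieve.lean), and every error is at most `(2^((2B+3) 2^J))^2`.
-/

namespace YX49

open Finset Pool.Agent.E456

private lemma uu_one (j : ℕ) : 1 ≤ uu j := by
  cases j with
  | zero => exact le_rfl
  | succ j => exact Nat.one_le_two_pow

private lemma bk_bounds (j i : ℕ) (hi : i ∈ bk j) : uu j < i ∧ i ≤ uu (j + 1) := by
  rw [bk, mem_filter, mem_Ioc] at hi
  exact hi.1

private lemma sum_two (B K : ℕ) : ∑ j ∈ range K, 2 ^ j * (2 * B + 1) + (2 * B + 1) =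
    (2 * B + 1) * 2 ^ K := by
  induction K with
  | zero => simp
  | succ K ih =>
    rw [sum_range_succ, pow_succ]
    linarith

private lemma sum_lev (B J : ℕ) :
    ∑ j ∈ range J, 2 ^ j * (lev B J j + 1) ≤ (2 * B + 3) * 2 ^ J := by
  have h1 := sum_exp_bb J
  have h2 : ∑ j ∈ range J, 2 ^ (j + 1) * bb J j = 2 * ∑ j ∈ range J, 2 ^ j * bb J j := by
    rw [mul_sum]
    refine sum_congr rfl fun j _ => ?_
    rw [pow_succ]
    ring
  have h3 : ∑ j ∈ range J, 2 ^ j * (lev B J j + 1) =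
      ∑ j ∈ range J, 2 ^ j * (2 * B + 1) + ∑ j ∈ range J, 2 ^ j * bb J j := by
    rw [← sum_add_distrib]
    refine sum_congr rfl fun j _ => ?_
    rw [lev, bb]
    ring
  have h4 := sum_two B J
  have h5 : (2 * B + 3) * 2 ^ J = (2 * B + 1) * 2 ^ J + 2 * 2 ^ J := by ring
  rw [h3, h5]
  omega

theorem prod_lev (B J : ℕ) (b : ℕ → ℕ) (hb : ∀ j < J, b j ≤ lev B J j + 1) :
    ∀ S ∈ DD bk b J, (∀ i ∈ S, i.Prime) ∧ ∏ i ∈ S, i ≤ 2 ^ ((2 * B + 3) * 2 ^ J) := by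
  intro S hS
  refine ⟨fun i hi => ?_, ?_⟩
  · obtain ⟨j, _, hij⟩ := mem_DD_blk J S hS i hi
    rw [bk, mem_filter] at hij
    exact hij.2
  · refine (prod_DD_le uu_one bk_bounds J S hS).trans ?_
    calc ∏ j ∈ range J, uu (j + 1) ^ b j
        ≤ ∏ j ∈ range J, 2 ^ (2 ^ j * (lev B J j + 1)) := by
          refine prod_le_prod' fun j hj => ?_
          rw [pow_mul]
          exact Nat.pow_le_pow_right (Nat.one_le_two_pow) (hb j (mem_range.1 hj))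
      _ = 2 ^ ∑ j ∈ range J, 2 ^ j * (lev B J j + 1) := prod_pow_eq_pow_sum _ _ _
      _ ≤ _ := Nat.pow_le_pow_right two_pos (sum_lev B J)

private lemma card_DD (B J : ℕ) (b : ℕ → ℕ) (hb : ∀ j < J, b j ≤ lev B J j + 1) :
    (DD bk b J).card ≤ 2 ^ ((2 * B + 3) * 2 ^ J) := by
  have hp := prod_lev B J b hb
  have h1 : ((DD bk b J).image (fun S => ∏ i ∈ S, i)).card = (DD bk b J).card := by
    apply card_image_of_injOn
    intro S hS S' hS' h
    have h2 := Nat.primeFactors_prod (hp S hS).1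
    have h3 := Nat.primeFactors_prod (hp S' hS').1
    rw [← h2, ← h3]
    exact congrArg Nat.primeFactors h
  rw [← h1]
  calc _ ≤ (Ioc 0 (2 ^ ((2 * B + 3) * 2 ^ J))).card := by
        apply card_le_card
        intro d hd
        rw [mem_image] at hd
        obtain ⟨S, hS, rfl⟩ := hd
        rw [mem_Ioc]
        exact ⟨prod_pos fun i hi => ((hp S hS).1 i hi).pos, (hp S hS).2⟩
    _ = _ := by simp

theorem count_nub {x : ℕ → ℕ → ℝ} (hx : Loc x) (B J : ℕ) (b : ℕ → ℕ)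
    (hb : ∀ j < J, b j ≤ lev B J j + 1) (N H : ℕ) :
    |∑ n ∈ Ioc N (N + H), nub J b (fun l => x l n) - H * nub J b (fun l => om x l / l)| ≤
      (2 : ℝ) ^ (3 * (2 * B + 3) * 2 ^ J) := by
  obtain ⟨E, hE⟩ : ∃ E, E = (2 * B + 3) * 2 ^ J := ⟨_, rfl⟩
  have hp := prod_lev B J b hb
  have hcard := card_DD B J b hb
  rw [← hE] at hp hcard
  have h0 : ∑ n ∈ Ioc N (N + H), nub J b (fun l => x l n) =
      ∑ S ∈ DD bk b J, (-1 : ℝ) ^ S.card * ∑ n ∈ Ioc N (N + H), ∏ i ∈ S, x i n := by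
    rw [sum_congr rfl fun n _ => nub_eq J b fun l => x l n, sum_comm]
    refine sum_congr rfl fun S _ => ?_
    rw [mul_sum]
    refine sum_congr rfl fun n _ => ?_
    rw [prod_neg]
  have h0' : nub J b (fun l => om x l / l) =
      ∑ S ∈ DD bk b J, (-1 : ℝ) ^ S.card * ∏ i ∈ S, (om x i / i) := by
    rw [nub_eq]
    refine sum_congr rfl fun S _ => ?_
    rw [prod_neg]
  rw [h0, h0', mul_sum, ← sum_sub_distrib]
  have key : ∀ S ∈ DD bk b J, |(-1 : ℝ) ^ S.card * ∑ n ∈ Ioc N (N + H), ∏ i ∈ S, x i n -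
      H * ((-1 : ℝ) ^ S.card * ∏ i ∈ S, (om x i / i))| ≤ ((2 : ℝ) ^ E) ^ 2 := by
    intro S hS
    have e : (-1 : ℝ) ^ S.card * ∑ n ∈ Ioc N (N + H), ∏ i ∈ S, x i n -
        H * ((-1 : ℝ) ^ S.card * ∏ i ∈ S, (om x i / i)) =
        (-1 : ℝ) ^ S.card * (∑ n ∈ Ioc N (N + H), ∏ i ∈ S, x i n -
          H * ∏ i ∈ S, (om x i / i)) := by ring
    rw [e, abs_mul, abs_pow, abs_neg, abs_one, one_pow, one_mul]
    refine (count_set hx S (hp S hS).1 N H).trans ?_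
    have h1 : ((∏ i ∈ S, i : ℕ) : ℝ) ≤ (2 : ℝ) ^ E := by exact_mod_cast (hp S hS).2
    exact pow_le_pow_left₀ (Nat.cast_nonneg _) h1 2
  have hcard' : ((DD bk b J).card : ℝ) ≤ (2 : ℝ) ^ E := by exact_mod_cast hcard
  calc _ ≤ ∑ S ∈ DD bk b J, |(-1 : ℝ) ^ S.card * ∑ n ∈ Ioc N (N + H), ∏ i ∈ S, x i n -
        H * ((-1 : ℝ) ^ S.card * ∏ i ∈ S, (om x i / i))| := abs_sum_le_sum_abs _ _
    _ ≤ ∑ _S ∈ DD bk b J, ((2 : ℝ) ^ E) ^ 2 := sum_le_sum key
    _ = (DD bk b J).card * ((2 : ℝ) ^ E) ^ 2 := by rw [sum_const, nsmul_eq_mul]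
    _ ≤ (2 : ℝ) ^ E * ((2 : ℝ) ^ E) ^ 2 :=
        mul_le_mul_of_nonneg_right hcard' (by positivity)
    _ = (2 : ℝ) ^ (3 * (2 * B + 3) * 2 ^ J) := by
        rw [← pow_mul, ← pow_add, hE]
        congr 1
        ring

end YX49
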