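import Pool.Agent.YX49.Defs

/-!
# [YX49-FLC] The truncation levels; a crude lower bound

`level`: real analysis. For `b j = lev B J j`: the exponents `b j + 1 = 2 B + 1 + 2 k`, `k = J - 1 - j`, and
`(2B+1+2k)! ≥ (2B+1)! (2k)!` (`Nat.factorial_mul_factorial_dvd_factorial_add`), so the sum is at most
`exp(2τ) exp(τ) τ^(2B+1)/(2B+1)!`, and this tends to `0` faster than `1/B`
(`FloorSemiring.tendsto_pow_div_factorial_atTop` for `2 τ` and `2^B ≥ B`).
`WW_lower`: `1 - om x l / l ≥ 1/2` for `l = 2, 3, 5`, and `≥ (l-3)/l` for `l ≥ 5`; the product over ALL integers `7 ≤ n ≤ z` of `(n-3)/n` is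
`120 / (z (z-1) (z-2))` for `z ≥ 7`; so `WW z x ≥ z^(-5)` (anything with exponent at most 5 is fine).
-/

namespace YX49

open Finset

theorem FLC_even (τ : ℝ) (hτ : 0 < τ) (J : ℕ) :
    ∑ k ∈ range J, τ ^ (2 * k) / (2 * k).factorial ≤ Real.exp τ := by
  have h1 : ∀ J : ℕ, ∑ k ∈ range J, τ ^ (2 * k) / (2 * k).factorial ≤
      ∑ i ∈ range (2 * J), τ ^ i / i.factorial := by
    intro J
    induction J with
    | zero => simp
    | succ J ih =>
      rw [Finset.sum_range_succ, show 2 * (J + 1) = 2 * J + 1 + 1 by ring,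
        Finset.sum_range_succ, Finset.sum_range_succ]
      have h2 : 0 ≤ τ ^ (2 * J + 1) / ((2 * J + 1).factorial : ℝ) := by positivity
      linarith
  exact (h1 J).trans (Real.sum_le_exp_of_nonneg hτ.le _)

theorem FLC_sum (τ : ℝ) (hτ : 0 < τ) (B J : ℕ) :
    ∑ j ∈ range J, Real.exp (2 * τ) * (τ ^ (lev B J j + 1) / (lev B J j + 1).factorial) ≤
      Real.exp (2 * τ) * Real.exp τ * (τ ^ (2 * B + 1) / (2 * B + 1).factorial) := by
  have h1 : ∑ j ∈ range J, Real.exp (2 * τ) *
      (τ ^ (lev B J j + 1) / (lev B J j + 1).factorial) =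
      ∑ k ∈ range J, Real.exp (2 * τ) *
        (τ ^ (2 * B + 2 * k + 1) / (2 * B + 2 * k + 1).factorial) := by
    rw [← Finset.sum_range_reflect]
    refine Finset.sum_congr rfl fun k hk => ?_
    have h2 : lev B J (J - 1 - k) = 2 * B + 2 * k := by
      rw [Finset.mem_range] at hk
      unfold lev
      omega
    rw [h2]
  rw [h1]
  have h3 : ∀ k ∈ range J, Real.exp (2 * τ) *
      (τ ^ (2 * B + 2 * k + 1) / (2 * B + 2 * k + 1).factorial) ≤
      Real.exp (2 * τ) * ((τ ^ (2 * B + 1) / (2 * B + 1).factorial) *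
        (τ ^ (2 * k) / (2 * k).factorial)) := by
    intro k _
    refine mul_le_mul_of_nonneg_left ?_ (Real.exp_pos _).le
    have h4 : (2 * B + 1).factorial * (2 * k).factorial ≤ (2 * B + 2 * k + 1).factorial := by
      have h5 := Nat.factorial_mul_factorial_dvd_factorial_add (2 * B + 1) (2 * k)
      have h6 : 2 * B + 1 + 2 * k = 2 * B + 2 * k + 1 := by ring
      rw [h6] at h5
      exact Nat.le_of_dvd (Nat.factorial_pos _) h5
    have h7 : ((2 * B + 1).factorial : ℝ) * ((2 * k).factorial : ℝ) ≤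
        ((2 * B + 2 * k + 1).factorial : ℝ) := by exact_mod_cast h4
    rw [div_mul_div_comm, ← pow_add, show 2 * B + 1 + 2 * k = 2 * B + 2 * k + 1 by ring]
    exact div_le_div_of_nonneg_left (by positivity) (by positivity) h7
  refine (Finset.sum_le_sum h3).trans ?_
  rw [← Finset.mul_sum, ← Finset.mul_sum]
  have h8 := FLC_even τ hτ J
  have h9 : 0 ≤ τ ^ (2 * B + 1) / ((2 * B + 1).factorial : ℝ) := by positivity
  have h10 := mul_le_mul_of_nonneg_left h8 h9
  have h11 := mul_le_mul_of_nonneg_left h10 (Real.exp_pos (2 * τ)).le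
  linarith

theorem level (τ : ℝ) (hτ : 0 < τ) (δ : ℝ) (hδ : 0 < δ) : ∃ B : ℕ,
    (∀ J : ℕ, ∑ j ∈ range J, Real.exp (2 * τ) * (τ ^ (lev B J j + 1) / (lev B J j + 1).factorial) ≤
      δ / (100 * (B + 1))) ∧ (100 * (B + 1) : ℝ) / 2 ^ B ≤ δ := by
  have t1 : Filter.Tendsto (fun n : ℕ => (2 * τ) ^ n / (n.factorial : ℝ)) Filter.atTop
      (nhds 0) := FloorSemiring.tendsto_pow_div_factorial_atTop (2 * τ)
  have t2 : Filter.Tendsto (fun B : ℕ => 2 * B + 1) Filter.atTop Filter.atTop := by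
    apply Filter.tendsto_atTop_mono (f := fun B : ℕ => B)
    · intro B
      omega
    · exact Filter.tendsto_id
  have t3 := t1.comp t2
  have hK : 0 < 100 * (Real.exp (2 * τ) * Real.exp τ) := by positivity
  have e1 : ∀ᶠ B : ℕ in Filter.atTop,
      (2 * τ) ^ (2 * B + 1) / ((2 * B + 1).factorial : ℝ) <
        δ / (100 * (Real.exp (2 * τ) * Real.exp τ)) :=
    t3.eventually_lt_const (div_pos hδ hK)
  have t4 : Filter.Tendsto (fun n : ℕ => (n : ℝ) ^ 1 / (2 : ℝ) ^ n) Filter.atTop (nhds 0) :=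
    tendsto_pow_const_div_const_pow_of_one_lt 1 (by norm_num)
  have t5 : Filter.Tendsto (fun n : ℕ => (n : ℝ) ^ 0 / (2 : ℝ) ^ n) Filter.atTop (nhds 0) :=
    tendsto_pow_const_div_const_pow_of_one_lt 0 (by norm_num)
  have t6 := (t4.add t5).const_mul 100
  rw [add_zero, mul_zero] at t6
  have e2 : ∀ᶠ B : ℕ in Filter.atTop,
      100 * ((B : ℝ) ^ 1 / (2 : ℝ) ^ B + (B : ℝ) ^ 0 / (2 : ℝ) ^ B) < δ :=
    t6.eventually_lt_const hδ
  obtain ⟨B, h1, h2⟩ := (e1.and e2).exists
  refine ⟨B, fun J => (FLC_sum τ hτ B J).trans ?_, ?_⟩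
  · have hB : (0 : ℝ) < B + 1 := by positivity
    have h3 : ((B : ℝ) + 1) ≤ 2 ^ (2 * B + 1) := by
      have h4 : B + 1 ≤ 2 ^ (2 * B + 1) := by
        have h5 : 2 * B + 1 < 2 ^ (2 * B + 1) := Nat.lt_two_pow_self
        omega
      exact_mod_cast h4
    rw [le_div_iff₀ (by positivity)]
    have h6 : ((B : ℝ) + 1) * (τ ^ (2 * B + 1) / ((2 * B + 1).factorial : ℝ)) ≤
        (2 * τ) ^ (2 * B + 1) / ((2 * B + 1).factorial : ℝ) := by
      rw [mul_pow, mul_div_assoc]
      exact mul_le_mul_of_nonneg_right h3 (by positivity)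
    have h7 := h6.trans h1.le
    rw [le_div_iff₀ hK] at h7
    calc Real.exp (2 * τ) * Real.exp τ * (τ ^ (2 * B + 1) / ((2 * B + 1).factorial : ℝ)) *
          (100 * ((B : ℝ) + 1))
        = ((B : ℝ) + 1) * (τ ^ (2 * B + 1) / ((2 * B + 1).factorial : ℝ)) *
            (100 * (Real.exp (2 * τ) * Real.exp τ)) := by ring
      _ ≤ δ := h7
  · have h3 : (100 * ((B : ℝ) + 1)) / 2 ^ B =
        100 * ((B : ℝ) ^ 1 / (2 : ℝ) ^ B + (B : ℝ) ^ 0 / (2 : ℝ) ^ B) := by
      rw [pow_one, pow_zero, ← add_div, mul_div_assoc]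
    rw [h3]
    exact h2.le

theorem FLC_factor {x : ℕ → ℕ → ℝ} (hx : Loc x) {m : ℕ} (hm : m.Prime) :
    ((m : ℝ) - 1) ^ 5 / (m : ℝ) ^ 5 ≤ 1 - om x m / m := by
  have h2 : (2 : ℝ) ≤ m := by exact_mod_cast hm.two_le
  have h0 : (0 : ℝ) < m := by linarith
  obtain ⟨t, ht⟩ : ∃ t : ℝ, t = 1 / (m : ℝ) := ⟨_, rfl⟩
  have ht0 : 0 < t := by
    rw [ht]
    positivity
  have hl : ((m : ℝ) - 1) ^ 5 / (m : ℝ) ^ 5 = (1 - t) ^ 5 := by
    rw [← div_pow, sub_div, div_self h0.ne', ht]
  have hr : om x m / m = om x m * t := by rw [ht, mul_one_div]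
  rw [hl, hr]
  rcases le_or_gt 5 m with h5 | h5
  · have h5' : (5 : ℝ) ≤ m := by exact_mod_cast h5
    have ht5 : t ≤ 1 / 5 := by
      rw [ht]
      exact one_div_le_one_div_of_le (by norm_num) h5'
    have h3 := mul_le_mul_of_nonneg_right (hx.three m hm) ht0.le
    have h4 : (1 - t) ^ 5 ≤ 1 - 3 * t := by
      have e1 : 1 - 3 * t - (1 - t) ^ 5 =
          t * ((2 - 10 * t) + 5 * t ^ 2 * (2 - t) + t ^ 4) := by ring
      have e2 : 0 ≤ t * ((2 - 10 * t) + 5 * t ^ 2 * (2 - t) + t ^ 4) := by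
        have e3 : 0 ≤ 2 - 10 * t := by linarith
        have e4 : 0 ≤ 2 - t := by linarith
        positivity
      linarith
    linarith
  · have ht2 : t ≤ 1 / 2 := by
      rw [ht]
      exact one_div_le_one_div_of_le (by norm_num) h2
    have h4' : (m : ℝ) ≤ 4 := by exact_mod_cast (by omega : m ≤ 4)
    have ht4 : 1 / 4 ≤ t := by
      rw [ht]
      exact one_div_le_one_div_of_le h0 h4'
    have h3 := mul_le_mul_of_nonneg_right (hx.half m hm) ht0.le
    have h6 : (m : ℝ) / 2 * t = 1 / 2 := by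
      rw [ht]
      field_simp
    have h7 : (1 - t) ^ 5 ≤ (3 / 4) ^ 5 :=
      pow_le_pow_left₀ (by linarith) (by linarith) 5
    norm_num at h7
    linarith

theorem WW_lower {x : ℕ → ℕ → ℝ} (hx : Loc x) {z : ℕ} (hz : 2 ≤ z) :
    1 / (z : ℝ) ^ 5 ≤ WW z x := by
  have key : ∀ z : ℕ, 1 ≤ z → 1 / (z : ℝ) ^ 5 ≤ WW z x := by
    intro z hz
    induction z, hz using Nat.le_induction with
    | base =>
      have h1 : prs 1 = ∅ := by
        ext l
        rw [mem_prs]
        constructor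
        · intro h
          have := h.1.two_le
          omega
        · intro h
          exact absurd h (Finset.notMem_empty l)
      rw [WW, h1, Finset.prod_empty]
      simp
    | succ z hz ih =>
      have hz0 : (0 : ℝ) < z := by exact_mod_cast hz
      by_cases hp : (z + 1).Prime
      · have h1 : prs (z + 1) = insert (z + 1) (prs z) := by
          ext l
          rw [Finset.mem_insert, mem_prs, mem_prs]
          constructor
          · intro h
            by_cases h2 : l = z + 1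
            · exact Or.inl h2
            · exact Or.inr ⟨h.1, by omega⟩
          · rintro (rfl | h)
            · exact ⟨hp, le_rfl⟩
            · exact ⟨h.1, by omega⟩
        have h2 : z + 1 ∉ prs z := by
          rw [mem_prs]
          omega
        have h3 := FLC_factor hx hp
        rw [WW, h1, Finset.prod_insert h2]
        have h4 : ((z + 1 : ℕ) : ℝ) = (z : ℝ) + 1 := by push_cast; ring
        rw [h4] at h3 ⊢
        have h5 : (z : ℝ) + 1 - 1 = z := by ring
        rw [h5] at h3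
        calc 1 / ((z : ℝ) + 1) ^ 5 = (z : ℝ) ^ 5 / ((z : ℝ) + 1) ^ 5 * (1 / (z : ℝ) ^ 5) := by
              field_simp
          _ ≤ (1 - om x (z + 1) / ((z : ℝ) + 1)) * WW z x := by
              refine mul_le_mul h3 ih (by positivity) ?_
              exact le_trans (by positivity) h3
          _ = _ := rfl
      · have h1 : prs (z + 1) = prs z := by
          ext l
          rw [mem_prs, mem_prs]
          constructor
          · intro h
            have h2 : l ≠ z + 1 := fun h3 => hp (h3 ▸ h.1)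
            exact ⟨h.1, by omega⟩
          · intro h
            exact ⟨h.1, by omega⟩
        rw [WW, h1]
        refine le_trans ?_ ih
        push_cast
        exact one_div_le_one_div_of_le (by positivity)
          (pow_le_pow_left₀ hz0.le (by linarith) 5)
  exact key z (by omega)

end YX49
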