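import Pool.Agent.YX49.Defs

/-!
# [YX49-NUM1] Mertens type bounds

`S1`, `mertens2 : |S1 N - log log N| ≤ C` and `S1_sub` are in E456/Mertens.lean (`prs z` unfolds to the index set of `S1 z`).
`block_sum`: for `j ≥ 1`, `S1 (uu (j+1)) - S1 (uu j) ≤ log log uu (j+1) - log log uu j + 2 C = log 2 + 2 C`, as `uu (j+1) = (uu j)^2` for
`j ≥ 1` and `uu 1 = 2`; `bk 0` contains only the prime `2`.
`mert_lower`, `mu_lower`: `1 - t ≥ exp (-t - t^2)` for `0 ≤ t ≤ 1/2` (for example `exp (-t-t^2) ≤ 1/(1+t+t^2) ≤ 1-t` iff `t^3 ≤ 0`... use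
`Real.add_one_le_exp` or `Real.one_sub_inv_le_log_of_pos`; any constant instead of `1` in front of `t^2` is fine), `∑ 1/l^2 ≤ 2`,
and `t = 1/(l-1) ≤ 1/l + 3/l^2` for `l ≥ 3`.
`mert_upper`: `1 - t ≤ exp (-t)`. `mu_lower`: the primes in `(T, z]` (interval form of Mertens, `S1 z - S1 T`; note `l ≥ 3` for `l ∈ Q`).
-/

namespace YX49

open Finset Pool.Agent.E456

private lemma helper23_one_sub (t : ℝ) (_h0 : 0 ≤ t) (h1 : t ≤ 1 / 2) : Real.exp (-t - 2 * t ^ 2) ≤ 1 - t := by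
  have hp : (0 : ℝ) < 1 - t := by linarith
  have h2 := Real.one_sub_inv_le_log_of_pos hp
  have h3 : -t - 2 * t ^ 2 ≤ 1 - (1 - t)⁻¹ := by
    have h4 : 1 - (1 - t)⁻¹ - (-t - 2 * t ^ 2) = t ^ 2 * (1 - 2 * t) / (1 - t) := by
      field_simp
      ring
    have h5 : 0 ≤ t ^ 2 * (1 - 2 * t) / (1 - t) := by
      apply div_nonneg _ hp.le
      apply mul_nonneg (sq_nonneg t)
      linarith
    linarith
  calc Real.exp (-t - 2 * t ^ 2) ≤ Real.exp (Real.log (1 - t)) := Real.exp_le_exp.mpr (h3.trans h2)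
    _ = 1 - t := Real.exp_log hp

private lemma helper23_sq (z : ℕ) (hz : 2 ≤ z) (Q : Finset ℕ) (hQ : Q ⊆ prs z) :
    ∑ l ∈ Q, 1 / (l : ℝ) ^ 2 ≤ 1 := by
  have h1 : Q ⊆ Ioc 1 z := by
    intro l hl
    have := mem_prs.mp (hQ hl)
    rw [mem_Ioc]
    exact ⟨this.1.one_lt, this.2⟩
  have h2 : ∑ l ∈ Q, 1 / (l : ℝ) ^ 2 ≤ ∑ l ∈ Ioc 1 z, ((l : ℝ) ^ 2)⁻¹ := by
    have h3 : ∑ l ∈ Q, 1 / (l : ℝ) ^ 2 = ∑ l ∈ Q, ((l : ℝ) ^ 2)⁻¹ := by
      apply sum_congr rfl
      intro l _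
      rw [one_div]
    rw [h3]
    apply sum_le_sum_of_subset_of_nonneg h1
    intro i _ _
    positivity
  have h3 := sum_Ioc_inv_sq_le_sub (α := ℝ) (k := 1) (n := z) one_ne_zero (by omega)
  have h4 : (0 : ℝ) ≤ (z : ℝ)⁻¹ := by positivity
  push_cast at h3
  linarith

private lemma helper23_S1 (z : ℕ) : S1 z = ∑ l ∈ prs z, 1 / (l : ℝ) := rfl

private lemma helper23_logpos (z : ℕ) (hz : 2 ≤ z) : 0 < Real.log z := by
  apply Real.log_pos
  exact_mod_cast (by omega : 1 < z)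

theorem block_sum : ∃ σ : ℝ, 0 < σ ∧ ∀ j : ℕ, ∑ l ∈ bk j, (1 : ℝ) / l ≤ σ := by
  obtain ⟨C, hC, hM⟩ := mertens2
  refine ⟨1 + 2 * C, by positivity, fun j => ?_⟩
  rcases Nat.eq_zero_or_pos j with hj | hj
  · subst hj
    have h1 : bk 0 ⊆ {2} := by
      intro l hl
      unfold bk at hl
      rw [mem_filter, mem_Ioc] at hl
      have h2 : uu 0 = 1 := rfl
      have h3 : uu (0 + 1) = 2 := rfl
      rw [h2, h3] at hl
      rw [mem_singleton]
      omega
    calc ∑ l ∈ bk 0, (1 : ℝ) / l ≤ ∑ l ∈ ({2} : Finset ℕ), (1 : ℝ) / l := by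
          apply sum_le_sum_of_subset_of_nonneg h1
          intro i _ _
          positivity
      _ = 1 / 2 := by simp
      _ ≤ 1 + 2 * C := by linarith
  · obtain ⟨i, rfl⟩ : ∃ i, j = i + 1 := ⟨j - 1, by omega⟩
    have hu1 : uu (i + 1) = 2 ^ (2 ^ i) := rfl
    have hu2 : uu (i + 1 + 1) = 2 ^ (2 ^ (i + 1)) := rfl
    have ha : 2 ≤ uu (i + 1) := by
      rw [hu1]
      calc 2 = 2 ^ 1 := by norm_num
        _ ≤ 2 ^ (2 ^ i) := Nat.pow_le_pow_right (by norm_num) Nat.one_le_two_pow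
    have hab : uu (i + 1) ≤ uu (i + 1 + 1) := by
      rw [hu1, hu2]
      exact Nat.pow_le_pow_right (by norm_num) (Nat.pow_le_pow_right (by norm_num) (by omega))
    have h1 := hM _ ha
    have h2 := hM _ (ha.trans hab)
    have h3 := S1_sub _ _ hab
    have hl2 : 0 < Real.log 2 := Real.log_pos (by norm_num)
    have e1 : Real.log (uu (i + 1) : ℝ) = 2 ^ i * Real.log 2 := by
      rw [hu1]
      push_cast
      rw [Real.log_pow]
      push_cast
      ring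
    have e2 : Real.log (uu (i + 1 + 1) : ℝ) = 2 ^ (i + 1) * Real.log 2 := by
      rw [hu2]
      push_cast
      rw [Real.log_pow]
      push_cast
      ring
    have e3 : Real.log (Real.log (uu (i + 1 + 1) : ℝ)) = Real.log 2 + Real.log (Real.log (uu (i + 1) : ℝ)) := by
      rw [e1, e2, ← Real.log_mul (by norm_num) (by positivity)]
      congr 1
      ring
    have hlt : Real.log 2 ≤ 1 := by
      have := Real.log_two_lt_d9
      linarith
    rw [abs_le] at h1 h2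
    unfold bk
    rw [← h3]
    rw [e3] at h2
    linarith [h1.1, h1.2, h2.1, h2.2]

theorem mert_lower : ∃ c : ℝ, 0 < c ∧ ∀ z : ℕ, 2 ≤ z →
    c / Real.log z ≤ ∏ l ∈ prs z, (1 - 1 / (l : ℝ)) := by
  obtain ⟨C, hC, hM⟩ := mertens2
  refine ⟨Real.exp (-C - 2), Real.exp_pos _, fun z hz => ?_⟩
  have h1 := hM z hz
  rw [abs_le] at h1
  have hlog := helper23_logpos z hz
  have h2 : ∏ l ∈ prs z, Real.exp (-(1 / (l : ℝ)) - 2 * (1 / (l : ℝ)) ^ 2) ≤ ∏ l ∈ prs z, (1 - 1 / (l : ℝ)) := by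
    apply prod_le_prod
    · intro i _
      exact (Real.exp_pos _).le
    · intro l hl
      have hp := (mem_prs.mp hl).1
      have hl2 : (2 : ℝ) ≤ l := by exact_mod_cast hp.two_le
      apply helper23_one_sub
      · positivity
      · rw [div_le_div_iff₀ (by linarith) (by norm_num)]
        linarith
  rw [← Real.exp_sum] at h2
  refine le_trans ?_ h2
  have h3 : ∑ l ∈ prs z, (-(1 / (l : ℝ)) - 2 * (1 / (l : ℝ)) ^ 2) = - S1 z - 2 * ∑ l ∈ prs z, 1 / (l : ℝ) ^ 2 := by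
    rw [helper23_S1, sum_sub_distrib, sum_neg_distrib, mul_sum]
    congr 1
    apply sum_congr rfl
    intro l _
    rw [div_pow, one_pow]
  have h4 := helper23_sq z hz (prs z) (Subset.refl _)
  calc Real.exp (-C - 2) / Real.log z = Real.exp (-C - 2 - Real.log (Real.log z)) := by
        rw [Real.exp_sub _ (Real.log (Real.log z)), Real.exp_log hlog]
    _ ≤ Real.exp (∑ l ∈ prs z, (-(1 / (l : ℝ)) - 2 * (1 / (l : ℝ)) ^ 2)) := by
        rw [Real.exp_le_exp, h3]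
        linarith [h1.2]

theorem mert_upper : ∃ C : ℝ, 0 < C ∧ ∀ z : ℕ, 2 ≤ z →
    ∏ l ∈ prs z, (1 - 1 / (l : ℝ)) ≤ C / Real.log z := by
  obtain ⟨C, hC, hM⟩ := mertens2
  refine ⟨Real.exp C, Real.exp_pos _, fun z hz => ?_⟩
  have h1 := hM z hz
  rw [abs_le] at h1
  have hlog := helper23_logpos z hz
  have h2 : ∏ l ∈ prs z, (1 - 1 / (l : ℝ)) ≤ ∏ l ∈ prs z, Real.exp (-(1 / (l : ℝ))) := by
    apply prod_le_prod
    · intro l hl
      have hp := (mem_prs.mp hl).1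
      have hl2 : (2 : ℝ) ≤ l := by exact_mod_cast hp.two_le
      have : 1 / (l : ℝ) ≤ 1 := by
        rw [div_le_one (by linarith)]
        linarith
      linarith
    · intro l _
      exact Real.one_sub_le_exp_neg _
  rw [← Real.exp_sum] at h2
  refine le_trans h2 ?_
  have h3 : ∑ l ∈ prs z, (-(1 / (l : ℝ))) = - S1 z := by
    rw [helper23_S1, sum_neg_distrib]
  calc Real.exp (∑ l ∈ prs z, (-(1 / (l : ℝ)))) ≤ Real.exp (C - Real.log (Real.log z)) := by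
        rw [Real.exp_le_exp, h3]
        linarith [h1.1]
    _ = Real.exp C / Real.log z := by
        rw [Real.exp_sub, Real.exp_log hlog]

theorem mu_lower : ∃ c : ℝ, 0 < c ∧ ∀ z T : ℕ, 2 ≤ T → T ≤ z → ∀ Q ⊆ prs z, (∀ l ∈ Q, T < l) →
    c * Real.log T / Real.log z ≤ ∏ l ∈ Q, (1 - 1 / ((l : ℝ) - 1)) := by
  obtain ⟨C, hC, hM⟩ := mertens2
  refine ⟨Real.exp (-2 * C - 10), Real.exp_pos _, fun z T hT hTz Q hQ hQT => ?_⟩
  have hz : 2 ≤ z := hT.trans hTz
  have h1 := hM z hz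
  have h1' := hM T hT
  rw [abs_le] at h1 h1'
  have hlog := helper23_logpos z hz
  have hlogT := helper23_logpos T hT
  have h2 : ∏ l ∈ Q, Real.exp (-(1 / (l : ℝ)) - 10 * (1 / (l : ℝ) ^ 2)) ≤ ∏ l ∈ Q, (1 - 1 / ((l : ℝ) - 1)) := by
    apply prod_le_prod
    · intro i _
      exact (Real.exp_pos _).le
    · intro l hl
      have hl3 : (3 : ℝ) ≤ l := by
        have := hQT l hl
        exact_mod_cast (by omega : 3 ≤ l)
      have hl1 : (0 : ℝ) < (l : ℝ) - 1 := by linarith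
      refine le_trans ?_ (helper23_one_sub (1 / ((l : ℝ) - 1)) (by positivity) ?_)
      · rw [Real.exp_le_exp]
        have e1 : 1 / ((l : ℝ) - 1) ≤ 1 / (l : ℝ) + 2 * (1 / (l : ℝ) ^ 2) := by
          have : 1 / (l : ℝ) + 2 * (1 / (l : ℝ) ^ 2) - 1 / ((l : ℝ) - 1) = ((l : ℝ) - 2) / ((l : ℝ) ^ 2 * ((l : ℝ) - 1)) := by
            field_simp
            ring
          have h5 : 0 ≤ ((l : ℝ) - 2) / ((l : ℝ) ^ 2 * ((l : ℝ) - 1)) := by
            apply div_nonneg (by linarith)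
            positivity
          linarith
        have e2 : (1 / ((l : ℝ) - 1)) ^ 2 ≤ 4 * (1 / (l : ℝ) ^ 2) := by
          have e3 : 1 / ((l : ℝ) - 1) ≤ 2 * (1 / (l : ℝ)) := by
            rw [mul_one_div, div_le_div_iff₀ hl1 (by linarith)]
            linarith
          calc (1 / ((l : ℝ) - 1)) ^ 2 ≤ (2 * (1 / (l : ℝ))) ^ 2 := pow_le_pow_left₀ (by positivity) e3 2
            _ = 4 * (1 / (l : ℝ) ^ 2) := by
                rw [mul_pow, div_pow, one_pow]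
                norm_num
        linarith
      · rw [div_le_div_iff₀ hl1 (by norm_num)]
        linarith
  rw [← Real.exp_sum] at h2
  refine le_trans ?_ h2
  have h3 : ∑ l ∈ Q, (-(1 / (l : ℝ)) - 10 * (1 / (l : ℝ) ^ 2)) = - (∑ l ∈ Q, 1 / (l : ℝ)) - 10 * ∑ l ∈ Q, 1 / (l : ℝ) ^ 2 := by
    rw [sum_sub_distrib, sum_neg_distrib, mul_sum]
  have h4 := helper23_sq z hz Q hQ
  have h5 : ∑ l ∈ Q, 1 / (l : ℝ) ≤ S1 z - S1 T := by
    rw [S1_sub T z hTz]
    apply sum_le_sum_of_subset_of_nonneg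
    · intro l hl
      have := mem_prs.mp (hQ hl)
      rw [mem_filter, mem_Ioc]
      exact ⟨⟨hQT l hl, this.2⟩, this.1⟩
    · intro i _ _
      positivity
  calc Real.exp (-2 * C - 10) * Real.log T / Real.log z
      = Real.exp (-2 * C - 10 + Real.log (Real.log T) - Real.log (Real.log z)) := by
        rw [Real.exp_sub _ (Real.log (Real.log z)), Real.exp_log hlog, Real.exp_add, Real.exp_log hlogT]
    _ ≤ Real.exp (∑ l ∈ Q, (-(1 / (l : ℝ)) - 10 * (1 / (l : ℝ) ^ 2))) := by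
        rw [Real.exp_le_exp, h3]
        linarith [h1.1, h1.2, h1'.1, h1'.2]

end YX49
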