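import Pool.Agent.YX49.FLA2
import Pool.Agent.YX49.FLB2
import Pool.Agent.YX49.FLC
import Pool.Agent.YX49.Num1

/-!
# [YX49-FL] The fundamental lemma

Take `σ` from `block_sum`, `τ = 3 σ`; `B` from `level` with `δ / 8` (for example), `s = 100 (B + 1)`; `J ≥ 1` minimal with `z ≤ uu J`, then `uu J ≤ z^2`
and `2^(2^J) = (uu J)^2 ≤ z^4`; replace `x` by `x' l n = if l ≤ z then x l n else 0` (again `Loc`, same `sf`, `WW` at level `z`,
and `prs (uu J)` instead of `prs z`). Upper bound: `nub_upper`, `count_nub`, `main_upper`; lower bound: `nub_lower`, `count_nub`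
for `b` and all `up1 b j` (in total at most `2 J + 1 ≤ z^4` error terms), `main_lower`. The error terms are at most
`z^4 2^(3 (2B+3) 2^J) ≤ z^(4 + 12 (2B+3))`, while `H * WW z x ≥ z^(s-5)` (`WW_lower`), and `z^(59+76B) ≥ 2^B 2^59` is larger than `10 s / δ`.
-/

namespace YX49

open Finset Pool.Agent.E456

private lemma fl_exists_J (z : ℕ) (hz : 2 ≤ z) : ∃ J, 1 ≤ J ∧ z ≤ uu J ∧ 2 ^ (2 ^ J) ≤ z ^ 4 := by
  classical
  have hex : ∃ J, z ≤ uu J := by
    refine ⟨z + 1, ?_⟩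
    show z ≤ 2 ^ (2 ^ z)
    have h1 : z < 2 ^ z := Nat.lt_two_pow_self
    have h2 : 2 ^ z < 2 ^ (2 ^ z) := Nat.lt_two_pow_self
    omega
  have hfind := Nat.find_spec hex
  have hmin := fun m => Nat.find_min (H := hex) (m := m)
  set J := Nat.find hex with hJ
  refine ⟨J, ?_, hfind, ?_⟩
  · rcases Nat.eq_zero_or_pos J with h0 | h0
    · rw [h0] at hfind
      have : uu 0 = 1 := rfl
      omega
    · exact h0
  · rcases hJk : J with _ | k
    · have : 2 ^ (2 ^ 0) = 2 := by norm_num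
      have h16 : 2 ^ 4 ≤ z ^ 4 := Nat.pow_le_pow_left hz 4
      omega
    · rcases k with _ | m
      · have h16 : 2 ^ 4 ≤ z ^ 4 := Nat.pow_le_pow_left hz 4
        have : 2 ^ (2 ^ (0 + 1)) = 4 := by norm_num
        omega
      · have h1 : ¬ z ≤ uu (m + 1) := hmin (m + 1) (by omega)
        have h2 : 2 ^ (2 ^ m) ≤ z := by
          have : uu (m + 1) = 2 ^ (2 ^ m) := rfl
          omega
        calc 2 ^ (2 ^ (m + 1 + 1)) = (2 ^ (2 ^ m)) ^ 4 := by
              rw [← pow_mul]; congr 1; ring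
          _ ≤ z ^ 4 := Nat.pow_le_pow_left h2 4

/-- the conditions with primes above `z` removed -/
private noncomputable def cutx (z : ℕ) (x : ℕ → ℕ → ℝ) (l n : ℕ) : ℝ := if l ≤ z then x l n else 0

private lemma om_cutx_le {z : ℕ} {x : ℕ → ℕ → ℝ} {l : ℕ} (h : l ≤ z) : om (cutx z x) l = om x l := by
  unfold om cutx
  simp [h]

private lemma om_cutx_gt {z : ℕ} {x : ℕ → ℕ → ℝ} {l : ℕ} (h : ¬ l ≤ z) : om (cutx z x) l = 0 := by
  unfold om cutx
  simp [h]

private lemma loc_cutx {z : ℕ} {x : ℕ → ℕ → ℝ} (hx : Loc x) : Loc (cutx z x) where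
  val l n := by
    unfold cutx
    split_ifs
    · exact hx.val l n
    · exact Or.inl rfl
  per l n := by
    unfold cutx
    split_ifs
    · exact hx.per l n
    · rfl
  three l hl := by
    by_cases h : l ≤ z
    · rw [om_cutx_le h]; exact hx.three l hl
    · rw [om_cutx_gt h]; norm_num
  half l hl := by
    by_cases h : l ≤ z
    · rw [om_cutx_le h]; exact hx.half l hl
    · rw [om_cutx_gt h]; positivity

private lemma prs_sub {z w : ℕ} (h : z ≤ w) : prs z ⊆ prs w := by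
  intro l hl
  rw [mem_prs] at hl ⊢
  exact ⟨hl.1, hl.2.trans h⟩

private lemma sf_cutx {z w : ℕ} (h : z ≤ w) (x : ℕ → ℕ → ℝ) (n : ℕ) :
    sf z x n = ∏ l ∈ prs w, (1 - cutx z x l n) := by
  unfold sf
  rw [← Finset.prod_subset (prs_sub h) (f := fun l => 1 - cutx z x l n)]
  · apply Finset.prod_congr rfl
    intro l hl
    have : l ≤ z := (mem_prs.1 hl).2
    unfold cutx
    rw [if_pos this]
  · intro l hl hl'
    have : ¬ l ≤ z := fun hh => hl' (mem_prs.2 ⟨(mem_prs.1 hl).1, hh⟩)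
    unfold cutx
    rw [if_neg this]; simp

private lemma WW_cutx {z w : ℕ} (h : z ≤ w) (x : ℕ → ℕ → ℝ) :
    WW z x = ∏ l ∈ prs w, (1 - om (cutx z x) l / l) := by
  unfold WW
  rw [← Finset.prod_subset (prs_sub h) (f := fun l : ℕ => 1 - om (cutx z x) l / (l : ℝ))]
  · apply Finset.prod_congr rfl
    intro l hl
    rw [om_cutx_le (mem_prs.1 hl).2]
  · intro l hl hl'
    have : ¬ l ≤ z := fun hh => hl' (mem_prs.2 ⟨(mem_prs.1 hl).1, hh⟩)
    rw [om_cutx_gt this]; simp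

theorem fund (δ : ℝ) (hδ : 0 < δ) (hδ1 : δ ≤ 1) : ∃ s : ℕ, 1 ≤ s ∧ ∀ z : ℕ, 2 ≤ z →
    ∀ x : ℕ → ℕ → ℝ, Loc x → ∀ N H : ℕ, z ^ s ≤ H →
    |∑ n ∈ Ioc N (N + H), sf z x n - H * WW z x| ≤ (δ / s) * (H * WW z x) := by
  obtain ⟨σ, hσ, hblock⟩ := block_sum
  obtain ⟨B, hL1, hL2⟩ := level (3 * σ) (by positivity) (δ / 8) (by positivity)
  refine ⟨100 * (B + 1), by omega, ?_⟩
  intro z hz x hx N H hH
  obtain ⟨J, hJ1, hzJ, hJz⟩ := fl_exists_J z hz
  set y : ℕ → ℕ → ℝ := cutx z x with hy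
  have hLy : Loc y := loc_cutx hx
  set g : ℕ → ℝ := fun l => om y l / l with hgdef
  set b : ℕ → ℕ := lev B J with hbdef
  have hbeven : ∀ j < J, Even (b j) := by
    intro j _
    rw [hbdef]
    unfold lev
    exact ⟨B + (J - 1 - j), by ring⟩
  have hble : ∀ j < J, b j ≤ lev B J j + 1 := fun j _ => by rw [hbdef]; omega
  have hbup : ∀ k, ∀ j < J, up1 b k j ≤ lev B J j + 1 := by
    intro k j _
    unfold up1
    rw [Function.update_apply]
    split_ifs with h
    · rw [h, hbdef]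
    · rw [hbdef]; omega
  have hg : ∀ i ∈ prs (uu J), 0 ≤ g i ∧ g i ≤ 1 / 2 := by
    intro i hi
    have hip := (mem_prs.1 hi).1
    have hipos : (0 : ℝ) < i := by exact_mod_cast hip.pos
    constructor
    · exact div_nonneg (om_nonneg hLy i) hipos.le
    · show om y i / i ≤ 1 / 2
      rw [div_le_iff₀ hipos]
      have := hLy.half i hip
      linarith
  have hsum : ∀ j < J, ∑ i ∈ bk j, g i ≤ 3 * σ := by
    intro j _
    calc ∑ i ∈ bk j, g i ≤ ∑ i ∈ bk j, 3 * ((1 : ℝ) / i) := by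
          apply Finset.sum_le_sum
          intro i hi
          have hip : i.Prime := (Finset.mem_filter.1 hi).2
          have hipos : (0 : ℝ) < i := by exact_mod_cast hip.pos
          show om y i / i ≤ 3 * (1 / i)
          rw [mul_one_div]
          exact div_le_div_of_nonneg_right (hLy.three i hip) hipos.le
      _ = 3 * ∑ i ∈ bk j, (1 : ℝ) / i := by rw [Finset.mul_sum]
      _ ≤ 3 * σ := by have := hblock j; linarith
  set ε : ℝ := ∑ j ∈ range J, Real.exp (2 * (3 * σ)) * ((3 * σ) ^ (b j + 1) / (b j + 1).factorial) with hε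
  have hε0 : 0 ≤ ε := by
    rw [hε]
    apply Finset.sum_nonneg
    intro j _
    positivity
  have hε1 : ε ≤ δ / 8 / (100 * (B + 1)) := hL1 J
  have hB1 : (1 : ℝ) ≤ (B : ℝ) + 1 := by
    have : (0 : ℝ) ≤ (B : ℝ) := Nat.cast_nonneg B
    linarith
  have hε2 : ε ≤ 1 / 800 := by
    refine hε1.trans ?_
    rw [div_div, div_le_div_iff₀ (by positivity) (by norm_num)]
    nlinarith
  set W : ℝ := ∏ i ∈ prs (uu J), (1 - g i) with hW
  have hWW : WW z x = W := WW_cutx hzJ x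
  have hW0 : 0 ≤ W := by
    rw [hW]
    apply Finset.prod_nonneg
    intro i hi
    have := (hg i hi).2
    linarith
  have hsf : ∀ n, sf z x n = ∏ l ∈ prs (uu J), (1 - y l n) := fun n => sf_cutx hzJ x n
  have hy01 : ∀ n, ∀ i ∈ prs (uu J), 0 ≤ y i n ∧ y i n ≤ 1 := by
    intro n i _
    rcases hLy.val i n with h | h <;> rw [h] <;> norm_num
  set E : ℝ := (2 : ℝ) ^ (3 * (2 * B + 3) * 2 ^ J) with hE
  have hE0 : 0 ≤ E := by positivity
  have hcount : ∀ c : ℕ → ℕ, (∀ j < J, c j ≤ lev B J j + 1) →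
      |∑ n ∈ Ioc N (N + H), nub J c (fun l => y l n) - H * nub J c g| ≤ E :=
    fun c hc => count_nub hLy B J c hc N H
  -- upper bound
  have hup : ∑ n ∈ Ioc N (N + H), sf z x n ≤ H * (W * (1 + 2 * ε)) + E := by
    have h1 : ∑ n ∈ Ioc N (N + H), sf z x n ≤ ∑ n ∈ Ioc N (N + H), nub J b (fun l => y l n) := by
      apply Finset.sum_le_sum
      intro n _
      rw [hsf n]
      exact nub_upper J b hbeven (fun l => y l n) (hy01 n)
    have h2 := (abs_le.1 (hcount b hble)).2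
    have h3 := main_upper J b hbeven g hg (3 * σ) hsum
    have h4 : Real.exp ε ≤ 1 + 2 * ε := by
      have h5 := Real.abs_exp_sub_one_sub_id_le (x := ε) (by rw [abs_of_nonneg hε0]; linarith)
      have h6 := (abs_le.1 h5).2
      nlinarith
    have h7 : nub J b g ≤ W * (1 + 2 * ε) := h3.trans (mul_le_mul_of_nonneg_left h4 hW0)
    have h8 : (H : ℝ) * nub J b g ≤ H * (W * (1 + 2 * ε)) := mul_le_mul_of_nonneg_left h7 (Nat.cast_nonneg H)
    linarith
  -- lower bound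
  have hlow : H * (W * (1 - ε)) - (2 * J) * E ≤ ∑ n ∈ Ioc N (N + H), sf z x n := by
    have h1 : ∑ n ∈ Ioc N (N + H), (nub J b (fun l => y l n) -
        ∑ j ∈ range J, (nub J b (fun l => y l n) - nub J (up1 b j) (fun l => y l n))) ≤
        ∑ n ∈ Ioc N (N + H), sf z x n := by
      apply Finset.sum_le_sum
      intro n _
      rw [hsf n]
      exact nub_lower J b hbeven (fun l => y l n) (hy01 n)
    have h2 := hcount b hble
    have h3 := fun j => hcount (up1 b j) (hbup j)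
    have h4 := main_lower J b hbeven g hg (3 * σ) hsum (by rw [← hε]; linarith)
    rw [Finset.sum_sub_distrib, Finset.sum_comm] at h1
    simp only [Finset.sum_sub_distrib, Finset.sum_const, Finset.card_range, nsmul_eq_mul] at h1 h4
    set S : ℝ := ∑ n ∈ Ioc N (N + H), nub J b (fun l => y l n) with hS
    have h5 : H * (∑ j ∈ range J, nub J (up1 b j) g) - J * E ≤
        ∑ j ∈ range J, ∑ n ∈ Ioc N (N + H), nub J (up1 b j) (fun l => y l n) := by
      have : ∑ j ∈ range J, ((H : ℝ) * nub J (up1 b j) g - E) ≤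
          ∑ j ∈ range J, ∑ n ∈ Ioc N (N + H), nub J (up1 b j) (fun l => y l n) := by
        apply Finset.sum_le_sum
        intro j _
        have := (abs_le.1 (h3 j)).1
        linarith
      rw [Finset.sum_sub_distrib, ← Finset.mul_sum, Finset.sum_const, Finset.card_range, nsmul_eq_mul] at this
      exact this
    have hJr : (1 : ℝ) ≤ (J : ℝ) := by exact_mod_cast hJ1
    have h6 : S ≤ H * nub J b g + E := by have := (abs_le.1 h2).2; linarith
    have h7 : S - J * S ≥ (1 - J) * (H * nub J b g + E) := by nlinarith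
    have h8 : (H : ℝ) * (W * (1 - ε)) ≤ H * (nub J b g - (J * nub J b g - ∑ j ∈ range J, nub J (up1 b j) g)) :=
      mul_le_mul_of_nonneg_left h4 (Nat.cast_nonneg H)
    nlinarith
  -- the error terms
  have hzr : (2 : ℝ) ≤ (z : ℝ) := by exact_mod_cast hz
  have hz1 : (1 : ℝ) ≤ (z : ℝ) := by linarith
  have hz0 : (0 : ℝ) < (z : ℝ) := by linarith
  have hJz' : (2 : ℝ) ^ (2 ^ J) ≤ (z : ℝ) ^ 4 := by exact_mod_cast hJz
  have hEz : E ≤ (z : ℝ) ^ (24 * B + 36) := by
    calc E = ((2 : ℝ) ^ (2 ^ J)) ^ (3 * (2 * B + 3)) := by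
          rw [hE, ← pow_mul]; congr 1; ring
      _ ≤ ((z : ℝ) ^ 4) ^ (3 * (2 * B + 3)) := pow_le_pow_left₀ (by positivity) hJz' _
      _ = (z : ℝ) ^ (24 * B + 36) := by rw [← pow_mul]; congr 1; ring
  have h2J : (2 * J : ℝ) ≤ (z : ℝ) ^ 4 := by
    have h1 : 2 * J ≤ 2 ^ (2 ^ J) := by
      have h2 : J + 1 ≤ 2 ^ J := Nat.lt_two_pow_self
      calc 2 * J ≤ 2 * 2 ^ J := by omega
        _ = 2 ^ (J + 1) := by ring
        _ ≤ 2 ^ (2 ^ J) := Nat.pow_le_pow_right (by norm_num) h2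
    have h3 : 2 * J ≤ z ^ 4 := h1.trans hJz
    exact_mod_cast h3
  have hErr : (2 * J) * E ≤ (z : ℝ) ^ (24 * B + 40) := by
    calc (2 * J) * E ≤ (z : ℝ) ^ 4 * (z : ℝ) ^ (24 * B + 36) := mul_le_mul h2J hEz hE0 (by positivity)
      _ = (z : ℝ) ^ (24 * B + 40) := by rw [← pow_add]; congr 1; ring
  have hHr : (z : ℝ) ^ (100 * (B + 1)) ≤ (H : ℝ) := by exact_mod_cast hH
  have hWl : 1 / (z : ℝ) ^ 5 ≤ W := by rw [← hWW]; exact WW_lower hx hz
  have hHW : (z : ℝ) ^ (100 * B + 95) ≤ H * W := by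
    calc (z : ℝ) ^ (100 * B + 95) = (z : ℝ) ^ (100 * (B + 1)) * (1 / (z : ℝ) ^ 5) := by
          rw [mul_one_div, eq_div_iff (by positivity), ← pow_add]; congr 1
      _ ≤ H * W := mul_le_mul hHr hWl (by positivity) (Nat.cast_nonneg H)
  have h2B : (0 : ℝ) < 2 ^ B := by positivity
  have hs : (100 * (B + 1) : ℝ) ≤ δ / 8 * 2 ^ B := by
    rwa [div_le_iff₀ h2B] at hL2
  have hbig : (100 * (B + 1) : ℝ) * (z : ℝ) ^ (24 * B + 40) ≤ δ / 8 * (H * W) := by
    have h1 : (2 : ℝ) ^ B * (z : ℝ) ^ (24 * B + 40) ≤ H * W := by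
      calc (2 : ℝ) ^ B * (z : ℝ) ^ (24 * B + 40) ≤ (z : ℝ) ^ B * (z : ℝ) ^ (24 * B + 40) := by
            gcongr
        _ = (z : ℝ) ^ (25 * B + 40) := by rw [← pow_add]; congr 1; ring
        _ ≤ (z : ℝ) ^ (100 * B + 95) := pow_le_pow_right₀ hz1 (by omega)
        _ ≤ H * W := hHW
    calc (100 * (B + 1) : ℝ) * (z : ℝ) ^ (24 * B + 40) ≤ (δ / 8 * 2 ^ B) * (z : ℝ) ^ (24 * B + 40) := by
          gcongr
      _ = δ / 8 * (2 ^ B * (z : ℝ) ^ (24 * B + 40)) := by ring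
      _ ≤ δ / 8 * (H * W) := by gcongr
  have hspos : (0 : ℝ) < 100 * (B + 1) := by positivity
  have hHW0 : 0 ≤ H * W := mul_nonneg (Nat.cast_nonneg H) hW0
  have hfin : 2 * ε * (H * W) + (2 * J) * E ≤ δ / (100 * (B + 1)) * (H * W) := by
    have h1 : (2 * J) * E ≤ δ / 8 / (100 * (B + 1)) * (H * W) := by
      rw [div_mul_eq_mul_div, le_div_iff₀ hspos]
      calc 2 * ↑J * E * (100 * (↑B + 1)) ≤ (z : ℝ) ^ (24 * B + 40) * (100 * (B + 1)) := by gcongr
        _ ≤ δ / 8 * (H * W) := by linarith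
    have h2 : 2 * ε * (H * W) ≤ 2 * (δ / 8 / (100 * (B + 1))) * (H * W) := by gcongr
    have h3 : δ / 8 / (100 * ((B : ℝ) + 1)) = δ / (100 * (B + 1)) / 8 := by field_simp
    have h4 : 0 ≤ δ / (100 * ((B : ℝ) + 1)) * (H * W) := by positivity
    rw [h3] at h1 h2
    linarith
  have hcast : ((100 * (B + 1) : ℕ) : ℝ) = 100 * ((B : ℝ) + 1) := by push_cast; ring
  rw [hWW, hcast, abs_le]
  have hJr : (1 : ℝ) ≤ (J : ℝ) := by exact_mod_cast hJ1
  have hεW : 0 ≤ ε * (H * W) := mul_nonneg hε0 hHW0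
  have e1 : (H : ℝ) * (W * (1 - ε)) = H * W - ε * (H * W) := by ring
  have e2 : (H : ℝ) * (W * (1 + 2 * ε)) = H * W + 2 * ε * (H * W) := by ring
  have e3 : E ≤ 2 * J * E := by
    have : 0 ≤ (2 * (J : ℝ) - 1) * E := mul_nonneg (by linarith) hE0
    linarith
  rw [e1] at hlow
  rw [e2] at hup
  constructor
  · linarith
  · linarith

end YX49
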