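import Pool.Agent.YX49.Defs

/-!
# [YX49-FLA] The blocks, and the upper bound

Helpers in E456/Bonf.lean: `bonferroni`, `EE_le`, `TT_le` (and the lower bound `exp (-2σ) ≤ ∏ (1 - x i)` in its proof), `TT`, `EE`.
`TT_sub`: `TT P x b - TT P x (b+1)` is the sum over the sets with `b + 1` elements of `-∏ (-x i)`, which is `EE P x (b+1)` for even `b`.
`prod_prs`: as `prod_pr` in E456/Sieve.lean, induction on `J` (`uu` is monotone, `uu 0 = 1` and `(Ioc 0 1)` has no primes).
`nub_upper`: `∏ (1 - x) ≤ TT` in every block (`bonferroni`, even `b`), `prod_prs`.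
-/

namespace YX49

open Finset Pool.Agent.E456

theorem uu_mono : Monotone uu := by
  refine monotone_nat_of_le_succ fun j => ?_
  cases j with
  | zero =>
    change 1 ≤ 2 ^ (2 ^ 0)
    norm_num
  | succ j =>
    change 2 ^ (2 ^ j) ≤ 2 ^ (2 ^ (j + 1))
    exact Nat.pow_le_pow_right (by norm_num) (Nat.pow_le_pow_right (by norm_num) (Nat.le_succ j))

theorem TT_sub (P : Finset ℕ) (x : ℕ → ℝ) (b : ℕ) (hb : Even b) :
    TT P x b - TT P x (b + 1) = EE P x (b + 1) := by
  unfold TT EE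
  rw [← sum_sub_distrib]
  refine sum_congr rfl fun S _ => ?_
  by_cases h1 : S.card = b + 1
  · rw [if_neg (by omega), if_pos (by omega), if_pos h1, prod_neg, h1,
      (hb.add_one).neg_one_pow]
    ring
  · rw [if_neg h1]
    by_cases h2 : S.card ≤ b
    · rw [if_pos h2, if_pos (by omega), sub_self]
    · rw [if_neg h2, if_neg (by omega), sub_self]

theorem prod_prs (J : ℕ) (g : ℕ → ℝ) :
    ∏ i ∈ prs (uu J), g i = ∏ j ∈ range J, ∏ i ∈ bk j, g i := by
  induction J with
  | zero =>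
    rw [prod_range_zero]
    refine prod_eq_one fun i hi => ?_
    have h1 := mem_prs.1 hi
    have h2 : i ≤ 1 := h1.2
    exact absurd h2 (not_le.2 h1.1.one_lt)
  | succ J ih =>
    rw [prod_range_succ, ← ih, ← prod_union]
    · refine prod_congr ?_ fun _ _ => rfl
      ext i
      have hm : uu J ≤ uu (J + 1) := uu_mono (Nat.le_succ J)
      simp only [mem_union, mem_prs, bk, mem_filter, mem_Ioc]
      constructor
      · rintro ⟨h1, h2⟩
        by_cases h3 : i ≤ uu J
        · exact Or.inl ⟨h1, h3⟩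
        · exact Or.inr ⟨⟨not_le.1 h3, h2⟩, h1⟩
      · rintro (⟨h1, h2⟩ | ⟨⟨h1, h2⟩, h3⟩)
        · exact ⟨h1, h2.trans hm⟩
        · exact ⟨h3, h2⟩
    · rw [Finset.disjoint_left]
      intro i hi hi'
      simp only [mem_prs, bk, mem_filter, mem_Ioc] at hi hi'
      omega

theorem nub_upper (J : ℕ) (b : ℕ → ℕ) (hb : ∀ j < J, Even (b j)) (x : ℕ → ℝ)
    (hx : ∀ i ∈ prs (uu J), 0 ≤ x i ∧ x i ≤ 1) :
    ∏ i ∈ prs (uu J), (1 - x i) ≤ nub J b x := by
  rw [prod_prs]
  unfold nub
  have hsub : ∀ j ∈ range J, ∀ i ∈ bk j, i ∈ prs (uu J) := by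
    intro j hj i hi
    simp only [bk, mem_filter, mem_Ioc] at hi
    rw [mem_prs]
    exact ⟨hi.2, hi.1.2.trans (uu_mono (Nat.succ_le_of_lt (mem_range.1 hj)))⟩
  refine prod_le_prod (fun j hj => prod_nonneg fun i hi => ?_) fun j hj => ?_
  · have := (hx i (hsub j hj i hi)).2
    linarith
  · have h1 := (bonferroni (bk j) x (fun i hi => hx i (hsub j hj i hi)) (b j)).1
    rw [(hb j (mem_range.1 hj)).neg_one_pow, one_mul] at h1
    linarith

end YX49
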