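import Pool.Agent.YX49.FLA

/-!
# [YX49-FLA2] The Brun-Hooley inequalities, pointwise

Use `TT_sub`, `prod_prs`, `nub_upper` of FLA.lean and `bonferroni`, `EE_le`, `TT_le` of E456/Bonf.lean.
`nub_lower`: for `0 ≤ a_j ≤ T_j`: `∏ T_j - ∏ a_j ≤ ∑_j (T_j - a_j) ∏_{i ≠ j} T_i` (induction on `J`), `T_j - a_j ≤ EE = TT (b j) - TT (b j + 1)`
(`bonferroni`, `TT_sub`), and `nub J b x - nub J (up1 b j) x = (TT (b j) - TT (b j + 1)) ∏_{i ≠ j} T_i` for `j < J`.
`main_upper`: `TT_le` in every block; `main_lower`: `nub b - nub (up1 b j) = EE_j ∏_{i≠j} T_i ≤ (EE_j / a_j) nub b` with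
`EE_j ≤ σ^(b+1)/(b+1)!` and `a_j ≥ exp (-2σ)`; `nub b ≥ W ≥ 0`.
-/

namespace YX49

open Finset Pool.Agent.E456

private lemma bk_sub {J j : ℕ} (hj : j < J) : bk j ⊆ prs (uu J) := by
  intro i hi
  unfold bk at hi
  rw [mem_filter, mem_Ioc] at hi
  rw [mem_prs]
  exact ⟨hi.2, hi.1.2.trans (uu_mono (by omega))⟩

private lemma prod_diff (s : Finset ℕ) (T a e : ℕ → ℝ) (h0 : ∀ j ∈ s, 0 ≤ a j)
    (h1 : ∀ j ∈ s, a j ≤ T j) (h2 : ∀ j ∈ s, T j - a j ≤ e j) :
    ∏ j ∈ s, T j - ∏ j ∈ s, a j ≤ ∑ j ∈ s, e j * ∏ i ∈ s.erase j, T i := by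
  classical
  induction s using Finset.induction_on with
  | empty => simp
  | insert k s hk ih =>
    have ih' := ih (fun j hj => h0 j (mem_insert_of_mem hj)) (fun j hj => h1 j (mem_insert_of_mem hj))
      (fun j hj => h2 j (mem_insert_of_mem hj))
    have hk0 := h0 k (mem_insert_self k s)
    have hk1 := h1 k (mem_insert_self k s)
    have hk2 := h2 k (mem_insert_self k s)
    rw [prod_insert hk, prod_insert hk, sum_insert hk, erase_insert hk]
    have hsum : ∑ j ∈ s, e j * ∏ i ∈ (insert k s).erase j, T i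
        = T k * ∑ j ∈ s, e j * ∏ i ∈ s.erase j, T i := by
      rw [mul_sum]
      refine sum_congr rfl fun j hj => ?_
      have hjk : j ≠ k := fun h => hk (h ▸ hj)
      rw [erase_insert_of_ne (Ne.symm hjk), prod_insert (fun h => hk (mem_of_mem_erase h))]
      ring
    rw [hsum]
    have hA : 0 ≤ ∏ j ∈ s, a j := prod_nonneg fun j hj => h0 j (mem_insert_of_mem hj)
    have hAT : ∏ j ∈ s, a j ≤ ∏ j ∈ s, T j :=
      prod_le_prod (fun j hj => h0 j (mem_insert_of_mem hj)) (fun j hj => h1 j (mem_insert_of_mem hj))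
    have hT0 : 0 ≤ T k := hk0.trans hk1
    have e1 : T k * (∏ j ∈ s, T j - ∏ j ∈ s, a j) ≤ T k * ∑ j ∈ s, e j * ∏ i ∈ s.erase j, T i :=
      mul_le_mul_of_nonneg_left ih' hT0
    have he : 0 ≤ e k := by linarith
    have e2 : (T k - a k) * ∏ j ∈ s, a j ≤ e k * ∏ j ∈ s, T j :=
      mul_le_mul hk2 hAT hA he
    nlinarith

private lemma nub_diff (J : ℕ) (b : ℕ → ℕ) (x : ℕ → ℝ) (j : ℕ) (hj : j < J) :
    nub J b x - nub J (up1 b j) x =
      (TT (bk j) x (b j) - TT (bk j) x (b j + 1)) * ∏ i ∈ (range J).erase j, TT (bk i) x (b i) := by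
  unfold nub
  rw [← mul_prod_erase (range J) (fun i => TT (bk i) x (b i)) (mem_range.mpr hj),
    ← mul_prod_erase (range J) (fun i => TT (bk i) x (up1 b j i)) (mem_range.mpr hj)]
  have h1 : ∏ i ∈ (range J).erase j, TT (bk i) x (up1 b j i)
      = ∏ i ∈ (range J).erase j, TT (bk i) x (b i) := by
    refine prod_congr rfl fun i hi => ?_
    have : i ≠ j := (mem_erase.mp hi).1
    unfold up1
    rw [Function.update_of_ne this]
  have h2 : up1 b j j = b j + 1 := by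
    unfold up1
    rw [Function.update_self]
  simp only [h1, h2]
  ring

theorem nub_lower (J : ℕ) (b : ℕ → ℕ) (hb : ∀ j < J, Even (b j)) (x : ℕ → ℝ)
    (hx : ∀ i ∈ prs (uu J), 0 ≤ x i ∧ x i ≤ 1) :
    nub J b x - ∑ j ∈ range J, (nub J b x - nub J (up1 b j) x) ≤
      ∏ i ∈ prs (uu J), (1 - x i) := by
  rw [prod_prs]
  have key := prod_diff (range J) (fun j => TT (bk j) x (b j)) (fun j => ∏ i ∈ bk j, (1 - x i))
    (fun j => TT (bk j) x (b j) - TT (bk j) x (b j + 1)) ?_ ?_ ?_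
  · have hs : ∑ j ∈ range J, (nub J b x - nub J (up1 b j) x)
        = ∑ j ∈ range J, (TT (bk j) x (b j) - TT (bk j) x (b j + 1)) *
          ∏ i ∈ (range J).erase j, TT (bk i) x (b i) :=
      sum_congr rfl fun j hj => nub_diff J b x j (mem_range.mp hj)
    rw [hs]
    have hn : nub J b x = ∏ j ∈ range J, TT (bk j) x (b j) := rfl
    rw [hn]
    linarith
  · intro j hj
    exact prod_nonneg fun i hi => by linarith [(hx i (bk_sub (mem_range.mp hj) hi)).2]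
  · intro j hj
    have h := (bonferroni (bk j) x (fun i hi => hx i (bk_sub (mem_range.mp hj) hi)) (b j)).1
    rw [(hb j (mem_range.mp hj)).neg_one_pow, one_mul] at h
    show ∏ i ∈ bk j, (1 - x i) ≤ TT (bk j) x (b j)
    linarith
  · intro j hj
    have h := (bonferroni (bk j) x (fun i hi => hx i (bk_sub (mem_range.mp hj) hi)) (b j)).2
    rw [(hb j (mem_range.mp hj)).neg_one_pow, one_mul, ← TT_sub _ _ _ (hb j (mem_range.mp hj))] at h
    exact h

private lemma TT_ge (J : ℕ) (b : ℕ → ℕ) (hb : ∀ j < J, Even (b j)) (g : ℕ → ℝ)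
    (hg : ∀ i ∈ prs (uu J), 0 ≤ g i ∧ g i ≤ 1 / 2) (j : ℕ) (hj : j < J) :
    ∏ i ∈ bk j, (1 - g i) ≤ TT (bk j) g (b j) := by
  have h := (bonferroni (bk j) g (fun i hi => ⟨(hg i (bk_sub hj hi)).1,
    by linarith [(hg i (bk_sub hj hi)).2]⟩) (b j)).1
  rw [(hb j hj).neg_one_pow, one_mul] at h
  linarith

private lemma blk_nonneg (J : ℕ) (g : ℕ → ℝ)
    (hg : ∀ i ∈ prs (uu J), 0 ≤ g i ∧ g i ≤ 1 / 2) (j : ℕ) (hj : j < J) :
    0 ≤ ∏ i ∈ bk j, (1 - g i) :=
  prod_nonneg fun i hi => by linarith [(hg i (bk_sub hj hi)).2]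

theorem main_upper (J : ℕ) (b : ℕ → ℕ) (hb : ∀ j < J, Even (b j)) (g : ℕ → ℝ)
    (hg : ∀ i ∈ prs (uu J), 0 ≤ g i ∧ g i ≤ 1 / 2) (σ : ℝ)
    (hσ : ∀ j < J, ∑ i ∈ bk j, g i ≤ σ) :
    nub J b g ≤ (∏ i ∈ prs (uu J), (1 - g i)) *
      Real.exp (∑ j ∈ range J, Real.exp (2 * σ) * (σ ^ (b j + 1) / (b j + 1).factorial)) := by
  rw [prod_prs, Real.exp_sum, ← prod_mul_distrib]
  unfold nub
  refine prod_le_prod (fun j hj => ?_) (fun j hj => ?_)
  · exact (blk_nonneg J g hg j (mem_range.mp hj)).trans (TT_ge J b hb g hg j (mem_range.mp hj))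
  · exact TT_le (bk j) g (fun i hi => hg i (bk_sub (mem_range.mp hj) hi)) (b j)
      (hb j (mem_range.mp hj)) σ (hσ j (mem_range.mp hj))

private lemma exp_le_prod (P : Finset ℕ) (x : ℕ → ℝ) (hx : ∀ i ∈ P, 0 ≤ x i ∧ x i ≤ 1 / 2)
    (σ : ℝ) (hσ : ∑ i ∈ P, x i ≤ σ) :
    Real.exp (-(2 * σ)) ≤ ∏ i ∈ P, (1 - x i) := by
  have h5 : ∏ i ∈ P, Real.exp (-(2 * x i)) ≤ ∏ i ∈ P, (1 - x i) := by
    refine prod_le_prod (fun i _ => (Real.exp_pos _).le) fun i hi => ?_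
    have h6 := hx i hi
    have h7 : Real.exp (-(2 * x i)) = (Real.exp (-x i)) ^ 2 := by
      rw [← Real.exp_nat_mul]; congr 1; push_cast; ring
    have h8 : Real.exp (x i) ≥ 1 + x i := by linarith [Real.add_one_le_exp (x i)]
    have h9 : Real.exp (-(2 * x i)) = 1 / (Real.exp (x i)) ^ 2 := by
      rw [h7, Real.exp_neg, inv_pow, one_div]
    rw [h9, div_le_iff₀ (by positivity)]
    have h10 : (1 + x i) ^ 2 ≤ Real.exp (x i) ^ 2 := by
      apply pow_le_pow_left₀ (by linarith) h8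
    have h11 : 0 ≤ 1 - x i := by linarith
    calc (1 : ℝ) ≤ (1 - x i) * (1 + x i) ^ 2 := by nlinarith [h6.1, h6.2, mul_nonneg h6.1 h6.1]
      _ ≤ (1 - x i) * Real.exp (x i) ^ 2 := by gcongr
  rw [← Real.exp_sum] at h5
  refine le_trans ?_ h5
  apply Real.exp_le_exp.mpr
  rw [sum_neg_distrib, ← mul_sum]
  linarith

theorem main_lower (J : ℕ) (b : ℕ → ℕ) (hb : ∀ j < J, Even (b j)) (g : ℕ → ℝ)
    (hg : ∀ i ∈ prs (uu J), 0 ≤ g i ∧ g i ≤ 1 / 2) (σ : ℝ)
    (hσ : ∀ j < J, ∑ i ∈ bk j, g i ≤ σ)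
    (h1 : ∑ j ∈ range J, Real.exp (2 * σ) * (σ ^ (b j + 1) / (b j + 1).factorial) ≤ 1) :
    (∏ i ∈ prs (uu J), (1 - g i)) *
      (1 - ∑ j ∈ range J, Real.exp (2 * σ) * (σ ^ (b j + 1) / (b j + 1).factorial)) ≤
      nub J b g - ∑ j ∈ range J, (nub J b g - nub J (up1 b j) g) := by
  have hg1 : ∀ i ∈ prs (uu J), 0 ≤ g i ∧ g i ≤ 1 := fun i hi =>
    ⟨(hg i hi).1, by linarith [(hg i hi).2]⟩
  have hW := nub_upper J b hb g hg1
  have hterm : ∀ j ∈ range J, nub J b g - nub J (up1 b j) g ≤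
      nub J b g * (Real.exp (2 * σ) * (σ ^ (b j + 1) / (b j + 1).factorial)) := by
    intro j hj
    have hj' := mem_range.mp hj
    rw [nub_diff J b g j hj', TT_sub _ _ _ (hb j hj')]
    have hgj : ∀ i ∈ bk j, 0 ≤ g i ∧ g i ≤ 1 / 2 := fun i hi => hg i (bk_sub hj' hi)
    have h0 : 0 ≤ ∑ i ∈ bk j, g i := sum_nonneg fun i hi => (hgj i hi).1
    have h2 := EE_le (bk j) g (fun i hi => (hgj i hi).1) (b j + 1)
    have h3 : (∑ i ∈ bk j, g i) ^ (b j + 1) / ((b j + 1).factorial : ℝ)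
        ≤ σ ^ (b j + 1) / (b j + 1).factorial := by
      have := hσ j hj'
      gcongr
    have h4 := exp_le_prod (bk j) g hgj σ (hσ j hj')
    have h5 := h4.trans (TT_ge J b hb g hg j hj')
    have h12 : 0 ≤ σ ^ (b j + 1) / (b j + 1).factorial := by
      have : 0 ≤ σ := h0.trans (hσ j hj')
      positivity
    have h6 : EE (bk j) g (b j + 1) ≤
        TT (bk j) g (b j) * (Real.exp (2 * σ) * (σ ^ (b j + 1) / (b j + 1).factorial)) := by
      have h7 : 1 ≤ TT (bk j) g (b j) * Real.exp (2 * σ) := by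
        calc (1 : ℝ) = Real.exp (-(2 * σ)) * Real.exp (2 * σ) := by
              rw [← Real.exp_add]; simp
          _ ≤ _ := by gcongr
      rw [← mul_assoc]
      nlinarith
    have h8 : 0 ≤ ∏ i ∈ (range J).erase j, TT (bk i) g (b i) := by
      refine prod_nonneg fun i hi => ?_
      have hi' := mem_range.mp (mem_of_mem_erase hi)
      exact (blk_nonneg J g hg i hi').trans (TT_ge J b hb g hg i hi')
    have h9 : nub J b g = TT (bk j) g (b j) * ∏ i ∈ (range J).erase j, TT (bk i) g (b i) := by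
      unfold nub
      rw [← mul_prod_erase (range J) (fun i => TT (bk i) g (b i)) hj]
    rw [h9]
    calc EE (bk j) g (b j + 1) * ∏ i ∈ (range J).erase j, TT (bk i) g (b i)
        ≤ (TT (bk j) g (b j) * (Real.exp (2 * σ) * (σ ^ (b j + 1) / (b j + 1).factorial))) *
          ∏ i ∈ (range J).erase j, TT (bk i) g (b i) := mul_le_mul_of_nonneg_right h6 h8
      _ = _ := by ring
  have hsum := sum_le_sum hterm
  rw [← mul_sum] at hsum
  have h10 : (∏ i ∈ prs (uu J), (1 - g i)) *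
      (1 - ∑ j ∈ range J, Real.exp (2 * σ) * (σ ^ (b j + 1) / (b j + 1).factorial)) ≤
      nub J b g * (1 - ∑ j ∈ range J, Real.exp (2 * σ) * (σ ^ (b j + 1) / (b j + 1).factorial)) :=
    mul_le_mul_of_nonneg_right hW (by linarith)
  have h11 : nub J b g * (1 - ∑ j ∈ range J, Real.exp (2 * σ) * (σ ^ (b j + 1) / (b j + 1).factorial))
      = nub J b g - nub J b g *
        ∑ j ∈ range J, Real.exp (2 * σ) * (σ ^ (b j + 1) / (b j + 1).factorial) := by ring
  rw [h11] at h10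
  linarith

end YX49
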