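import Pool.Agent.YX49.Defs

/-!
# [YX49-FLB] Counting in the classes of a set of primes

`count_set`: `period_prod` of E456/Sieve.lean with `f = 1`, `Q = 1` gives the sum over one period `D = ∏ S`; the function has values in `{0,1}` and
period `D` (`prod_periodic`), so that the sum over `H` consecutive integers is between `⌊H/D⌋ T` and `(⌊H/D⌋ + 1) T`, `T = ∏ om x i` (the sum over
any `D` consecutive integers is `T`), and `om x i ≤ i ^ 2` gives `T ≤ (∏ S)^2`.
`om_nonneg`, `om_le_sq`, `nub_eq`: `nub J b y = ∑ S ∈ DD bk b J, ∏ i ∈ S, (-y i)` is `sum_DD` of E456/Bonf.lean with `u = uu` (prove the monotonicity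
of `uu` here as a private lemma if it is needed; do not import FLA).
-/

namespace YX49

open Finset Pool.Agent.E456

theorem om_nonneg {x : ℕ → ℕ → ℝ} (hx : Loc x) (l : ℕ) : 0 ≤ om x l := by
  unfold om
  refine sum_nonneg fun n _ => ?_
  rcases hx.val l n with h | h <;> rw [h]
  exact zero_le_one

theorem om_le_sq {x : ℕ → ℕ → ℝ} (hx : Loc x) {l : ℕ} (hl : l.Prime) : om x l ≤ (l : ℝ) ^ 2 := by
  have h1 := hx.three l hl
  have h2 : (2 : ℝ) ≤ l := by exact_mod_cast hl.two_le
  nlinarith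

private lemma uu_mono : Monotone uu := by
  refine monotone_nat_of_le_succ fun j => ?_
  cases j with
  | zero => simp [uu]
  | succ j =>
    simp only [uu]
    exact Nat.pow_le_pow_right (by norm_num) (Nat.pow_le_pow_right (by norm_num) (Nat.le_succ j))

private lemma bk_bounds (j : ℕ) : ∀ i ∈ bk j, uu j < i ∧ i ≤ uu (j + 1) := by
  intro i hi
  unfold bk at hi
  rw [mem_filter, mem_Ioc] at hi
  exact hi.1

theorem nub_eq (J : ℕ) (b : ℕ → ℕ) (y : ℕ → ℝ) :
    nub J b y = ∑ S ∈ DD bk b J, ∏ i ∈ S, (-y i) := by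
  rw [sum_DD uu_mono bk_bounds]
  unfold nub TT
  refine prod_congr rfl fun j _ => ?_
  refine sum_congr rfl fun S _ => ?_
  split_ifs
  · rw [prod_neg]
  · rfl

private lemma shift_sum {f : ℕ → ℝ} {D : ℕ} (hf : ∀ n, f (n + D) = f n) (a : ℕ) :
    ∑ k ∈ range D, f (a + k) = ∑ k ∈ range D, f k := by
  induction a with
  | zero => simp
  | succ a ih =>
    rw [← ih]
    have h1 := sum_range_succ (fun k => f (a + k)) D
    have h2 := sum_range_succ' (fun k => f (a + k)) D
    rw [h1, hf] at h2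
    have h3 : ∑ k ∈ range D, f (a + (k + 1)) = ∑ k ∈ range D, f (a + 1 + k) :=
      sum_congr rfl fun k _ => by rw [show a + (k + 1) = a + 1 + k by omega]
    rw [h3] at h2
    simp only [Nat.add_zero] at h2
    linarith

private lemma long_sum {f : ℕ → ℝ} {D : ℕ} (hf : ∀ n, f (n + D) = f n) (a q r : ℕ) :
    ∑ k ∈ range (D * q + r), f (a + k) =
      q * ∑ k ∈ range D, f k + ∑ k ∈ range r, f (a + D * q + k) := by
  rw [sum_range_add]
  congr 1
  · induction q with
    | zero => simp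
    | succ q ih =>
      rw [Nat.mul_succ, sum_range_add, ih]
      have h1 : ∑ x ∈ range D, f (a + (D * q + x)) = ∑ k ∈ range D, f k := by
        rw [← shift_sum hf (a + D * q)]
        exact sum_congr rfl fun k _ => by rw [Nat.add_assoc]
      rw [h1]
      push_cast
      ring
  · exact sum_congr rfl fun k _ => by rw [Nat.add_assoc]

private lemma count_periodic {f : ℕ → ℝ} {D : ℕ} (hD : 0 < D) (hf : ∀ n, f (n + D) = f n)
    (hf0 : ∀ n, 0 ≤ f n) (N H : ℕ) :
    |∑ n ∈ Ioc N (N + H), f n - H * ((∑ k ∈ range D, f k) / D)| ≤ ∑ k ∈ range D, f k := by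
  have e1 : ∑ n ∈ Ioc N (N + H), f n = ∑ k ∈ range H, f (N + 1 + k) := by
    induction H with
    | zero => simp
    | succ H ih =>
      rw [← Nat.add_assoc, sum_Ioc_succ_top (by omega), ih, sum_range_succ]
      congr 2
      omega
  have hH : D * (H / D) + H % D = H := Nat.div_add_mod H D
  have e2 := long_sum hf (N + 1) (H / D) (H % D)
  rw [hH] at e2
  rw [e1, e2]
  set T := ∑ k ∈ range D, f k with hT
  have hr : H % D < D := Nat.mod_lt _ hD
  have hR0 : 0 ≤ ∑ k ∈ range (H % D), f (N + 1 + D * (H / D) + k) := sum_nonneg fun k _ => hf0 _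
  have hR1 : ∑ k ∈ range (H % D), f (N + 1 + D * (H / D) + k) ≤ T := by
    rw [hT, ← shift_sum hf (N + 1 + D * (H / D))]
    exact sum_le_sum_of_subset_of_nonneg (range_subset_range.2 hr.le) fun _ _ _ => hf0 _
  have hT0 : 0 ≤ T := sum_nonneg fun k _ => hf0 _
  have hDr : (0 : ℝ) < D := by exact_mod_cast hD
  have hHr : (H : ℝ) = D * (H / D : ℕ) + (H % D : ℕ) := by exact_mod_cast hH.symm
  have e3 : (H : ℝ) * (T / D) = (H / D : ℕ) * T + (H % D : ℕ) / D * T := by
    rw [hHr]
    field_simp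
  have hq0 : 0 ≤ ((H % D : ℕ) : ℝ) / D * T := by positivity
  have hq1 : ((H % D : ℕ) : ℝ) / D * T ≤ T := by
    have : ((H % D : ℕ) : ℝ) / D ≤ 1 := by
      rw [div_le_one hDr]
      exact_mod_cast hr.le
    nlinarith
  rw [e3, abs_le]
  constructor <;> linarith

theorem count_set {x : ℕ → ℕ → ℝ} (hx : Loc x) (S : Finset ℕ) (hS : ∀ i ∈ S, i.Prime) (N H : ℕ) :
    |∑ n ∈ Ioc N (N + H), ∏ i ∈ S, x i n - H * ∏ i ∈ S, (om x i / i)| ≤
      ((∏ i ∈ S, i : ℕ) : ℝ) ^ 2 := by
  have hD : 0 < ∏ i ∈ S, i := prod_pos fun i hi => (hS i hi).pos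
  have hT : ∑ k ∈ range (∏ i ∈ S, i), ∏ i ∈ S, x i k = ∏ i ∈ S, om x i := by
    have h := period_prod (f := fun _ => (1 : ℝ)) (Q := 1) one_pos (fun _ => rfl) hx.per S
      (fun i hi => ⟨hS i hi, fun h => (hS i hi).one_lt.ne' (Nat.dvd_one.1 h)⟩)
    simpa [om] using h
  have h := count_periodic (f := fun n => ∏ i ∈ S, x i n) hD (fun n => prod_periodic hx.per S n)
    (fun n => prod_nonneg fun i _ => by rcases hx.val i n with h | h <;> rw [h]; exact zero_le_one)
    N H
  rw [hT] at h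
  have e : ∏ i ∈ S, (om x i / i) = (∏ i ∈ S, om x i) / ((∏ i ∈ S, i : ℕ) : ℝ) := by
    rw [prod_div_distrib]
    push_cast
    rfl
  rw [e]
  refine h.trans ?_
  push_cast
  rw [← prod_pow]
  exact prod_le_prod (fun i _ => om_nonneg hx i) fun i hi => om_le_sq hx (hS i hi)

end YX49
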