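import Pool.Agent.YX49.LowC
import Pool.Agent.YX49.Cov

/-!
# [YX49-MAINB] The main inequality, bounded `z`

`survivors_small z0` (constants `c`, `C0`) and `cov_upper`: if `C0 x ≤ y` then `c y / log x ≤ C y (L / log x) / l`, `l = log (y/x) ≥ log 2`; so
`l ≤ (C/c) L`. If `y < C0 x` then `l ≤ log C0 ≤ C' L`.
-/

namespace YX49

open Finset

theorem core_small (z0 : ℕ) : ∃ C : ℝ, 0 < C ∧
    ∀ (x g y z : ℕ) (a : ℕ → ℤ) (L : ℝ), 1 ≤ z → z ≤ z0 → C ≤ x → z ≤ x →
    2 * x ≤ y → y ^ 2 ≤ x ^ 3 → 16 * g ≤ y → Covers x g y a → 1 ≤ L → L ≤ Real.log x →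
    ∑ p ∈ La z x a, (1 : ℝ) / p ≤ L / Real.log x →
    Real.log ((y : ℝ) / x) ≤ C * L := by
  obtain ⟨c, C0, hc, hC0, hlow⟩ := survivors_small z0
  obtain ⟨Cc, hCc, hcov⟩ := cov_upper
  have hrp : 0 < Cc / c := by positivity
  refine ⟨C0 + Cc / c + 2, by positivity, ?_⟩
  intro x g y z a L hz hzz0 hCx hzx hxy hyx hgy hcovers hL1 hLx hLa
  have hx1 : (1 : ℝ) < x := by linarith
  have hx1' : 1 < x := by exact_mod_cast hx1
  have hxp : (0 : ℝ) < x := by linarith
  have hlx : 0 < Real.log x := Real.log_pos hx1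
  have hyp : (0 : ℝ) < y := by
    have : 0 < y := by omega
    exact_mod_cast this
  have hyx2 : y ≤ x ^ 2 := by
    by_contra h
    push Not at h
    have h1 : (x ^ 2) ^ 2 < y ^ 2 := Nat.pow_lt_pow_left h (by norm_num)
    have h2 : x ^ 3 ≤ (x ^ 2) ^ 2 := by
      rw [← pow_mul]
      exact Nat.pow_le_pow_right (by omega) (by norm_num)
    omega
  have hlp : 0 < Real.log ((y : ℝ) / x) := by
    apply Real.log_pos
    rw [one_lt_div hxp]
    have : 2 * (x : ℝ) ≤ y := by exact_mod_cast hxy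
    linarith
  have hS1 : ∑ p ∈ La z x a, (1 : ℝ) / p ≤ 1 := hLa.trans ((div_le_one hlx).mpr hLx)
  by_cases hcase : C0 * x ≤ y
  · have h1 := hlow x y z a hz hzz0 hzx (by linarith) hcase hyx
    have h2 := hcov x g y z a hxy hyx2 hgy hcovers hS1
    have h3 : c * y / Real.log x ≤ Cc * y * (L / Real.log x) / Real.log ((y : ℝ) / x) := by
      apply (h1.trans h2).trans
      apply div_le_div_of_nonneg_right _ hlp.le
      exact mul_le_mul_of_nonneg_left hLa (by positivity)
    rw [div_le_div_iff₀ hlx hlp] at h3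
    have e1 : Cc * y * (L / Real.log x) * Real.log x = y * (c * (Cc / c * L)) := by
      field_simp
    have e2 : c * y * Real.log ((y : ℝ) / x) = y * (c * Real.log ((y : ℝ) / x)) := by ring
    rw [e1, e2] at h3
    have h4 := le_of_mul_le_mul_left (le_of_mul_le_mul_left h3 hyp) hc
    exact h4.trans (mul_le_mul_of_nonneg_right (by linarith) (by linarith))
  · push Not at hcase
    have h1 : Real.log ((y : ℝ) / x) ≤ Real.log C0 := by
      apply Real.log_le_log (by positivity)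
      rw [div_le_iff₀ hxp]
      exact hcase.le
    have h2 : Real.log C0 ≤ C0 - 1 := Real.log_le_sub_one_of_pos hC0
    have h3 : (C0 + Cc / c + 2) * 1 ≤ (C0 + Cc / c + 2) * L :=
      mul_le_mul_of_nonneg_left hL1 (by positivity)
    linarith

end YX49
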