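import Pool.Agent.YX49.Main
import Pool.Agent.YX49.MainB
import Pool.Agent.YX49.Poly

/-!
# [YX49-FIN] Removing the size conditions

`N = 2 s`. Let `E = sqrt (L log z) + L + log T ≥ 1`, `A` from `poly_bound`, `z0 ≥` the constant `C` of `core_big` and `≥ 2^M`, `X0` large. (1) `x < X0`: `y < X0^A`.
(2) `L > log x`: `y < x^A ≤ exp (A L)`. (3) `Y = g + y`; if `16 g > Y` then `y ≤ 15 g ≤ 15 K x`. (4) `Y < 2 x`: `y ≤ 2 x ≤ x exp 1`. (5) `Y^2 ≤ x^3`: `core_small z0` if
`z ≤ z0`, `core_big` with `T' = max T 2` if `z > z0` (`Ze T' z a ⊆ Ze T z a`, `log T' ≤ log T + L`); then `y ≤ Y ≤ x exp (C E)`. (6) `Y^2 > x^3`: replace `Y` by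
`Y0 = Nat.sqrt (x^3) ≤ Y` (`Y0 ≥ x^(3/2)/2 ≥ 16 K x`), then the same cases give `log (Y0 / x) ≤ C E`, and `log (Y0 / x) ≥ (1/4) log x`, so
`log x ≤ 4 C E` and `y < x^A ≤ exp (4 A C E)`.
-/

namespace YX49

open Finset

/-- the bound for `x < X0`, `L > log x` and the truncated case -/
private theorem via_log {A : ℕ} {x y : ℕ} {t : ℝ} (hx : 2 ≤ x) (hy : y < x ^ A)
    (ht : A * Real.log x ≤ t) : (y : ℝ) ≤ x * Real.exp t := by
  have hx0 : (0 : ℝ) < x := by exact_mod_cast (by omega : 0 < x)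
  have hx1 : (1 : ℝ) ≤ x := by exact_mod_cast (by omega : 1 ≤ x)
  have h1 : (y : ℝ) ≤ (x : ℝ) ^ A := by exact_mod_cast hy.le
  have h2 : (x : ℝ) ^ A = Real.exp (A * Real.log x) := by
    rw [← Real.log_pow, Real.exp_log (by positivity)]
  rw [h2] at h1
  calc (y : ℝ) ≤ Real.exp (A * Real.log x) := h1
    _ ≤ Real.exp t := Real.exp_le_exp.mpr ht
    _ = 1 * Real.exp t := (one_mul _).symm
    _ ≤ x * Real.exp t := mul_le_mul_of_nonneg_right hx1 (Real.exp_pos _).le

theorem half : ∃ N : ℕ, 1 ≤ N ∧ ∀ K : ℝ, ∃ (M : ℕ) (C : ℝ), 0 < C ∧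
    ∀ (x g y T z : ℕ) (a : ℕ → ℤ) (L : ℝ), 2 ≤ x → 1 ≤ T → T ^ M ≤ z → T ≤ z → z ^ N ≤ x →
    (g : ℝ) ≤ K * x → Covers x g (g + y) a → (∀ p : ℕ, p.Prime → p ≤ T → (p : ℤ) ∣ a p) →
    ∑ p ∈ Ze T z a, (1 : ℝ) / p ≤ K → 1 ≤ L →
    ∑ p ∈ La z x a, (1 : ℝ) / p ≤ L / Real.log x →
    (y : ℝ) ≤ x * Real.exp (C * (Real.sqrt (L * Real.log z) + L + Real.log T)) := by
  obtain ⟨s, hs, hbig⟩ := core_big
  refine ⟨2 * s, by omega, fun K => ?_⟩
  obtain ⟨M, C1, hC1, hb⟩ := hbig K
  set z0 : ℕ := max ⌈C1⌉₊ (2 ^ M) with hz0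
  obtain ⟨C2, hC2, hsm⟩ := core_small z0
  obtain ⟨A, hA⟩ := poly_bound
  set C3 : ℝ := 2 * C1 + C2 with hC3
  have hC30 : 0 < C3 := by positivity
  set X0 : ℕ := ⌈C1⌉₊ + ⌈C2⌉₊ + ⌈256 * K ^ 2⌉₊ + 16 with hX0
  have hX01 : (1 : ℝ) ≤ X0 := by
    have : 1 ≤ X0 := by omega
    exact_mod_cast this
  have hlX0 : 0 ≤ Real.log X0 := Real.log_nonneg hX01
  refine ⟨M, A * Real.log X0 + A + 15 * |K| + 2 + C3 + 4 * A * C3, by positivity, ?_⟩
  intro x g y T z a L hx hT hTM hTz hzN hg hcov hTa hZe hL hLa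
  set C : ℝ := A * Real.log X0 + A + 15 * |K| + 2 + C3 + 4 * A * C3 with hC
  set E : ℝ := Real.sqrt (L * Real.log z) + L + Real.log T with hE
  have hx0 : (0 : ℝ) < x := by exact_mod_cast (by omega : 0 < x)
  have hx2 : (2 : ℝ) ≤ x := by exact_mod_cast hx
  have hlx : 0 < Real.log x := Real.log_pos (by linarith)
  have hlT : 0 ≤ Real.log T := Real.log_nonneg (by exact_mod_cast hT)
  have hsq : 0 ≤ Real.sqrt (L * Real.log z) := Real.sqrt_nonneg _
  have hEL : L ≤ E := by rw [hE]; linarith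
  have hE1 : 1 ≤ E := hL.trans hEL
  have hypoly : y < x ^ A := hA x g y a hx hcov
  have hA0 : (0 : ℝ) ≤ A := Nat.cast_nonneg A
  have hAC : 0 ≤ 4 * A * C3 := by positivity
  have hK0 : 0 ≤ 15 * |K| := by positivity
  have hAl : 0 ≤ A * Real.log X0 := by positivity
  -- small `x`
  rcases Nat.lt_or_ge x X0 with hxX | hxX
  · refine via_log hx hypoly ?_
    have h1 : Real.log x ≤ Real.log X0 := Real.log_le_log hx0 (by exact_mod_cast hxX.le)
    calc A * Real.log x ≤ A * Real.log X0 := mul_le_mul_of_nonneg_left h1 hA0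
      _ ≤ C := by rw [hC]; linarith
      _ = C * 1 := (mul_one _).symm
      _ ≤ C * E := mul_le_mul_of_nonneg_left hE1 (by rw [hC]; positivity)
  have hC0 : 0 ≤ C := by rw [hC]; positivity
  -- large `L`
  rcases lt_or_ge (Real.log x) L with hLx | hLx
  · refine via_log hx hypoly ?_
    calc A * Real.log x ≤ A * E := mul_le_mul_of_nonneg_left (by linarith) hA0
      _ ≤ C * E := mul_le_mul_of_nonneg_right (by rw [hC]; linarith) (by linarith)
  -- large shift
  rcases Nat.lt_or_ge (g + y) (16 * g) with hgy | hgy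
  · have h1 : (y : ℝ) ≤ 15 * g := by
      have : y ≤ 15 * g := by omega
      exact_mod_cast this
    have h2 : K ≤ |K| := le_abs_self K
    calc (y : ℝ) ≤ 15 * g := h1
      _ ≤ 15 * (K * x) := by linarith
      _ = x * (15 * K) := by ring
      _ ≤ x * Real.exp (C * E) := by
          apply mul_le_mul_of_nonneg_left _ hx0.le
          have h3 : C * E + 1 ≤ Real.exp (C * E) := Real.add_one_le_exp _
          have h4 : C * 1 ≤ C * E := mul_le_mul_of_nonneg_left hE1 hC0
          have h5 : 15 * |K| ≤ C := by rw [hC]; linarith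
          linarith
  -- short interval
  rcases Nat.lt_or_ge (g + y) (2 * x) with hyx | hyx
  · have h1 : (y : ℝ) ≤ 2 * x := by
      have : y ≤ 2 * x := by omega
      exact_mod_cast this
    calc (y : ℝ) ≤ 2 * x := h1
      _ = x * 2 := by ring
      _ ≤ x * Real.exp (C * E) := by
          apply mul_le_mul_of_nonneg_left _ hx0.le
          have h3 : C * E + 1 ≤ Real.exp (C * E) := Real.add_one_le_exp _
          have h4 : C * 1 ≤ C * E := mul_le_mul_of_nonneg_left hE1 hC0
          have h5 : 2 ≤ C := by rw [hC]; linarith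
          linarith
  -- the sizes
  have hxC1 : C1 ≤ x := by
    have h1 : ⌈C1⌉₊ ≤ x := by omega
    exact (Nat.le_ceil C1).trans (by exact_mod_cast h1)
  have hxC2 : C2 ≤ x := by
    have h1 : ⌈C2⌉₊ ≤ x := by omega
    exact (Nat.le_ceil C2).trans (by exact_mod_cast h1)
  have hxK : 256 * K ^ 2 ≤ x := by
    have h1 : ⌈256 * K ^ 2⌉₊ ≤ x := by omega
    exact (Nat.le_ceil (256 * K ^ 2)).trans (by exact_mod_cast h1)
  have hx16 : 16 ≤ x := by omega
  have hz1 : 1 ≤ z := hT.trans hTz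
  have hzx : z ≤ x := by
    calc z = z ^ 1 := (pow_one z).symm
      _ ≤ z ^ (2 * s) := Nat.pow_le_pow_right hz1 (by omega)
      _ ≤ x := hzN
  -- the core inequality
  have core : ∀ Y : ℕ, 2 * x ≤ Y → Y ^ 2 ≤ x ^ 3 → 16 * g ≤ Y → Covers x g Y a →
      Real.log ((Y : ℝ) / x) ≤ C3 * E := by
    intro Y hY1 hY2 hY3 hY4
    rcases Nat.lt_or_ge z0 z with hz | hz
    · have hzC1 : C1 ≤ z := by
        have h1 : ⌈C1⌉₊ ≤ z := by
          have := le_max_left ⌈C1⌉₊ (2 ^ M)
          omega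
        exact (Nat.le_ceil C1).trans (by exact_mod_cast h1)
      have h2M : 2 ^ M ≤ z := by
        have := le_max_right ⌈C1⌉₊ (2 ^ M)
        omega
      have hz2 : 2 ≤ z := by
        have h1 : 1 ≤ 2 ^ M := Nat.one_le_two_pow
        have := le_max_right ⌈C1⌉₊ (2 ^ M)
        omega
      have h1 := hb x g Y (max T 2) z a L (le_max_right _ _) (by
          rcases Nat.lt_or_ge T 2 with h | h
          · rw [max_eq_right h.le]; exact h2M
          · rw [max_eq_left h]; exact hTM) hzC1 hxC1 (max_le hTz hz2) hzN hY1 hY2 hY3 hY4 (by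
          rcases Nat.lt_or_ge T 2 with h | h
          · left; exact max_eq_right h.le
          · right; rw [max_eq_left h]; exact hTa) (by
          refine le_trans ?_ hZe
          apply sum_le_sum_of_subset_of_nonneg
          · intro p hp
            unfold Ze at hp ⊢
            rw [mem_filter, mem_Ioc] at hp ⊢
            refine ⟨⟨?_, hp.1.2⟩, hp.2⟩
            exact lt_of_le_of_lt (le_max_left _ _) hp.1.1
          · intro p _ _
            positivity) hL hLx hLa
      refine h1.trans ?_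
      have h3 : Real.log ((max T 2 : ℕ) : ℝ) ≤ Real.log T + L := by
        have hT0 : (0 : ℝ) < T := by exact_mod_cast hT
        have hT1 : (1 : ℝ) ≤ T := by exact_mod_cast hT
        have h4 : Real.log ((max T 2 : ℕ) : ℝ) ≤ Real.log (T * 2) := by
          apply Real.log_le_log
          · have : 0 < max T 2 := by omega
            exact_mod_cast this
          · push_cast
            rw [max_le_iff]
            constructor <;> linarith
        rw [Real.log_mul hT0.ne' (by norm_num)] at h4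
        have h5 : Real.log 2 ≤ 1 := by
          have := Real.log_two_lt_d9
          linarith
        linarith
      have h6 : Real.sqrt (L * Real.log z) + L + Real.log ((max T 2 : ℕ) : ℝ) ≤ 2 * E := by
        rw [hE]; linarith
      calc C1 * (Real.sqrt (L * Real.log z) + L + Real.log ((max T 2 : ℕ) : ℝ))
          ≤ C1 * (2 * E) := mul_le_mul_of_nonneg_left h6 hC1.le
        _ ≤ C3 * E := by
            rw [hC3]
            nlinarith
    · have h1 := hsm x g Y z a L hz1 hz hxC2 hzx hY1 hY2 hY3 hY4 hL hLx hLa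
      refine h1.trans ?_
      calc C2 * L ≤ C2 * E := mul_le_mul_of_nonneg_left hEL hC2.le
        _ ≤ C3 * E := mul_le_mul_of_nonneg_right (by rw [hC3]; linarith) (by linarith)
  rcases Nat.lt_or_ge (x ^ 3) ((g + y) ^ 2) with hY | hY
  · -- truncation
    set Y0 := Nat.sqrt (x ^ 3) with hY0
    have h1 : Y0 ^ 2 ≤ x ^ 3 := Nat.sqrt_le' _
    have h2 : x ^ 3 < (Y0 + 1) ^ 2 := Nat.lt_succ_sqrt' _
    have h3 : 2 * x ≤ Y0 := by
      rw [hY0, Nat.le_sqrt']
      nlinarith [Nat.pos_of_ne_zero (by omega : x ≠ 0)]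
    have h4 : 16 * g ≤ Y0 := by
      rw [hY0, Nat.le_sqrt']
      have h5 : (16 * (g : ℝ)) ^ 2 ≤ (x : ℝ) ^ 3 := by
        have h6 : (0 : ℝ) ≤ g := Nat.cast_nonneg g
        have h7 : (g : ℝ) ^ 2 ≤ (K * x) ^ 2 := by
          exact pow_le_pow_left₀ h6 hg 2
        calc (16 * (g : ℝ)) ^ 2 = 256 * (g : ℝ) ^ 2 := by ring
          _ ≤ 256 * (K * x) ^ 2 := by linarith
          _ = (256 * K ^ 2) * (x : ℝ) ^ 2 := by ring
          _ ≤ x * (x : ℝ) ^ 2 := mul_le_mul_of_nonneg_right hxK (by positivity)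
          _ = (x : ℝ) ^ 3 := by ring
      exact_mod_cast h5
    have h5 : Y0 ≤ g + y := by
      have : Y0 ^ 2 < (g + y) ^ 2 := lt_of_le_of_lt h1 hY
      exact (lt_of_pow_lt_pow_left₀ 2 (Nat.zero_le _) this).le
    have h6 := core Y0 h3 h1 h4 (fun m hm hm2 => hcov m hm (hm2.trans h5))
    have hY00 : (0 : ℝ) < Y0 := by
      have : 0 < Y0 := by omega
      exact_mod_cast this
    have h7 : 1 / 4 * Real.log x ≤ Real.log ((Y0 : ℝ) / x) := by
      have h8 : (x : ℝ) ^ 3 ≤ (2 * Y0) ^ 2 := by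
        have h9 : x ^ 3 ≤ (2 * Y0) ^ 2 := by
          refine h2.le.trans ?_
          apply Nat.pow_le_pow_left
          omega
        exact_mod_cast h9
      have h9 : Real.log ((x : ℝ) ^ 3) ≤ Real.log ((2 * (Y0 : ℝ)) ^ 2) :=
        Real.log_le_log (by positivity) h8
      rw [Real.log_pow, Real.log_pow, Real.log_mul (by norm_num) hY00.ne'] at h9
      push_cast at h9
      rw [Real.log_div hY00.ne' hx0.ne']
      have h10 : 4 * Real.log 2 ≤ Real.log x := by
        have e : 4 * Real.log 2 = Real.log ((2 : ℝ) ^ 4) := by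
          rw [Real.log_pow]; norm_num
        rw [e]
        apply Real.log_le_log (by norm_num)
        have : (16 : ℝ) ≤ x := by exact_mod_cast hx16
        norm_num
        linarith
      linarith
    refine via_log hx hypoly ?_
    have h8 : Real.log x ≤ 4 * (C3 * E) := by linarith
    calc A * Real.log x ≤ A * (4 * (C3 * E)) := mul_le_mul_of_nonneg_left h8 hA0
      _ = (4 * A * C3) * E := by ring
      _ ≤ C * E := mul_le_mul_of_nonneg_right (by rw [hC]; linarith) (by linarith)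
  · have h1 := core (g + y) hyx hY hgy hcov
    have hgy0 : (0 : ℝ) < ((g + y : ℕ) : ℝ) := by
      have : 0 < g + y := by omega
      exact_mod_cast this
    rw [Real.log_le_iff_le_exp (by positivity), div_le_iff₀ hx0] at h1
    have h2 : (y : ℝ) ≤ ((g + y : ℕ) : ℝ) := by
      push_cast
      have : (0 : ℝ) ≤ g := Nat.cast_nonneg g
      linarith
    calc (y : ℝ) ≤ ((g + y : ℕ) : ℝ) := h2
      _ ≤ Real.exp (C3 * E) * x := h1
      _ = x * Real.exp (C3 * E) := by ring
      _ ≤ x * Real.exp (C * E) := by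
          apply mul_le_mul_of_nonneg_left _ hx0.le
          apply Real.exp_le_exp.mpr
          exact mul_le_mul_of_nonneg_right (by rw [hC]; linarith) (by linarith)

end YX49
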