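import Pool.Agent.YX49.Fin

/-!
# [YX49-FIN2] General common class

`N`, and `M`, `C` from `half` for the constant `max K 0`. If `c ≤ 0` then `half` with `g = -c`, `a' p = a p - c`; if `c > y` reflect: `m ↦ y + 1 - m`,
`g = c - (y + 1)`, `a' p = c - a p` (so that `m' = m + g` satisfies: `y + 1 - m ≡ a p` iff `m' ≡ c - a p`); otherwise `1 ≤ c ≤ y`: the intervals
`(c, y]` (`a' p = a p - c`, `g = 0`) and `[1, c)` (`a' p = c - a p`, `g = 0`); `y = y1 + y2 + 1`, and `2 exp (C E) + 1 ≤ exp ((C + 2) E)` since `E ≥ 1`.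
The sets `Ze`, `La` for `c - a p` and for `a p - c` are equal (`dvd_sub_comm`).
-/

namespace YX49

open Finset

theorem ze_congr {T z : ℕ} {a b : ℕ → ℤ} (h : ∀ p : ℕ, (p : ℤ) ∣ a p ↔ (p : ℤ) ∣ b p) :
    Ze T z a = Ze T z b := by
  classical
  unfold Ze
  apply filter_congr
  intro p _
  rw [h p]

theorem la_congr {z x : ℕ} {a b : ℕ → ℤ} (h : ∀ p : ℕ, (p : ℤ) ∣ a p ↔ (p : ℤ) ∣ b p) :
    La z x a = La z x b := by
  classical
  unfold La
  apply filter_congr
  intro p _
  rw [h p]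

theorem covers_shift {x y g y' : ℕ} {a : ℕ → ℤ} {c : ℤ} (h : Covers x 0 y a)
    (h1 : 0 ≤ g + c) (h2 : g + y' + c ≤ y) :
    Covers x g (g + y') (fun p => a p - c) := by
  intro m hm1 hm2
  obtain ⟨p, hp, hpx, hpm⟩ := h (m + c).toNat (by omega) (by omega)
  refine ⟨p, hp, hpx, ?_⟩
  have e : (((m + c).toNat : ℕ) : ℤ) = m + c := Int.toNat_of_nonneg (by omega)
  rw [e] at hpm
  have := hpm.sub_right c
  simpa using this

theorem covers_refl {x y g y' : ℕ} {a : ℕ → ℤ} {c : ℤ} (h : Covers x 0 y a)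
    (h1 : c ≤ y + g + 1) (h2 : g + y' < c) :
    Covers x g (g + y') (fun p => c - a p) := by
  intro m hm1 hm2
  obtain ⟨p, hp, hpx, hpm⟩ := h (c - m).toNat (by omega) (by omega)
  refine ⟨p, hp, hpx, ?_⟩
  have e : (((c - m).toNat : ℕ) : ℤ) = c - m := Int.toNat_of_nonneg (by omega)
  rw [e] at hpm
  have := Int.ModEq.sub_left c hpm
  simpa using this

theorem final : ∃ N : ℕ, 1 ≤ N ∧ ∀ K : ℝ, ∃ (M : ℕ) (C : ℝ),
    ∀ (x y T z : ℕ) (a : ℕ → ℤ) (c : ℤ) (L : ℝ), 2 ≤ x → 1 ≤ T → T ^ M ≤ z → T ≤ z → z ^ N ≤ x →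
    -K * x ≤ c → c ≤ y + K * x → Covers x 0 y a →
    (∀ p : ℕ, p.Prime → p ≤ T → (p : ℤ) ∣ a p - c) →
    ∑ p ∈ Ze T z (fun p => a p - c), (1 : ℝ) / p ≤ K → 1 ≤ L →
    ∑ p ∈ La z x (fun p => a p - c), (1 : ℝ) / p ≤ L / Real.log x →
    (y : ℝ) ≤ x * Real.exp (C * (Real.sqrt (L * Real.log z) + L + Real.log T)) := by
  obtain ⟨N, hN, hhalf⟩ := half
  refine ⟨N, hN, fun K => ?_⟩
  obtain ⟨M, C, hC, H⟩ := hhalf (max K 0)
  refine ⟨M, C + 2, ?_⟩
  intro x y T z a c L hx hT hTM hTz hzx hc1 hc2 hcov hTa hK hL hLa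
  set E : ℝ := Real.sqrt (L * Real.log z) + L + Real.log T with hE
  have hE1 : 1 ≤ E := by
    have h1 := Real.sqrt_nonneg (L * Real.log z)
    have h2 : 0 ≤ Real.log T := Real.log_natCast_nonneg T
    linarith
  have hx0 : (0 : ℝ) < x := by
    have : 0 < x := by omega
    exact_mod_cast this
  have hKx : K * x ≤ max K 0 * x := mul_le_mul_of_nonneg_right (le_max_left _ _) hx0.le
  have key : ∀ (g y' : ℕ) (a' : ℕ → ℤ), (∀ p : ℕ, (p : ℤ) ∣ a' p ↔ (p : ℤ) ∣ a p - c) →
      (g : ℝ) ≤ max K 0 * x → Covers x g (g + y') a' → (y' : ℝ) ≤ x * Real.exp (C * E) := by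
    intro g y' a' ha' hg hcov'
    apply H x g y' T z a' L hx hT hTM hTz hzx hg hcov'
    · intro p hp hpT
      exact (ha' p).mpr (hTa p hp hpT)
    · rw [ze_congr (b := fun p => a p - c) ha']
      exact hK.trans (le_max_left _ _)
    · exact hL
    · rw [la_congr (b := fun p => a p - c) ha']
      exact hLa
  have hmono : x * Real.exp (C * E) ≤ x * Real.exp ((C + 2) * E) := by
    apply mul_le_mul_of_nonneg_left _ hx0.le
    apply Real.exp_le_exp.mpr
    nlinarith
  have hdvd1 : ∀ p : ℕ, (p : ℤ) ∣ (fun p : ℕ => a p - c) p ↔ (p : ℤ) ∣ a p - c := fun p => Iff.rfl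
  have hdvd2 : ∀ p : ℕ, (p : ℤ) ∣ (fun p : ℕ => c - a p) p ↔ (p : ℤ) ∣ a p - c :=
    fun p => dvd_sub_comm
  have hzero : ((0 : ℕ) : ℝ) ≤ max K 0 * x := by
    rw [Nat.cast_zero]
    exact mul_nonneg (le_max_right _ _) hx0.le
  rcases le_or_gt c 0 with hc | hc
  · -- `c ≤ 0`
    refine (key (-c).toNat y (fun p => a p - c) hdvd1 ?_ ?_).trans hmono
    · have e : (((-c).toNat : ℕ) : ℤ) = -c := Int.toNat_of_nonneg (by omega)
      have e' : (((-c).toNat : ℕ) : ℝ) = -(c : ℝ) := by exact_mod_cast congrArg (Int.cast (R := ℝ)) e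
      rw [e']
      linarith
    · apply covers_shift hcov <;> omega
  · rcases lt_or_ge (y : ℤ) c with hcy | hcy
    · -- `c > y`
      refine (key (c - (y + 1)).toNat y (fun p => c - a p) hdvd2 ?_ ?_).trans hmono
      · have e : (((c - (y + 1)).toNat : ℕ) : ℤ) = c - (y + 1) := Int.toNat_of_nonneg (by omega)
        have e' : (((c - (y + 1)).toNat : ℕ) : ℝ) = (c : ℝ) - (y + 1) := by
          exact_mod_cast congrArg (Int.cast (R := ℝ)) e
        rw [e']
        linarith
      · apply covers_refl hcov <;> omega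
    · -- `1 ≤ c ≤ y`
      have h1 := key 0 (y - c).toNat (fun p => a p - c) hdvd1 hzero
        (by apply covers_shift hcov <;> omega)
      have h2 := key 0 (c - 1).toNat (fun p => c - a p) hdvd2 hzero
        (by apply covers_refl hcov <;> omega)
      have e : y = (y - c).toNat + (c - 1).toNat + 1 := by omega
      have e' : (y : ℝ) = ((y - c).toNat : ℝ) + ((c - 1).toNat : ℝ) + 1 := by exact_mod_cast e
      rw [e']
      have hx1 : (1 : ℝ) ≤ x * Real.exp (C * E) := by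
        have h3 : (1 : ℝ) ≤ x := by
          have : 1 ≤ x := by omega
          exact_mod_cast this
        have h4 : 1 ≤ Real.exp (C * E) := Real.one_le_exp (by positivity)
        nlinarith
      have h3 : Real.exp ((C + 2) * E) = Real.exp (C * E) * Real.exp (2 * E) := by
        rw [← Real.exp_add]
        ring_nf
      have h4 : 3 ≤ Real.exp (2 * E) := by
        have := Real.add_one_le_exp (2 * E)
        linarith
      have h5 : 3 * (x * Real.exp (C * E)) ≤ x * Real.exp ((C + 2) * E) := by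
        rw [h3]
        have h6 : 0 < x * Real.exp (C * E) := by positivity
        calc 3 * (x * Real.exp (C * E)) ≤ Real.exp (2 * E) * (x * Real.exp (C * E)) :=
              mul_le_mul_of_nonneg_right h4 h6.le
          _ = _ := by ring
      linarith

end YX49
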