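import Pool.Agent.YX49.MassA
import Pool.Agent.YX49.Num1

/-!
# [YX49-MASS] Many dyadic intervals contain many integers without prime factors in `Z0`

`mass`: `∏_{l ∈ Z0} (1 - 1/l) ≥ ∏_{l ∈ prs T} (1 - 1/l) * exp (-2 K) ≥ c exp (-2K) / log T` (`mert_lower`, `1 - 1/l ≥ exp (-2/l)`), `free_sum` and
`∑_{n ≤ 2^I} 1/n ≥ I / 2` give `∑_{i < I} |F_i| / 2^i ≥ κ1 I / log T - 1`, `F_i` the free integers of `(2^i, 2^(i+1)]`
(`{1} ∪` dyadic intervals). Also `|F_i| ≤ C2 2^i / log T` (`rough_upper` if `prs T ⊆ Z0`; trivial if `T = 2`). Let `G` be the set of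
the good `i` in the statement: `κ1 I / log T - 1 ≤ (C2 i0 + C2 |G| + κ I) / log T`; take
`κ = κ1 / (4 (1 + C2))`.
-/

namespace YX49

open Finset

theorem mass_split (I : ℕ) : Ioc 0 (2 ^ (I + 1)) = Ioc 0 (2 ^ I) ∪ Ioc (2 ^ I) (2 * 2 ^ I) := by
  ext n
  rw [mem_union, mem_Ioc, mem_Ioc, mem_Ioc, pow_succ]
  have : 0 < 2 ^ I := by positivity
  omega

theorem mass_disj (I : ℕ) : Disjoint (Ioc 0 (2 ^ I)) (Ioc (2 ^ I) (2 * 2 ^ I)) := by
  rw [Finset.disjoint_left]
  intro n h1 h2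
  rw [mem_Ioc] at h1 h2
  omega

theorem mass_dyadic (P : ℕ → Prop) [DecidablePred P] (I : ℕ) :
    ∑ n ∈ (Ioc 0 (2 ^ I)).filter P, (1 : ℝ) / n ≤
      1 + ∑ i ∈ range I, (((Ioc (2 ^ i) (2 * 2 ^ i)).filter P).card : ℝ) / 2 ^ i := by
  induction I with
  | zero =>
    rw [range_zero, sum_empty, add_zero]
    have h1 : (Ioc 0 (2 ^ 0)).filter P ⊆ {1} := by
      intro n hn
      rw [mem_filter, mem_Ioc] at hn
      rw [mem_singleton]
      have := hn.1
      norm_num at this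
      omega
    calc ∑ n ∈ (Ioc 0 (2 ^ 0)).filter P, (1 : ℝ) / n ≤ ∑ n ∈ ({1} : Finset ℕ), (1 : ℝ) / n :=
          sum_le_sum_of_subset_of_nonneg h1 (fun n _ _ => by positivity)
      _ = 1 := by simp
  | succ I ih =>
    rw [mass_split, filter_union, sum_union, sum_range_succ]
    · have h : ∑ n ∈ (Ioc (2 ^ I) (2 * 2 ^ I)).filter P, (1 : ℝ) / n ≤
          (((Ioc (2 ^ I) (2 * 2 ^ I)).filter P).card : ℝ) / 2 ^ I := by
        calc ∑ n ∈ (Ioc (2 ^ I) (2 * 2 ^ I)).filter P, (1 : ℝ) / n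
            ≤ ∑ n ∈ (Ioc (2 ^ I) (2 * 2 ^ I)).filter P, (1 : ℝ) / 2 ^ I := by
              apply sum_le_sum
              intro n hn
              rw [mem_filter, mem_Ioc] at hn
              have h2 : ((2 : ℝ) ^ I) ≤ n := by
                have := hn.1.1.le
                exact_mod_cast this
              exact one_div_le_one_div_of_le (by positivity) h2
          _ = (((Ioc (2 ^ I) (2 * 2 ^ I)).filter P).card : ℝ) / 2 ^ I := by
              rw [sum_const, nsmul_eq_mul]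
              ring
      linarith
    · exact Finset.disjoint_of_subset_left (filter_subset _ _)
        (Finset.disjoint_of_subset_right (filter_subset _ _) (mass_disj I))

theorem mass_harm (I : ℕ) : (I : ℝ) / 2 ≤ ∑ n ∈ Ioc (0 : ℕ) (2 ^ I), (1 : ℝ) / n := by
  induction I with
  | zero =>
    have : (0 : ℝ) ≤ ∑ n ∈ Ioc (0 : ℕ) (2 ^ 0), (1 : ℝ) / n := sum_nonneg (fun n _ => by positivity)
    simpa using this
  | succ I ih =>
    rw [mass_split, sum_union (mass_disj I)]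
    have h : (1 : ℝ) / 2 ≤ ∑ n ∈ Ioc (2 ^ I : ℕ) (2 * 2 ^ I), (1 : ℝ) / n := by
      calc (1 : ℝ) / 2 = ∑ n ∈ Ioc (2 ^ I : ℕ) (2 * 2 ^ I), (1 : ℝ) / (2 * 2 ^ I) := by
            rw [sum_const, Nat.card_Ioc, nsmul_eq_mul]
            have h1 : 2 * 2 ^ I - 2 ^ I = 2 ^ I := by omega
            rw [h1]
            push_cast
            field_simp
        _ ≤ ∑ n ∈ Ioc (2 ^ I : ℕ) (2 * 2 ^ I), (1 : ℝ) / n := by
            apply sum_le_sum
            intro n hn
            rw [mem_Ioc] at hn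
            have h0 : 0 < n := lt_of_le_of_lt (Nat.zero_le _) hn.1
            have h2 : (n : ℝ) ≤ 2 * 2 ^ I := by exact_mod_cast hn.2
            exact one_div_le_one_div_of_le (by exact_mod_cast h0) h2
    push_cast
    linarith

theorem mass_exp {t : ℝ} (h0 : 0 ≤ t) (h1 : t ≤ 1 / 2) : Real.exp (-(2 * t)) ≤ 1 - t := by
  have hp : 0 < 1 - t := by linarith
  have h := Real.one_sub_inv_le_log_of_pos hp
  have h2 : -(2 * t) ≤ 1 - (1 - t)⁻¹ := by
    have h3 : (1 - t)⁻¹ * (1 - t) = 1 := inv_mul_cancel₀ hp.ne'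
    have h4 : (1 - t)⁻¹ ≤ 2 := by
      rw [inv_le_comm₀ hp (by norm_num)]
      linarith
    have h5 : (1 - t)⁻¹ = 1 + t * (1 - t)⁻¹ := by linarith
    nlinarith
  calc Real.exp (-(2 * t)) ≤ Real.exp (Real.log (1 - t)) := Real.exp_le_exp.mpr (h2.trans h)
    _ = 1 - t := Real.exp_log hp

theorem mass_prod {Z : Finset ℕ} (hZ : ∀ l ∈ Z, l.Prime) {K : ℝ}
    (hK : ∑ l ∈ Z, (1 : ℝ) / l ≤ K) : Real.exp (-(2 * K)) ≤ ∏ l ∈ Z, (1 - 1 / (l : ℝ)) := by
  calc Real.exp (-(2 * K)) ≤ Real.exp (∑ l ∈ Z, -(2 * (1 / (l : ℝ)))) := by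
        apply Real.exp_le_exp.mpr
        rw [sum_neg_distrib, ← mul_sum]
        linarith
    _ = ∏ l ∈ Z, Real.exp (-(2 * (1 / (l : ℝ)))) := Real.exp_sum _ _
    _ ≤ ∏ l ∈ Z, (1 - 1 / (l : ℝ)) := by
        apply prod_le_prod
        · intro l _
          exact (Real.exp_pos _).le
        · intro l hl
          apply mass_exp
          · positivity
          · have h2 : (2 : ℝ) ≤ l := by exact_mod_cast (hZ l hl).two_le
            exact one_div_le_one_div_of_le (by norm_num) h2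

theorem mass_low {T : ℕ} {Z0 : Finset ℕ} (hZ : ∀ l ∈ Z0, l.Prime) {K c : ℝ}
    (hK : ∑ l ∈ Z0.filter (fun l => T < l), (1 : ℝ) / l ≤ K)
    (hc : 0 ≤ c) (hT : c ≤ ∏ l ∈ prs T, (1 - 1 / (l : ℝ))) :
    c * Real.exp (-(2 * K)) ≤ ∏ l ∈ Z0, (1 - 1 / (l : ℝ)) := by
  have h0 : ∀ l : ℕ, l.Prime → 0 ≤ 1 - 1 / (l : ℝ) := by
    intro l hl
    have h2 : (1 : ℝ) ≤ l := by exact_mod_cast hl.one_le
    have := (div_le_one (by linarith)).mpr h2
    linarith
  have h1 : ∀ l : ℕ, 1 - 1 / (l : ℝ) ≤ 1 := by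
    intro l
    have : 0 ≤ 1 / (l : ℝ) := by positivity
    linarith
  rw [← prod_filter_mul_prod_filter_not Z0 (fun l => T < l), mul_comm c]
  apply mul_le_mul
  · apply mass_prod _ hK
    intro l hl
    exact hZ l (mem_filter.mp hl).1
  · have hsub : Z0.filter (fun l => ¬ T < l) ⊆ prs T := by
      intro l hl
      rw [mem_filter] at hl
      rw [mem_prs]
      exact ⟨hZ l hl.1, not_lt.mp hl.2⟩
    apply hT.trans
    rw [← prod_sdiff hsub]
    apply mul_le_of_le_one_left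
    · apply prod_nonneg
      intro l hl
      exact h0 l (mem_prs.mp (hsub hl)).1
    · apply prod_le_one
      · intro l hl
        exact h0 l (mem_prs.mp (mem_sdiff.mp hl).1).1
      · intro l _
        exact h1 l
  · exact hc
  · apply prod_nonneg
    intro l hl
    exact h0 l (hZ l (mem_filter.mp hl).1)

theorem mass (K : ℝ) : ∃ κ : ℝ, 0 < κ ∧ ∀ (T : ℕ) (Z0 : Finset ℕ), 2 ≤ T →
    (∀ l ∈ Z0, l.Prime) → (T = 2 ∨ prs T ⊆ Z0) →
    ∑ l ∈ Z0.filter (fun l => T < l), (1 : ℝ) / l ≤ K →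
    ∀ i0 I : ℕ, ((i0 : ℝ) + Real.log T) / κ ≤ I →
    κ * I ≤ (((Ico i0 I).filter fun i => κ * 2 ^ i / Real.log T ≤
      (((Ioc (2 ^ i) (2 * 2 ^ i)).filter fun u => ∀ l ∈ Z0, ¬ l ∣ u).card : ℝ)).card : ℝ) := by
  obtain ⟨c, hc, hmert⟩ := mert_lower
  obtain ⟨C0, hC0, hrough⟩ := rough_upper
  set C2 : ℝ := max C0 1 with hC2
  have hC2a : C0 ≤ C2 := le_max_left _ _
  have hC2b : 1 ≤ C2 := le_max_right _ _
  set κ1 : ℝ := c * Real.exp (-(2 * K)) / 2 with hκ1
  have hκ1p : 0 < κ1 := by positivity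
  refine ⟨κ1 / (4 * (1 + C2)), by positivity, ?_⟩
  set κ : ℝ := κ1 / (4 * (1 + C2)) with hκ
  have hκp : 0 < κ := by positivity
  have hκe : κ * (4 * (1 + C2)) = κ1 := by
    rw [hκ]
    field_simp
  intro T Z0 hT hZ hTZ hK i0 I hI
  have hlogT : 0 < Real.log T := Real.log_pos (by exact_mod_cast (by omega : 1 < T))
  set F : ℕ → Finset ℕ := fun i => (Ioc (2 ^ i) (2 * 2 ^ i)).filter fun u => ∀ l ∈ Z0, ¬ l ∣ u
    with hF
  set G : Finset ℕ := (Ico i0 I).filter fun i => κ * 2 ^ i / Real.log T ≤ ((F i).card : ℝ)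
    with hG
  -- lower bound
  have hlow : κ1 * I / Real.log T ≤ 1 + ∑ i ∈ range I, ((F i).card : ℝ) / 2 ^ i := by
    have h1 := mass_low hZ hK (div_nonneg hc.le hlogT.le) (hmert T hT)
    have h2 := free_sum Z0 hZ (2 ^ I)
    have h3 := mass_dyadic (fun u => ∀ l ∈ Z0, ¬ l ∣ u) I
    have h4 := mass_harm I
    calc κ1 * I / Real.log T = (I : ℝ) / 2 * (c / Real.log T * Real.exp (-(2 * K))) := by
          rw [hκ1]
          ring
      _ ≤ (∑ n ∈ Ioc (0 : ℕ) (2 ^ I), (1 : ℝ) / n) * ∏ l ∈ Z0, (1 - 1 / (l : ℝ)) := by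
          apply mul_le_mul h4 h1
          · positivity
          · exact (by positivity : (0 : ℝ) ≤ (I : ℝ) / 2).trans h4
      _ ≤ _ := h2.trans h3
  -- upper bound for one interval
  have hup : ∀ i, ((F i).card : ℝ) / 2 ^ i ≤ C2 / Real.log T := by
    intro i
    rw [div_le_iff₀ (by positivity)]
    rcases hTZ with rfl | hTZ
    · have h1 : ((F i).card : ℝ) ≤ 2 ^ i := by
        have h2 : (F i).card ≤ (Ioc (2 ^ i) (2 * 2 ^ i)).card := card_le_card (filter_subset _ _)
        rw [Nat.card_Ioc] at h2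
        have h3 : (F i).card ≤ 2 ^ i := by omega
        exact_mod_cast h3
      have h4 : 1 ≤ C2 / Real.log (2 : ℕ) := by
        rw [one_le_div hlogT]
        have : Real.log ((2 : ℕ) : ℝ) ≤ 1 := by
          have := Real.log_two_lt_d9
          push_cast
          linarith
        linarith
      calc ((F i).card : ℝ) ≤ 1 * 2 ^ i := by rw [one_mul]; exact h1
        _ ≤ C2 / Real.log (2 : ℕ) * 2 ^ i := by
            apply mul_le_mul_of_nonneg_right h4 (by positivity)
    · have h1 := hrough T (2 ^ i) hT Nat.one_le_two_pow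
      have h2 : ((F i).card : ℝ) ≤
          (((Ioc (2 ^ i) (2 * 2 ^ i)).filter fun u => ∀ l ∈ prs T, ¬ l ∣ u).card : ℝ) := by
        have : (F i).card ≤
            ((Ioc (2 ^ i) (2 * 2 ^ i)).filter fun u => ∀ l ∈ prs T, ¬ l ∣ u).card := by
          apply card_le_card
          intro u hu
          rw [hF, mem_filter] at hu
          rw [mem_filter]
          exact ⟨hu.1, fun l hl => hu.2 l (hTZ hl)⟩
        exact_mod_cast this
      calc ((F i).card : ℝ) ≤ C0 * ((2 ^ i : ℕ) : ℝ) / Real.log T := h2.trans h1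
        _ = C0 / Real.log T * 2 ^ i := by push_cast; ring
        _ ≤ C2 / Real.log T * 2 ^ i := by
            apply mul_le_mul_of_nonneg_right _ (by positivity)
            exact div_le_div_of_nonneg_right hC2a hlogT.le
  -- upper bound for the sum
  have hsum : ∑ i ∈ range I, ((F i).card : ℝ) / 2 ^ i ≤
      (C2 * i0 + C2 * G.card + κ * I) / Real.log T := by
    have hcov : range I ⊆ range i0 ∪ (G ∪ (Ico i0 I).filter
        fun i => ¬ κ * 2 ^ i / Real.log T ≤ ((F i).card : ℝ)) := by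
      intro i hi
      rw [mem_range] at hi
      rw [mem_union, mem_union, mem_range, hG, mem_filter, mem_filter, mem_Ico]
      by_cases h1 : i < i0
      · exact Or.inl h1
      · by_cases h2 : κ * 2 ^ i / Real.log T ≤ ((F i).card : ℝ)
        · exact Or.inr (Or.inl ⟨⟨not_lt.mp h1, hi⟩, h2⟩)
        · exact Or.inr (Or.inr ⟨⟨not_lt.mp h1, hi⟩, h2⟩)
    have hnn : ∀ i, 0 ≤ ((F i).card : ℝ) / 2 ^ i := fun i => by positivity
    have e1 : ∑ i ∈ range I, ((F i).card : ℝ) / 2 ^ i ≤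
        ∑ i ∈ range i0 ∪ (G ∪ (Ico i0 I).filter
        fun i => ¬ κ * 2 ^ i / Real.log T ≤ ((F i).card : ℝ)), ((F i).card : ℝ) / 2 ^ i :=
      sum_le_sum_of_subset_of_nonneg hcov (fun i _ _ => hnn i)
    have e2 : ∀ A B : Finset ℕ, ∑ i ∈ A ∪ B, ((F i).card : ℝ) / 2 ^ i ≤
        ∑ i ∈ A, ((F i).card : ℝ) / 2 ^ i + ∑ i ∈ B, ((F i).card : ℝ) / 2 ^ i := by
      intro A B
      have := sum_union_inter (s₁ := A) (s₂ := B) (f := fun i => ((F i).card : ℝ) / 2 ^ i)
      have h0 : 0 ≤ ∑ i ∈ A ∩ B, ((F i).card : ℝ) / 2 ^ i := sum_nonneg (fun i _ => hnn i)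
      linarith
    have e3 := e2 (range i0) (G ∪ (Ico i0 I).filter
        fun i => ¬ κ * 2 ^ i / Real.log T ≤ ((F i).card : ℝ))
    have e4 := e2 G ((Ico i0 I).filter fun i => ¬ κ * 2 ^ i / Real.log T ≤ ((F i).card : ℝ))
    have f1 : ∑ i ∈ range i0, ((F i).card : ℝ) / 2 ^ i ≤ C2 / Real.log T * i0 := by
      calc ∑ i ∈ range i0, ((F i).card : ℝ) / 2 ^ i ≤ ∑ i ∈ range i0, C2 / Real.log T :=
            sum_le_sum (fun i _ => hup i)
        _ = C2 / Real.log T * i0 := by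
            rw [sum_const, card_range, nsmul_eq_mul]
            ring
    have f2 : ∑ i ∈ G, ((F i).card : ℝ) / 2 ^ i ≤ C2 / Real.log T * G.card := by
      calc ∑ i ∈ G, ((F i).card : ℝ) / 2 ^ i ≤ ∑ i ∈ G, C2 / Real.log T :=
            sum_le_sum (fun i _ => hup i)
        _ = C2 / Real.log T * G.card := by
            rw [sum_const, nsmul_eq_mul]
            ring
    have f3 : ∑ i ∈ (Ico i0 I).filter (fun i => ¬ κ * 2 ^ i / Real.log T ≤ ((F i).card : ℝ)),
        ((F i).card : ℝ) / 2 ^ i ≤ κ / Real.log T * I := by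
      calc ∑ i ∈ (Ico i0 I).filter (fun i => ¬ κ * 2 ^ i / Real.log T ≤ ((F i).card : ℝ)),
          ((F i).card : ℝ) / 2 ^ i
          ≤ ∑ i ∈ (Ico i0 I).filter (fun i => ¬ κ * 2 ^ i / Real.log T ≤ ((F i).card : ℝ)),
            κ / Real.log T := by
            apply sum_le_sum
            intro i hi
            rw [mem_filter, not_le] at hi
            rw [div_le_iff₀ (by positivity)]
            calc ((F i).card : ℝ) ≤ κ * 2 ^ i / Real.log T := hi.2.le
              _ = κ / Real.log T * 2 ^ i := by ring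
        _ = κ / Real.log T * (((Ico i0 I).filter
            (fun i => ¬ κ * 2 ^ i / Real.log T ≤ ((F i).card : ℝ))).card : ℝ) := by
            rw [sum_const, nsmul_eq_mul]
            ring
        _ ≤ κ / Real.log T * I := by
            apply mul_le_mul_of_nonneg_left _ (by positivity)
            have h1 : ((Ico i0 I).filter
                (fun i => ¬ κ * 2 ^ i / Real.log T ≤ ((F i).card : ℝ))).card ≤ (Ico i0 I).card :=
              card_le_card (filter_subset _ _)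
            rw [Nat.card_Ico] at h1
            have h2 : ((Ico i0 I).filter
                (fun i => ¬ κ * 2 ^ i / Real.log T ≤ ((F i).card : ℝ))).card ≤ I := by omega
            exact_mod_cast h2
    calc ∑ i ∈ range I, ((F i).card : ℝ) / 2 ^ i
        ≤ C2 / Real.log T * i0 + (C2 / Real.log T * G.card + κ / Real.log T * I) := by linarith
      _ = (C2 * i0 + C2 * G.card + κ * I) / Real.log T := by ring
  have hmain : κ1 * I ≤ Real.log T + (C2 * i0 + C2 * G.card + κ * I) := by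
    have h1 : κ1 * I / Real.log T ≤ 1 + (C2 * i0 + C2 * G.card + κ * I) / Real.log T := by
      linarith
    have h2 : 1 + (C2 * i0 + C2 * G.card + κ * I) / Real.log T =
        (Real.log T + (C2 * i0 + C2 * G.card + κ * I)) / Real.log T := by
      field_simp
    rw [h2, div_le_div_iff_of_pos_right hlogT] at h1
    exact h1
  have hI' : (i0 : ℝ) + Real.log T ≤ κ * I := by
    rw [div_le_iff₀ hκp] at hI
    linarith
  have hi0 : (0 : ℝ) ≤ i0 := Nat.cast_nonneg _
  have h5 : Real.log T + C2 * i0 ≤ C2 * (κ * I) := by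
    calc Real.log T + C2 * i0 ≤ C2 * Real.log T + C2 * i0 := by
          have := mul_le_mul_of_nonneg_right hC2b hlogT.le
          linarith
      _ = C2 * (i0 + Real.log T) := by ring
      _ ≤ C2 * (κ * I) := mul_le_mul_of_nonneg_left hI' (by linarith)
  have hκI : 0 ≤ κ * I := by positivity
  have h6 : C2 * (κ * I) ≤ C2 * G.card := by
    have h7 : κ1 * I = κ * I * (4 * (1 + C2)) := by rw [← hκe]; ring
    nlinarith
  exact le_of_mul_le_mul_left h6 (by linarith)

end YX49
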