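import Pool.Agent.YX49.Box
import Pool.Agent.YX49.Mass

/-!
# [YX49-LOW] Lower bounds for the number of survivors

`exists_inv`: inverse of `q` modulo `l`.
`product_mem`: with `q1 = ∏ l` over the primes `l ≤ R` with `¬ (l : ℤ) ∣ a l`: the three cases `l ∣ a l` (then `l ∤ q1`, `l ∤ p'` as `p' > x ≥ l`,
`l ∤ u`: for `l ≤ z` by `hu0`, for `l > z` because `0 < u ≤ z`), `¬ l ∣ a l` and `l ≤ R` (`l ∣ q1`), `¬ l ∣ a l` and `l > R` (`hav`).
`survivors_lower`: see the header of `LowB.lean`.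
-/

namespace YX49

open Finset

theorem exists_inv {q l : ℕ} (hl : l.Prime) (hq : ¬ l ∣ q) (a : ℤ) :
    ∃ α : ℕ, (∀ m : ℕ, ((q * m : ℕ) : ℤ) ≡ a [ZMOD (l : ℤ)] ↔ m ≡ α [MOD l]) ∧
      (l ∣ α ↔ (l : ℤ) ∣ a) := by
  have : Fact l.Prime := ⟨hl⟩
  have hq0 : (q : ZMod l) ≠ 0 := by
    rw [Ne, ZMod.natCast_eq_zero_iff]
    exact hq
  refine ⟨((q : ZMod l)⁻¹ * (a : ZMod l)).val, fun m => ?_, ?_⟩
  · rw [← ZMod.intCast_eq_intCast_iff, ← ZMod.natCast_eq_natCast_iff, ZMod.natCast_zmod_val]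
    push_cast
    constructor
    · intro h
      rw [← h, ← mul_assoc, inv_mul_cancel₀ hq0, one_mul]
    · intro h
      rw [h, ← mul_assoc, mul_inv_cancel₀ hq0, one_mul]
  · rw [← ZMod.natCast_eq_zero_iff, ZMod.natCast_zmod_val, ← ZMod.intCast_zmod_eq_zero_iff_dvd]
    constructor
    · intro h
      rcases mul_eq_zero.mp h with h | h
      · exact absurd (inv_eq_zero.mp h) hq0
      · exact h
    · intro h
      rw [h, mul_zero]

open Classical in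
/-- product of the small primes whose class is not the class of `0` -/
noncomputable def q1 (R : ℕ) (a : ℕ → ℤ) : ℕ :=
  ∏ l ∈ (prs R).filter (fun l : ℕ => ¬ (l : ℤ) ∣ a l), l

theorem q1_pos (R : ℕ) (a : ℕ → ℤ) : 0 < q1 R a := by
  unfold q1
  refine prod_pos fun l hl => ?_
  exact (mem_prs.mp (mem_filter.mp hl).1).1.pos

theorem q1_le (R : ℕ) (a : ℕ → ℤ) : q1 R a ≤ 4 ^ R := by
  refine le_trans ?_ (primorial_le_four_pow R)
  unfold q1 primorial
  refine prod_le_prod_of_subset_of_one_le' (fun l hl => ?_) (fun l hl _ => ?_)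
  · have h := mem_prs.mp (mem_filter.mp hl).1
    rw [mem_filter, mem_range]
    exact ⟨by omega, h.1⟩
  · exact (mem_filter.mp hl).2.pos

theorem q1_dvd {R : ℕ} {a : ℕ → ℤ} {l : ℕ} (hl : l.Prime) :
    l ∣ q1 R a ↔ l ≤ R ∧ ¬ (l : ℤ) ∣ a l := by
  unfold q1
  rw [hl.prime.dvd_finsetProd_iff]
  constructor
  · rintro ⟨l', hl', hd⟩
    rw [mem_filter, mem_prs] at hl'
    have he : l = l' := (Nat.prime_dvd_prime_iff_eq hl hl'.1.1).mp hd
    subst he
    exact ⟨hl'.1.2, hl'.2⟩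
  · rintro ⟨h1, h2⟩
    exact ⟨l, by rw [mem_filter, mem_prs]; exact ⟨⟨hl, h1⟩, h2⟩, dvd_rfl⟩

theorem product_mem {R x y z u p : ℕ} {a : ℕ → ℤ} (hzx : z ≤ x) (hp : p.Prime) (hpx : x < p)
    (hu : 0 < u) (huz : u ≤ z) (hu0 : ∀ l : ℕ, l.Prime → l ≤ z → (l : ℤ) ∣ a l → ¬ l ∣ u)
    (hav : ∀ l : ℕ, l.Prime → l ≤ z → R < l → ¬ (l : ℤ) ∣ a l →
      ¬ ((q1 R a * (u * p) : ℕ) : ℤ) ≡ a l [ZMOD (l : ℤ)])
    (h1 : y / 16 < q1 R a * (u * p)) (h2 : q1 R a * (u * p) ≤ y) :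
    q1 R a * (u * p) ∈ Sv z x y a := by
  classical
  unfold Sv
  rw [mem_filter, mem_Ioc]
  refine ⟨⟨h1, h2⟩, ?_⟩
  intro l hl hlx hor hcon
  by_cases hd : (l : ℤ) ∣ a l
  · have hm : (l : ℤ) ∣ ((q1 R a * (u * p) : ℕ) : ℤ) := by
      have h3 := (Int.modEq_zero_iff_dvd).mpr hd
      exact (Int.modEq_zero_iff_dvd).mp (hcon.trans h3)
    have hm' : l ∣ q1 R a * (u * p) := Int.natCast_dvd_natCast.mp hm
    rcases hl.dvd_mul.mp hm' with h | h
    · exact ((q1_dvd hl).mp h).2 hd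
    · rcases hl.dvd_mul.mp h with h | h
      · by_cases hlz : l ≤ z
        · exact hu0 l hl hlz hd h
        · have := Nat.le_of_dvd hu h
          omega
      · have := (Nat.prime_dvd_prime_iff_eq hl hp).mp h
        omega
  · have hlz : l ≤ z := by
      rcases hor with h | h
      · exact h
      · exact absurd h hd
    by_cases hR : l ≤ R
    · have h3 : l ∣ q1 R a := (q1_dvd hl).mpr ⟨hR, hd⟩
      have h4 : (l : ℤ) ∣ ((q1 R a * (u * p) : ℕ) : ℤ) :=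
        Int.natCast_dvd_natCast.mpr (Dvd.dvd.mul_right h3 _)
      have h5 := (Int.modEq_zero_iff_dvd).mpr h4
      exact hd ((Int.modEq_zero_iff_dvd).mp (hcon.symm.trans h5))
    · exact hav l hl hlz (by omega) hd hcon

end YX49
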