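import Pool.Agent.YX49.Low

/-!
# [YX49-LOWB] Lower bound for the number of survivors, large `z`

`s` from `box`; given `K` take `κ` from `mass`, then `R`, `C1`, `c1` from `box κ`. `q = q1 R a`, `Z0` = the primes `l ≤ z` with `(l : ℤ) ∣ a l`,
`Q` = the primes `R < l ≤ z` with `T < l` and `¬ (l : ℤ) ∣ a l` (if `¬ l ∣ a l` and `R < l` then `T < l`, by the hypothesis on `T`), `α` from
`exists_inv` (`q` is not divisible by `l ∈ Q`: `q1_dvd`), `Z = ⌊x^(1/(2s))⌋`: `z ≤ Z`, `Z^s ≤ x`, `4 s log Z ≥ 2 log x - 4 s log 2 ≥ (3/2) log x ≥ log y`.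
`I` = the largest integer with `2^I ≤ z` and `8 q x 2^I ≤ y` (`I ≥ min (log (y/x)) (log z) - C`, so `I ≥ min/2`), `i0` minimal with
`C1 log z ≤ 2^i0` (`i0 ≤ 2 log log z + C`). `G` = the good `i ∈ [i0, I)` from `mass` (at least `κ I`), for `i ∈ G`: `V = 2^i`,
`U_i = {u ∈ (V, 2V] free of Z0}`, `P_i = y / (8 q V)` (natural division, `≥ x`, and `P_i V ≥ y / (16 q)` as reals). `box` gives at least
`c1 (P_i / log P_i) (V / log z) ≥ c1 y / (16 q * (3/2) log x * log z)` pairs `(u, p)`, and all `q * (u * p)` are in `Sv z x y a`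
(`product_mem`; `y/16 < q u p` since `u > V`, `p > P_i ≥ y/(16 q V)`; `q u p ≤ q 2V 4P_i ≤ y`); the map `(i, p, u) ↦ q u p` is injective:
`p > x ≥ z ≥ u`, so `p` is determined as a prime factor, then `u`, then `i`.
-/

namespace YX49

open Finset

private theorem comb {R x y z : ℕ} {a : ℕ → ℤ} (hzx : z ≤ x) (α : ℕ → ℕ) (Q : Finset ℕ)
    (hQ : ∀ l : ℕ, l.Prime → l ≤ z → R < l → ¬ (l : ℤ) ∣ a l → l ∈ Q)
    (hα : ∀ l ∈ Q, ∀ m : ℕ, ((q1 R a * m : ℕ) : ℤ) ≡ a l [ZMOD (l : ℤ)] ↔ m ≡ α l [MOD l])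
    (G : Finset ℕ) (P : ℕ → ℕ) (U : ℕ → Finset ℕ)
    (hU : ∀ i ∈ G, U i ⊆ Ioc (2 ^ i) (2 * 2 ^ i))
    (hUz : ∀ i ∈ G, 2 * 2 ^ i ≤ z)
    (hfree : ∀ i ∈ G, ∀ u ∈ U i, ∀ l : ℕ, l.Prime → l ≤ z → (l : ℤ) ∣ a l → ¬ l ∣ u)
    (hP : ∀ i ∈ G, x ≤ P i) (hP1 : ∀ i ∈ G, 8 * q1 R a * 2 ^ i * P i ≤ y)
    (hP2 : ∀ i ∈ G, y ≤ 16 * q1 R a * 2 ^ i * P i) :
    ∑ i ∈ G, ∑ p ∈ (Ioc (P i) (4 * P i)).filter Nat.Prime, NN Q α (U i) p ≤
      ((Sv z x y a).card : ℝ) := by
  classical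
  set S : Finset (Σ _ : ℕ, Σ _ : ℕ, ℕ) := G.sigma (fun i =>
    ((Ioc (P i) (4 * P i)).filter Nat.Prime).sigma
      (fun p => (U i).filter (fun u => ∀ l ∈ Q, ¬ u * p ≡ α l [MOD l]))) with hS
  have hq : 0 < q1 R a := q1_pos R a
  have e1 : ∑ i ∈ G, ∑ p ∈ (Ioc (P i) (4 * P i)).filter Nat.Prime, NN Q α (U i) p
      = (S.card : ℝ) := by
    rw [hS, card_sigma]
    push_cast
    refine sum_congr rfl fun i _ => ?_
    rw [card_sigma]
    push_cast
    refine sum_congr rfl fun p _ => ?_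
    unfold NN
    congr
  rw [e1]
  have key : ∀ w ∈ S, w.1 ∈ G ∧ P w.1 < w.2.1 ∧ w.2.1 ≤ 4 * P w.1 ∧ w.2.1.Prime ∧
      w.2.2 ∈ U w.1 ∧ 2 ^ w.1 < w.2.2 ∧ w.2.2 ≤ 2 * 2 ^ w.1 ∧
      (∀ l ∈ Q, ¬ w.2.2 * w.2.1 ≡ α l [MOD l]) := by
    intro w hw
    rw [hS, mem_sigma, mem_sigma, mem_filter, mem_filter, mem_Ioc] at hw
    obtain ⟨h1, ⟨⟨h2, h3⟩, h4⟩, h5, h6⟩ := hw
    have h7 := hU _ h1 h5
    rw [mem_Ioc] at h7
    exact ⟨h1, h2, h3, h4, h5, h7.1, h7.2, h6⟩
  have hcard : S.card ≤ (Sv z x y a).card := by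
    refine card_le_card_of_injOn (fun w => q1 R a * (w.2.2 * w.2.1)) ?_ ?_
    · intro w hw
      rw [mem_coe] at hw
      obtain ⟨h1, h2, h3, h4, h5, h6, h7, h8⟩ := key w hw
      have hpx : x < w.2.1 := lt_of_le_of_lt (hP _ h1) h2
      have huz : w.2.2 ≤ z := h7.trans (hUz _ h1)
      have hu0 : 0 < w.2.2 := lt_of_le_of_lt (Nat.zero_le _) h6
      refine product_mem hzx h4 hpx hu0 huz (hfree _ h1 _ h5) ?_ ?_ ?_
      · intro l hl hlz hRl hla hc
        have hlQ := hQ l hl hlz hRl hla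
        exact h8 l hlQ ((hα l hlQ _).mp hc)
      · rw [Nat.div_lt_iff_lt_mul (by norm_num)]
        have h9 := hP2 _ h1
        have h10 : 2 ^ w.1 * P w.1 < w.2.2 * w.2.1 :=
          Nat.mul_lt_mul_of_lt_of_le h6 h2.le (by omega)
        calc y ≤ 16 * q1 R a * 2 ^ w.1 * P w.1 := h9
          _ = q1 R a * (2 ^ w.1 * P w.1) * 16 := by ring
          _ < q1 R a * (w.2.2 * w.2.1) * 16 := by
              apply Nat.mul_lt_mul_of_pos_right _ (by norm_num)
              exact Nat.mul_lt_mul_of_pos_left h10 hq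
      · have h9 := hP1 _ h1
        have h10 : w.2.2 * w.2.1 ≤ (2 * 2 ^ w.1) * (4 * P w.1) := Nat.mul_le_mul h7 h3
        calc q1 R a * (w.2.2 * w.2.1) ≤ q1 R a * ((2 * 2 ^ w.1) * (4 * P w.1)) :=
              Nat.mul_le_mul_left _ h10
          _ = 8 * q1 R a * 2 ^ w.1 * P w.1 := by ring
          _ ≤ y := h9
    · intro w hw v hv hwv
      rw [mem_coe] at hw hv
      obtain ⟨h1, h2, h3, h4, h5, h6, h7, h8⟩ := key w hw
      obtain ⟨k1, k2, k3, k4, k5, k6, k7, k8⟩ := key v hv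
      have hwv' : w.2.2 * w.2.1 = v.2.2 * v.2.1 := Nat.eq_of_mul_eq_mul_left hq hwv
      have hpx : x < w.2.1 := lt_of_le_of_lt (hP _ h1) h2
      have hpx' : x < v.2.1 := lt_of_le_of_lt (hP _ k1) k2
      have hvz : v.2.2 ≤ z := k7.trans (hUz _ k1)
      have hv0 : 0 < v.2.2 := lt_of_le_of_lt (Nat.zero_le _) k6
      have hd : w.2.1 ∣ v.2.2 * v.2.1 := by rw [← hwv']; exact dvd_mul_left _ _
      have hp : w.2.1 = v.2.1 := by
        rcases (h4.dvd_mul).mp hd with h | h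
        · exfalso
          have := Nat.le_of_dvd hv0 h
          omega
        · exact (Nat.prime_dvd_prime_iff_eq h4 k4).mp h
      have hu : w.2.2 = v.2.2 := by
        rw [hp] at hwv'
        exact Nat.eq_of_mul_eq_mul_right k4.pos hwv'
      have hi : w.1 = v.1 := by
        rw [hu] at h6 h7
        by_contra hne
        rcases Nat.lt_or_gt_of_ne hne with h | h
        · have : 2 * 2 ^ w.1 ≤ 2 ^ v.1 := by
            rw [← pow_succ']
            exact Nat.pow_le_pow_right (by norm_num) h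
          omega
        · have : 2 * 2 ^ v.1 ≤ 2 ^ w.1 := by
            rw [← pow_succ']
            exact Nat.pow_le_pow_right (by norm_num) h
          omega
      rcases w with ⟨w1, w2, w3⟩
      rcases v with ⟨v1, v2, v3⟩
      simp only at hi hp hu
      subst hi hp hu
      rfl
  exact_mod_cast hcard

/-- the level `Z` -/
private theorem exists_Z {s : ℕ} (hs : 1 ≤ s) {x z : ℕ} (hz : 1 ≤ z) (hx : Real.exp (8 * s) ≤ x)
    (hzx : z ^ (2 * s) ≤ x) : ∃ Z : ℕ, z ≤ Z ∧ Z ^ s ≤ x ∧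
      3 / 2 * Real.log x ≤ 4 * s * Real.log Z := by
  have hx1 : (1 : ℝ) ≤ x := (Real.one_le_exp (by positivity)).trans hx
  have hx0 : (0 : ℝ) < x := by linarith
  have hs' : (1 : ℝ) ≤ s := by exact_mod_cast hs
  have hs2 : (0 : ℝ) < 2 * s := by linarith
  set r : ℝ := (x : ℝ) ^ (1 / (2 * s) : ℝ) with hr
  have hr0 : 0 < r := Real.rpow_pos_of_pos hx0 _
  have hrs : r ^ (2 * s) = x := by
    rw [hr, ← Real.rpow_natCast, ← Real.rpow_mul hx0.le]
    push_cast
    rw [one_div, inv_mul_cancel₀ hs2.ne', Real.rpow_one]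
  have hzr : (z : ℝ) ≤ r := by
    by_contra h
    push Not at h
    have h1 : r ^ (2 * s) < (z : ℝ) ^ (2 * s) := pow_lt_pow_left₀ h hr0.le (by omega)
    rw [hrs] at h1
    have h2 : ((z ^ (2 * s) : ℕ) : ℝ) ≤ x := by exact_mod_cast hzx
    push_cast at h2
    linarith
  refine ⟨⌊r⌋₊, Nat.le_floor hzr, ?_, ?_⟩
  · have h1 : ((⌊r⌋₊ : ℕ) : ℝ) ≤ r := Nat.floor_le hr0.le
    have h2 : 1 ≤ ⌊r⌋₊ := le_trans hz (Nat.le_floor hzr)
    have h3 : ⌊r⌋₊ ^ s ≤ ⌊r⌋₊ ^ (2 * s) := Nat.pow_le_pow_right h2 (by omega)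
    refine h3.trans ?_
    have h4 : ((⌊r⌋₊ : ℕ) : ℝ) ^ (2 * s) ≤ x := by
      rw [← hrs]
      exact pow_le_pow_left₀ (by positivity) h1 _
    exact_mod_cast h4
  · have h2 : 1 ≤ ⌊r⌋₊ := le_trans hz (Nat.le_floor hzr)
    have h3 : r < ⌊r⌋₊ + 1 := Nat.lt_floor_add_one r
    have h4 : (1 : ℝ) ≤ (⌊r⌋₊ : ℕ) := by exact_mod_cast h2
    have h5 : r ≤ 2 * (⌊r⌋₊ : ℕ) := by linarith
    have h6 : Real.log r ≤ Real.log 2 + Real.log (⌊r⌋₊ : ℕ) := by
      rw [← Real.log_mul (by norm_num) (by positivity)]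
      exact Real.log_le_log hr0 h5
    have h7 : Real.log r = Real.log x / (2 * s) := by
      rw [hr, Real.log_rpow hx0]; ring
    have h8 : Real.log 2 ≤ 1 := by
      have := Real.log_two_lt_d9
      linarith
    have h9 : 8 * (s : ℝ) ≤ Real.log x := by
      rw [Real.le_log_iff_exp_le hx0]; exact hx
    have h10 : Real.log x = 2 * s * Real.log r := by
      rw [h7]; field_simp
    have h11 : 2 * (s : ℝ) * (Real.log r) ≤ 2 * s * (Real.log 2 + Real.log (⌊r⌋₊ : ℕ)) :=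
      mul_le_mul_of_nonneg_left h6 hs2.le
    have h12 : (s : ℝ) * Real.log 2 ≤ s := by nlinarith
    nlinarith

/-- the starting index -/
private theorem exists_i0 {C1 : ℝ} (hC1 : 0 < C1) {z : ℕ} (hz : Real.exp 1 ≤ z) :
    ∃ i0 : ℕ, C1 * Real.log z ≤ 2 ^ i0 ∧
      (i0 : ℝ) ≤ 2 * Real.log (Real.log z) + 2 * Real.log (C1 + 1) + 1 := by
  have hz0 : (0 : ℝ) < z := lt_of_lt_of_le (Real.exp_pos 1) hz
  have hlz : 1 ≤ Real.log z := by rw [Real.le_log_iff_exp_le hz0]; exact hz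
  refine ⟨Nat.clog 2 ⌈C1 * Real.log z⌉₊, ?_, ?_⟩
  · have h1 : C1 * Real.log z ≤ (⌈C1 * Real.log z⌉₊ : ℕ) := Nat.le_ceil _
    refine h1.trans ?_
    have := Nat.le_pow_clog (b := 2) (by norm_num) ⌈C1 * Real.log z⌉₊
    exact_mod_cast this
  · set n := ⌈C1 * Real.log z⌉₊ with hn
    have hpos : 0 < C1 * Real.log z := by positivity
    have hn1 : 1 ≤ n := Nat.one_le_iff_ne_zero.mpr (by
      rw [hn]; exact (Nat.ceil_pos.mpr hpos).ne')
    have hn2 : (n : ℝ) < C1 * Real.log z + 1 := Nat.ceil_lt_add_one hpos.le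
    have hn3 : (n : ℝ) ≤ (C1 + 1) * Real.log z := by nlinarith
    have hll : 0 ≤ Real.log (Real.log z) := Real.log_nonneg hlz
    have hC1l : 0 ≤ Real.log (C1 + 1) := Real.log_nonneg (by linarith)
    rcases Nat.lt_or_ge n 2 with h | h
    · have : n = 1 := by omega
      rw [this]
      simp only [Nat.clog_one_right, Nat.cast_zero]
      positivity
    · have h1 : 2 ^ (Nat.clog 2 n - 1) < n := Nat.pow_pred_clog_lt_self (by norm_num) (by omega)
      have h2 : 0 < Nat.clog 2 n := Nat.clog_pos (by norm_num) h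
      have h3 : ((Nat.clog 2 n - 1 : ℕ) : ℝ) * Real.log 2 ≤ Real.log n := by
        rw [← Real.log_pow]
        apply Real.log_le_log (by positivity)
        exact_mod_cast h1.le
      have h4 : Real.log n ≤ Real.log (C1 + 1) + Real.log (Real.log z) := by
        rw [← Real.log_mul (by positivity) (by positivity)]
        exact Real.log_le_log (by exact_mod_cast hn1) hn3
      have h5 : (1 : ℝ) / 2 ≤ Real.log 2 := by
        have := Real.log_two_gt_d9
        linarith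
      have h6 : ((Nat.clog 2 n - 1 : ℕ) : ℝ) = (Nat.clog 2 n : ℝ) - 1 := by
        rw [Nat.cast_sub (by omega)]; simp
      rw [h6] at h3
      have h7 : (0 : ℝ) ≤ (Nat.clog 2 n : ℝ) - 1 := by
        have : (1 : ℝ) ≤ (Nat.clog 2 n : ℝ) := by exact_mod_cast h2
        linarith
      nlinarith

/-- the number of dyadic intervals -/
private theorem exists_I {q x y z : ℕ} (hq : 0 < q) (hx : 0 < x) (hz : 0 < z)
    (hqx : 8 * q * x ≤ y) : ∃ I : ℕ, 2 ^ I ≤ z ∧ 8 * q * x * 2 ^ I ≤ y ∧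
      min (Real.log ((y : ℝ) / x)) (Real.log z) - Real.log (8 * q) - 1 ≤ I := by
  have hlog2 : Real.log 2 ≤ 1 := by
    have := Real.log_two_lt_d9
    linarith
  have hq' : (1 : ℝ) ≤ q := by exact_mod_cast hq
  have hx' : (0 : ℝ) < x := by exact_mod_cast hx
  have hz' : (0 : ℝ) < z := by exact_mod_cast hz
  have hd0 : 0 < 8 * q * x := by positivity
  have hd : 0 < y / (8 * q * x) := Nat.div_pos hqx hd0
  have hy0 : 0 < y := lt_of_lt_of_le hd0 hqx
  have hy' : (0 : ℝ) < y := by exact_mod_cast hy0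
  refine ⟨min (Nat.log 2 z) (Nat.log 2 (y / (8 * q * x))), ?_, ?_, ?_⟩
  · calc 2 ^ min (Nat.log 2 z) (Nat.log 2 (y / (8 * q * x))) ≤ 2 ^ Nat.log 2 z :=
          Nat.pow_le_pow_right (by norm_num) (min_le_left _ _)
      _ ≤ z := Nat.pow_log_le_self 2 hz.ne'
  · have h1 : 2 ^ min (Nat.log 2 z) (Nat.log 2 (y / (8 * q * x))) ≤ y / (8 * q * x) :=
      (Nat.pow_le_pow_right (by norm_num) (min_le_right _ _)).trans
        (Nat.pow_log_le_self 2 hd.ne')
    rw [Nat.le_div_iff_mul_le hd0] at h1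
    rw [mul_comm]
    exact h1
  · have h8q : 0 ≤ Real.log (8 * q) := Real.log_nonneg (by linarith)
    push_cast
    rw [le_min_iff]
    constructor
    · have h1 : z < 2 ^ (Nat.log 2 z + 1) := Nat.lt_pow_succ_log_self (by norm_num) z
      have h2 : Real.log z ≤ (Nat.log 2 z + 1) * Real.log 2 := by
        have : ((Nat.log 2 z : ℝ) + 1) = ((Nat.log 2 z + 1 : ℕ) : ℝ) := by push_cast; ring
        rw [this, ← Real.log_pow]
        apply Real.log_le_log hz'
        exact_mod_cast h1.le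
      have h3 : ((Nat.log 2 z : ℝ) + 1) * Real.log 2 ≤ (Nat.log 2 z : ℝ) + 1 := by
        have : (0 : ℝ) ≤ (Nat.log 2 z : ℝ) + 1 := by positivity
        nlinarith
      have h4 := min_le_right (Real.log ((y : ℝ) / x)) (Real.log z)
      linarith
    · set k := Nat.log 2 (y / (8 * q * x)) with hk
      have h1 : y / (8 * q * x) < 2 ^ (k + 1) := Nat.lt_pow_succ_log_self (by norm_num) _
      rw [Nat.div_lt_iff_lt_mul hd0] at h1
      have h2 : (y : ℝ) ≤ 2 ^ (k + 1) * (8 * q * x) := by exact_mod_cast h1.le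
      have h3 : (y : ℝ) / x ≤ 2 ^ (k + 1) * (8 * q) := by
        rw [div_le_iff₀ hx']
        calc (y : ℝ) ≤ _ := h2
          _ = _ := by ring
      have h4 : Real.log ((y : ℝ) / x) ≤ (k + 1) * Real.log 2 + Real.log (8 * q) := by
        have e : ((k : ℝ) + 1) = ((k + 1 : ℕ) : ℝ) := by push_cast; ring
        rw [e, ← Real.log_pow, ← Real.log_mul (by positivity) (by positivity)]
        exact Real.log_le_log (by positivity) h3
      have h5 : ((k : ℝ) + 1) * Real.log 2 ≤ (k : ℝ) + 1 := by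
        have : (0 : ℝ) ≤ (k : ℝ) + 1 := by positivity
        nlinarith
      have h6 := min_le_left (Real.log ((y : ℝ) / x)) (Real.log z)
      linarith

theorem survivors_lower : ∃ s : ℕ, 1 ≤ s ∧ ∀ K : ℝ, ∃ c C : ℝ, 0 < c ∧ 0 < C ∧
    ∀ (x y T z : ℕ) (a : ℕ → ℤ), 2 ≤ T → T ≤ z → C ≤ z → C ≤ x → z ^ (2 * s) ≤ x → x ≤ y →
    y ^ 2 ≤ x ^ 3 → (T = 2 ∨ ∀ p : ℕ, p.Prime → p ≤ T → (p : ℤ) ∣ a p) →
    ∑ p ∈ Ze T z a, (1 : ℝ) / p ≤ K →
    C * (Real.log (Real.log z) + Real.log T) ≤ min (Real.log ((y : ℝ) / x)) (Real.log z) →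
    c * y * min (Real.log ((y : ℝ) / x)) (Real.log z) / (Real.log x * Real.log z) ≤
      ((Sv z x y a).card : ℝ) := by
  classical
  obtain ⟨s, hs, hbox⟩ := box
  refine ⟨s, hs, fun K => ?_⟩
  obtain ⟨κ, hκ, hmass⟩ := mass K
  obtain ⟨R, C1, c1, hR, hC1, hc1, hb⟩ := hbox κ hκ
  set q0 : ℝ := 4 ^ R with hq0
  have hq01 : (1 : ℝ) ≤ q0 := one_le_pow₀ (by norm_num)
  set D : ℝ := 3 + 2 * Real.log (C1 + 1) with hD
  have hC1l : 0 ≤ Real.log (C1 + 1) := Real.log_nonneg (by linarith)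
  have hD0 : 0 < D := by positivity
  have hl8 : 0 ≤ Real.log (8 * q0) := Real.log_nonneg (by linarith)
  refine ⟨κ * c1 / (48 * q0), Real.exp (8 * s) + C1 + 2 * (Real.log (8 * q0) + 1) + 2 * D / κ
    + Real.exp (Real.exp 1), by positivity, by positivity, ?_⟩
  intro x y T z a hT hTz hCz hCx hzx hxy hyx hTa hK hmin
  set C : ℝ := Real.exp (8 * s) + C1 + 2 * (Real.log (8 * q0) + 1) + 2 * D / κ
    + Real.exp (Real.exp 1) with hC
  have hC_e : Real.exp (8 * s) ≤ C := by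
    rw [hC]
    have : 0 < Real.exp (Real.exp 1) := Real.exp_pos _
    have h2 : 0 < 2 * D / κ := by positivity
    linarith
  have hC_C1 : C1 ≤ C := by
    rw [hC]
    have : 0 < Real.exp (Real.exp 1) := Real.exp_pos _
    have h1 : 0 < Real.exp (8 * s) := Real.exp_pos _
    have h2 : 0 < 2 * D / κ := by positivity
    linarith
  have hC_l : 2 * (Real.log (8 * q0) + 1) ≤ C := by
    rw [hC]
    have : 0 < Real.exp (Real.exp 1) := Real.exp_pos _
    have h1 : 0 < Real.exp (8 * s) := Real.exp_pos _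
    have h2 : 0 < 2 * D / κ := by positivity
    linarith
  have hC_D : 2 * D / κ ≤ C := by
    rw [hC]
    have : 0 < Real.exp (Real.exp 1) := Real.exp_pos _
    have h1 : 0 < Real.exp (8 * s) := Real.exp_pos _
    linarith
  have hC_ee : Real.exp (Real.exp 1) ≤ C := by
    rw [hC]
    have h1 : 0 < Real.exp (8 * s) := Real.exp_pos _
    have h2 : 0 < 2 * D / κ := by positivity
    linarith
  have hC0 : 0 < C := lt_of_lt_of_le (Real.exp_pos _) hC_e
  -- sizes of `z`, `x`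
  have hzee : Real.exp (Real.exp 1) ≤ z := hC_ee.trans hCz
  have hz0 : (0 : ℝ) < z := lt_of_lt_of_le (Real.exp_pos _) hzee
  have hx0 : (0 : ℝ) < x := lt_of_lt_of_le hC0 hCx
  have hxn : 0 < x := by exact_mod_cast hx0
  have hzn : 0 < z := by exact_mod_cast hz0
  have hy0 : (0 : ℝ) < y := lt_of_lt_of_le hx0 (by exact_mod_cast hxy)
  have hlze : Real.exp 1 ≤ Real.log z := by rw [Real.le_log_iff_exp_le hz0]; exact hzee
  have hlz : 0 < Real.log z := lt_of_lt_of_le (Real.exp_pos _) hlze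
  have hllz : 1 ≤ Real.log (Real.log z) := by rw [Real.le_log_iff_exp_le hlz]; exact hlze
  have he1 : (1 : ℝ) ≤ Real.exp 1 := Real.one_le_exp (by norm_num)
  have hze : Real.exp 1 ≤ z := (Real.exp_le_exp.mpr he1).trans hzee
  have hxexp : Real.exp (8 * s) ≤ x := hC_e.trans hCx
  have hlx8 : 8 * (s : ℝ) ≤ Real.log x := by rw [Real.le_log_iff_exp_le hx0]; exact hxexp
  have hs' : (1 : ℝ) ≤ s := by exact_mod_cast hs
  have hlx : 0 < Real.log x := by linarith
  have hT' : (2 : ℝ) ≤ T := by exact_mod_cast hT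
  have hlT : 0 < Real.log T := Real.log_pos (by linarith)
  set m := min (Real.log ((y : ℝ) / x)) (Real.log z) with hm
  have hmC : C ≤ m := by
    have h1 : C * 1 ≤ C * (Real.log (Real.log z) + Real.log T) :=
      mul_le_mul_of_nonneg_left (by linarith) hC0.le
    linarith
  have hm0 : 0 < m := lt_of_lt_of_le hC0 hmC
  -- `q`
  set q := q1 R a with hq
  have hqpos : 0 < q := q1_pos R a
  have hqle : (q : ℝ) ≤ q0 := by
    rw [hq0]
    exact_mod_cast q1_le R a
  have hq1 : (1 : ℝ) ≤ q := by exact_mod_cast hqpos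
  have hl8q : Real.log (8 * q) ≤ Real.log (8 * q0) :=
    Real.log_le_log (by positivity) (by linarith)
  have hqx : 8 * q * x ≤ y := by
    have h1 : Real.log (8 * q) ≤ Real.log ((y : ℝ) / x) := by
      have h2 : m ≤ Real.log ((y : ℝ) / x) := min_le_left _ _
      linarith
    have h3 : (8 : ℝ) * q ≤ (y : ℝ) / x := by
      rwa [Real.log_le_log_iff (by positivity) (by positivity)] at h1
    rw [le_div_iff₀ hx0] at h3
    exact_mod_cast h3
  -- indices
  obtain ⟨I, hI1, hI2, hI3⟩ := exists_I hqpos hxn hzn hqx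
  obtain ⟨i0, hi1, hi2⟩ := exists_i0 hC1 hze
  have hIm : m / 2 ≤ I := by
    have : m - Real.log (8 * q) - 1 ≤ I := hI3
    linarith
  have hImass : ((i0 : ℝ) + Real.log T) / κ ≤ I := by
    refine le_trans ?_ hIm
    rw [div_le_iff₀ hκ]
    have h1 : (i0 : ℝ) + Real.log T ≤ D * (Real.log (Real.log z) + Real.log T) := by
      have h2 : (0 : ℝ) ≤ (2 * Real.log (C1 + 1)) * (Real.log (Real.log z) - 1) := by
        apply mul_nonneg (by positivity)
        linarith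
      have h3 : (0 : ℝ) ≤ (2 + 2 * Real.log (C1 + 1)) * Real.log T := by positivity
      rw [hD]
      nlinarith
    have h4 : 2 * D ≤ C * κ := by
      rwa [div_le_iff₀ hκ] at hC_D
    have h5 : 0 < Real.log (Real.log z) + Real.log T := by linarith
    calc (i0 : ℝ) + Real.log T ≤ D * (Real.log (Real.log z) + Real.log T) := h1
      _ ≤ (C * κ / 2) * (Real.log (Real.log z) + Real.log T) :=
          mul_le_mul_of_nonneg_right (by linarith) h5.le
      _ = (C * (Real.log (Real.log z) + Real.log T)) / 2 * κ := by ring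
      _ ≤ m / 2 * κ := by
          apply mul_le_mul_of_nonneg_right _ hκ.le
          linarith
  -- sets of primes
  set Z0 : Finset ℕ := (prs z).filter (fun l : ℕ => (l : ℤ) ∣ a l) with hZ0
  set Q : Finset ℕ := (prs z).filter (fun l : ℕ => R < l ∧ ¬ (l : ℤ) ∣ a l) with hQ
  have hZ0p : ∀ l ∈ Z0, l.Prime := fun l hl => by
    rw [hZ0, mem_filter, mem_prs] at hl; exact hl.1.1
  have hZ0T : T = 2 ∨ prs T ⊆ Z0 := by
    rcases hTa with h | h
    · exact Or.inl h
    · refine Or.inr fun l hl => ?_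
      rw [mem_prs] at hl
      rw [hZ0, mem_filter, mem_prs]
      exact ⟨⟨hl.1, hl.2.trans hTz⟩, h l hl.1 hl.2⟩
  have hZ0K : ∑ l ∈ Z0.filter (fun l => T < l), (1 : ℝ) / l ≤ K := by
    have : Z0.filter (fun l => T < l) = Ze T z a := by
      ext l
      unfold Ze
      rw [hZ0, mem_filter, mem_filter, mem_filter, mem_prs, mem_Ioc]
      tauto
    rw [this]; exact hK
  have hQmem : ∀ l ∈ Q, l.Prime ∧ l ≤ z ∧ R < l ∧ ¬ (l : ℤ) ∣ a l := fun l hl => by
    rw [hQ, mem_filter, mem_prs] at hl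
    exact ⟨hl.1.1, hl.1.2, hl.2.1, hl.2.2⟩
  have hQT : ∀ l ∈ Q, T < l ∧ R < l := by
    intro l hl
    obtain ⟨h1, h2, h3, h4⟩ := hQmem l hl
    refine ⟨?_, h3⟩
    rcases hTa with h | h
    · omega
    · by_contra hcon
      exact h4 (h l h1 (by omega))
  have hex : ∀ l : ℕ, ∃ α : ℕ, l ∈ Q → ((∀ m : ℕ, ((q * m : ℕ) : ℤ) ≡ a l [ZMOD (l : ℤ)] ↔
      m ≡ α [MOD l]) ∧ (l ∣ α ↔ (l : ℤ) ∣ a l)) := by
    intro l
    by_cases hl : l ∈ Q
    · obtain ⟨h1, h2, h3, h4⟩ := hQmem l hl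
      have h5 : ¬ l ∣ q := by
        rw [hq, q1_dvd h1]
        omega
      obtain ⟨α, hα⟩ := exists_inv h1 h5 (a l)
      exact ⟨α, fun _ => hα⟩
    · exact ⟨0, fun h => absurd h hl⟩
  choose α hα using hex
  have hgood : Good z Q α := by
    refine ⟨filter_subset _ _, ?_, ?_⟩
    · intro l hl
      have := (hQmem l hl).2.2.1
      omega
    · intro l hl h
      exact (hQmem l hl).2.2.2 ((hα l hl).2.mp h)
  -- the level
  obtain ⟨Z, hZ1, hZ2, hZ3⟩ := exists_Z hs hzn hxexp hzx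
  have hly : Real.log y ≤ 3 / 2 * Real.log x := by
    have h1 : Real.log ((y : ℝ) ^ 2) ≤ Real.log ((x : ℝ) ^ 3) := by
      apply Real.log_le_log (by positivity)
      exact_mod_cast hyx
    rw [Real.log_pow, Real.log_pow] at h1
    push_cast at h1
    linarith
  -- the good indices
  set U : ℕ → Finset ℕ := fun i => (Ioc (2 ^ i) (2 * 2 ^ i)).filter fun u => ∀ l ∈ Z0, ¬ l ∣ u
    with hU
  set G : Finset ℕ := (Ico i0 I).filter fun i => κ * 2 ^ i / Real.log T ≤ ((U i).card : ℝ) with hG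
  have hGcard : κ * I ≤ (G.card : ℝ) := hmass T Z0 hT hZ0p hZ0T hZ0K i0 I hImass
  set P : ℕ → ℕ := fun i => y / (8 * q * 2 ^ i) with hP
  have hd0 : ∀ i : ℕ, 0 < 8 * q * 2 ^ i := fun i => by positivity
  have hGi : ∀ i ∈ G, i0 ≤ i ∧ i < I ∧ κ * 2 ^ i / Real.log T ≤ ((U i).card : ℝ) := by
    intro i hi
    rw [hG, mem_filter, mem_Ico] at hi
    exact ⟨hi.1.1, hi.1.2, hi.2⟩
  have hPx : ∀ i ∈ G, x ≤ P i := by
    intro i hi
    obtain ⟨h1, h2, h3⟩ := hGi i hi
    rw [hP]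
    simp only
    rw [Nat.le_div_iff_mul_le (hd0 i)]
    have h4 : 2 ^ i ≤ 2 ^ I := Nat.pow_le_pow_right (by norm_num) h2.le
    calc x * (8 * q * 2 ^ i) = 8 * q * x * 2 ^ i := by ring
      _ ≤ 8 * q * x * 2 ^ I := Nat.mul_le_mul_left _ h4
      _ ≤ y := hI2
  have hP1 : ∀ i ∈ G, 8 * q * 2 ^ i * P i ≤ y := by
    intro i _
    exact Nat.mul_div_le y (8 * q * 2 ^ i)
  have hP2 : ∀ i ∈ G, y ≤ 16 * q * 2 ^ i * P i := by
    intro i hi
    have h1 : 1 ≤ P i := le_trans hxn (hPx i hi)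
    have h2 : y < 8 * q * 2 ^ i * (P i + 1) := by
      have := Nat.lt_mul_div_succ y (hd0 i)
      exact this
    have h3 : 8 * q * 2 ^ i * (P i + 1) ≤ 8 * q * 2 ^ i * (2 * P i) :=
      Nat.mul_le_mul_left _ (by omega)
    calc y ≤ 8 * q * 2 ^ i * (2 * P i) := (h2.le).trans h3
      _ = 16 * q * 2 ^ i * P i := by ring
  have hUz : ∀ i ∈ G, 2 * 2 ^ i ≤ z := by
    intro i hi
    obtain ⟨h1, h2, h3⟩ := hGi i hi
    rw [← pow_succ']
    exact (Nat.pow_le_pow_right (by norm_num) h2).trans hI1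
  have hzx' : z ≤ x := by
    calc z = z ^ 1 := (pow_one z).symm
      _ ≤ z ^ (2 * s) := Nat.pow_le_pow_right hzn (by omega)
      _ ≤ x := hzx
  have hcomb := comb (R := R) (x := x) (y := y) (z := z) (a := a) hzx' α Q
    (fun l hl hlz hRl hla => by
      rw [hQ, mem_filter, mem_prs]; exact ⟨⟨hl, hlz⟩, hRl, hla⟩)
    (fun l hl m => (hα l hl).1 m) G P U
    (fun i _ => filter_subset _ _) hUz
    (fun i _ u hu l hl hlz hla => by
      rw [hU, mem_filter] at hu
      exact hu.2 l (by rw [hZ0, mem_filter, mem_prs]; exact ⟨⟨hl, hlz⟩, hla⟩))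
    hPx hP1 hP2
  refine le_trans ?_ hcomb
  -- each term
  have hterm : ∀ i ∈ G, c1 * y / (24 * q0 * (Real.log x * Real.log z)) ≤
      ∑ p ∈ (Ioc (P i) (4 * P i)).filter Nat.Prime, NN Q α (U i) p := by
    intro i hi
    obtain ⟨h1, h2, h3⟩ := hGi i hi
    have hPi := hPx i hi
    have hPi0 : (0 : ℝ) < P i := lt_of_lt_of_le hx0 (by exact_mod_cast hPi)
    have hPy : (P i : ℝ) ≤ y := by
      have : P i ≤ y := Nat.div_le_self _ _
      exact_mod_cast this
    have hlP : Real.log (P i) ≤ 3 / 2 * Real.log x := (Real.log_le_log hPi0 hPy).trans hly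
    have hlP0 : 0 < Real.log (P i) := by
      refine lt_of_lt_of_le hlx (Real.log_le_log hx0 ?_)
      exact_mod_cast hPi
    have hbi := hb T z Z (P i) (2 ^ i) Q α (U i) hgood hT hTz hZ1 (hZ2.trans hPi)
      (hlP.trans hZ3) (hC_C1.trans (hCx.trans (by exact_mod_cast hPi))) hQT (filter_subset _ _)
      (by push_cast; exact h3)
      (by
        push_cast
        refine hi1.trans ?_
        exact pow_le_pow_right₀ (by norm_num) h1)
    refine le_trans ?_ hbi
    push_cast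
    have h4 : (y : ℝ) ≤ 16 * q0 * (2 ^ i * P i) := by
      have h5 : (y : ℝ) ≤ 16 * q * 2 ^ i * P i := by exact_mod_cast hP2 i hi
      refine h5.trans ?_
      have h6 : (0 : ℝ) ≤ 2 ^ i * P i := by positivity
      nlinarith
    rw [show c1 * ((P i : ℝ) / Real.log (P i)) * (2 ^ i / Real.log z)
      = c1 * (2 ^ i * P i) / (Real.log (P i) * Real.log z) by field_simp]
    rw [div_le_div_iff₀ (by positivity) (by positivity)]
    have h7 : Real.log (P i) * Real.log z ≤ 3 / 2 * (Real.log x * Real.log z) := by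
      nlinarith
    calc c1 * y * (Real.log (P i) * Real.log z)
        ≤ c1 * (16 * q0 * (2 ^ i * P i)) * (3 / 2 * (Real.log x * Real.log z)) := by
          apply mul_le_mul
          · exact mul_le_mul_of_nonneg_left h4 hc1.le
          · exact h7
          · positivity
          · positivity
      _ = c1 * (2 ^ i * P i) * (24 * q0 * (Real.log x * Real.log z)) := by ring
  have hsum := sum_le_sum hterm
  rw [sum_const, nsmul_eq_mul] at hsum
  refine le_trans ?_ hsum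
  have h8 : κ * (m / 2) ≤ (G.card : ℝ) := by
    refine le_trans ?_ hGcard
    exact mul_le_mul_of_nonneg_left hIm hκ.le
  calc κ * c1 / (48 * q0) * y * m / (Real.log x * Real.log z)
      = (κ * (m / 2)) * (c1 * y / (24 * q0 * (Real.log x * Real.log z))) := by
        field_simp
        ring
    _ ≤ (G.card : ℝ) * (c1 * y / (24 * q0 * (Real.log x * Real.log z))) :=
        mul_le_mul_of_nonneg_right h8 (by positivity)

end YX49
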