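import Pool.Agent.YX49.Low

/-!
# [YX49-LOWC] Lower bound for the number of survivors, bounded `z`

`q = q1 z0 a`, `P = y / (4 q)` (natural division, `≥ x`), and the integers `q * (1 * p)` for the primes `p ∈ (P, 4P]` are in `Sv z x y a`
(`product_mem` with `R = z0`, `u = 1`: `hav` is vacuous because `l ≤ z ≤ z0`). `primes_lower`: at least `c P / log P ≥ c y / (8 q log y)` of them
(`4 P q ≥ y / 2`), and `log y ≤ 2 log x`, `q ≤ 4 ^ z0`.
-/

namespace YX49

open Finset

theorem survivors_small (z0 : ℕ) : ∃ c C : ℝ, 0 < c ∧ 0 < C ∧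
    ∀ (x y z : ℕ) (a : ℕ → ℤ), 1 ≤ z → z ≤ z0 → z ≤ x → C ≤ x → C * x ≤ y → y ^ 2 ≤ x ^ 3 →
    c * y / Real.log x ≤ ((Sv z x y a).card : ℝ) := by
  obtain ⟨c, hc, P0, hP0⟩ := primes_lower
  refine ⟨c / (16 * 4 ^ z0), 4 * 4 ^ z0 + P0 + 2, by positivity, by positivity,
    fun x y z a hz hzz0 hzx hCx hCy hyx => ?_⟩
  set q := q1 z0 a with hq
  have hq0 : 0 < q := q1_pos z0 a
  have hq4 : q ≤ 4 ^ z0 := q1_le z0 a
  set P := y / (4 * q) with hP
  have h40 : 0 < 4 * q := by omega
  have hx0 : (0 : ℝ) < x := lt_of_lt_of_le (by positivity) hCx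
  have hxN : P0 + 2 ≤ x := by
    have h1 : (0 : ℝ) ≤ 4 * 4 ^ z0 := by positivity
    have : ((P0 + 2 : ℕ) : ℝ) ≤ x := by push_cast; linarith
    exact_mod_cast this
  have hyN : 4 * q * x ≤ y := by
    have h1 : ((4 * q : ℕ) : ℝ) ≤ 4 * 4 ^ z0 + P0 + 2 := by
      have : ((q : ℕ) : ℝ) ≤ 4 ^ z0 := by exact_mod_cast hq4
      have h2 : (0 : ℝ) ≤ P0 := Nat.cast_nonneg _
      push_cast
      linarith
    have h2 : ((4 * q * x : ℕ) : ℝ) ≤ y := by
      push_cast at h1 ⊢
      exact (mul_le_mul_of_nonneg_right h1 hx0.le).trans hCy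
    exact_mod_cast h2
  have hxP : x ≤ P := by
    rw [hP, Nat.le_div_iff_mul_le h40]
    linarith
  have hPy : 4 * q * P ≤ y := Nat.mul_div_le y (4 * q)
  have hPy' : y < 4 * q * (P + 1) := by
    have := Nat.lt_mul_div_succ y h40
    exact this
  -- the survivors
  have hsub : (((Ioc P (4 * P)).filter Nat.Prime).image fun p => q * (1 * p)) ⊆ Sv z x y a := by
    intro m hm
    obtain ⟨p, hp, rfl⟩ := mem_image.1 hm
    obtain ⟨hp1, hp2⟩ := mem_filter.1 hp
    obtain ⟨hp3, hp4⟩ := mem_Ioc.1 hp1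
    refine product_mem hzx hp2 (lt_of_le_of_lt hxP hp3) one_pos hz
      (fun l hl _ _ hd => hl.one_lt.ne' (Nat.dvd_one.1 hd)) (fun l _ h1 h2 => by omega) ?_ ?_
    · have h1 : q * (P + 1) ≤ q * (1 * p) := Nat.mul_le_mul_left q (by omega)
      have h2 : 4 * (q * (P + 1)) = 4 * q * (P + 1) := by ring
      show y / 16 < q * (1 * p)
      omega
    · have h1 : q * (1 * p) ≤ q * (4 * P) := Nat.mul_le_mul_left q (by omega)
      have h2 : q * (4 * P) = 4 * q * P := by ring
      show q * (1 * p) ≤ y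
      omega
  have hcard := card_le_card hsub
  rw [card_image_of_injective _ (fun p p' h => by
    have := Nat.eq_of_mul_eq_mul_left hq0 h
    omega)] at hcard
  have h1 := hP0 P (by omega)
  have h2 : (((Ioc P (4 * P)).filter Nat.Prime).card : ℝ) ≤ ((Sv z x y a).card : ℝ) := by
    exact_mod_cast hcard
  refine le_trans ?_ (h1.trans h2)
  -- numerical part
  have hP2 : (2 : ℝ) ≤ P := by exact_mod_cast (by omega : 2 ≤ P)
  have hx2 : (2 : ℝ) ≤ x := by exact_mod_cast (by omega : 2 ≤ x)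
  have hlP : 0 < Real.log P := Real.log_pos (by linarith)
  have hlx : 0 < Real.log x := Real.log_pos (by linarith)
  have hPley : (P : ℝ) ≤ y := by exact_mod_cast Nat.div_le_self y (4 * q)
  have hly : Real.log P ≤ 2 * Real.log x := by
    have h3 : Real.log ((y : ℝ) ^ 2) ≤ Real.log ((x : ℝ) ^ 3) :=
      Real.log_le_log (by have : (0 : ℝ) < y := by linarith
                          positivity) (by exact_mod_cast hyx)
    rw [Real.log_pow, Real.log_pow] at h3
    have h4 : Real.log P ≤ Real.log y := Real.log_le_log (by linarith) hPley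
    push_cast at h3
    linarith
  have hPq : (y : ℝ) ≤ P * (8 * 4 ^ z0) := by
    have h3 : y ≤ P * (8 * q) := by nlinarith [hPy', hq0, (by omega : 1 ≤ P)]
    have h4 : (y : ℝ) ≤ P * (8 * q) := by exact_mod_cast h3
    have h5 : (q : ℝ) ≤ 4 ^ z0 := by exact_mod_cast hq4
    refine h4.trans (mul_le_mul_of_nonneg_left (by linarith) (by linarith))
  rw [div_le_div_iff₀ hlx hlP]
  have h6 : c / (16 * 4 ^ z0) * y ≤ c * P / 2 := by
    rw [div_mul_eq_mul_div, div_le_div_iff₀ (by positivity) (by norm_num)]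
    nlinarith [mul_le_mul_of_nonneg_left hPq hc.le]
  calc c / (16 * 4 ^ z0) * y * Real.log P ≤ c * P / 2 * (2 * Real.log x) :=
        mul_le_mul h6 hly hlP.le (by positivity)
    _ = c * P * Real.log x := by ring

end YX49
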