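import Pool.Agent.YX49.LowB
import Pool.Agent.YX49.Cov

/-!
# [YX49-MAIN] The main inequality

Write `l = log (y/x) ≥ log 2`. `survivors_lower` (constants `s`, `c`, `C0`) and `cov_upper` give
`min l (log z) * l ≤ (C/c) L log z`, so `l ≤ sqrt (C/c) sqrt (L log z)` or `l ≤ (C/c) L`. If the condition `C0 (log log z + log T) ≤ min l (log z)`
fails: `C0 (log log z + log T) ≤ log z` holds for large `z` if `T ^ M ≤ z` and `M ≥ 2 C0`, so `l < C0 (log log z + log T) ≤ C0 (2 sqrt (L log z) + log T)`
(`log t ≤ 2 sqrt t`, `L ≥ 1`). (`y^2 ≤ x^3` gives `y ≤ x^2`.)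
-/

namespace YX49

open Finset

theorem main_log_le {t : ℝ} (ht : 0 < t) : Real.log t ≤ 2 * Real.sqrt t := by
  have h1 : Real.log t = 2 * Real.log (Real.sqrt t) := by
    rw [Real.log_sqrt ht.le]
    ring
  have h2 := Real.log_le_sub_one_of_pos (Real.sqrt_pos.mpr ht)
  linarith

theorem core_big : ∃ s : ℕ, 1 ≤ s ∧ ∀ K : ℝ, ∃ (M : ℕ) (C : ℝ), 0 < C ∧
    ∀ (x g y T z : ℕ) (a : ℕ → ℤ) (L : ℝ), 2 ≤ T → T ^ M ≤ z → C ≤ z → C ≤ x → T ≤ z →
    z ^ (2 * s) ≤ x → 2 * x ≤ y → y ^ 2 ≤ x ^ 3 → 16 * g ≤ y → Covers x g y a →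
    (T = 2 ∨ ∀ p : ℕ, p.Prime → p ≤ T → (p : ℤ) ∣ a p) →
    ∑ p ∈ Ze T z a, (1 : ℝ) / p ≤ K → 1 ≤ L → L ≤ Real.log x →
    ∑ p ∈ La z x a, (1 : ℝ) / p ≤ L / Real.log x →
    Real.log ((y : ℝ) / x) ≤ C * (Real.sqrt (L * Real.log z) + L + Real.log T) := by
  obtain ⟨s, hs, hsurv⟩ := survivors_lower
  obtain ⟨Cc, hCc, hcov⟩ := cov_upper
  refine ⟨s, hs, fun K => ?_⟩
  obtain ⟨c, C0, hc, hC0, hlow⟩ := hsurv K
  obtain ⟨M, hM⟩ := exists_nat_ge (2 * C0)
  set r : ℝ := Cc / c with hr
  have hrp : 0 < r := by positivity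
  set C : ℝ := 2 * C0 + Real.exp (16 * C0 ^ 2) + r + 1 with hC
  have hCp : 0 < C := by positivity
  refine ⟨M, C, hCp, ?_⟩
  intro x g y T z a L hT hTM hCz hCx hTz hzx hxy hyx hgy hcovers hTa hK hL1 hLx hLa
  have hexp : 0 < Real.exp (16 * C0 ^ 2) := Real.exp_pos _
  have hexp1 : 1 ≤ Real.exp (16 * C0 ^ 2) := Real.one_le_exp (by positivity)
  have hx1 : (1 : ℝ) < x := by linarith
  have hx1' : 1 < x := by exact_mod_cast hx1
  have hz2 : 2 ≤ z := hT.trans hTz
  have hlz : 0 < Real.log z := Real.log_pos (by exact_mod_cast (by omega : 1 < z))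
  have hlx : 0 < Real.log x := Real.log_pos hx1
  have hlT : 0 < Real.log T := Real.log_pos (by exact_mod_cast (by omega : 1 < T))
  have hyp : (0 : ℝ) < y := by
    have : 0 < y := by omega
    exact_mod_cast this
  have hxp : (0 : ℝ) < x := by linarith
  have hyx2 : y ≤ x ^ 2 := by
    by_contra h
    push Not at h
    have h1 : (x ^ 2) ^ 2 < y ^ 2 := Nat.pow_lt_pow_left h (by norm_num)
    have h2 : x ^ 3 ≤ (x ^ 2) ^ 2 := by
      rw [← pow_mul]
      exact Nat.pow_le_pow_right (by omega) (by norm_num)
    omega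
  set l : ℝ := Real.log ((y : ℝ) / x) with hl
  have hlp : 0 < l := by
    apply Real.log_pos
    rw [one_lt_div hxp]
    have : 2 * (x : ℝ) ≤ y := by exact_mod_cast hxy
    linarith
  set S : ℝ := ∑ p ∈ La z x a, (1 : ℝ) / p with hS
  have hS1 : S ≤ 1 := hLa.trans ((div_le_one hlx).mpr hLx)
  have hsq : 0 ≤ Real.sqrt (L * Real.log z) := Real.sqrt_nonneg _
  by_cases hcase : C0 * (Real.log (Real.log z) + Real.log T) ≤ min l (Real.log z)
  · -- the main case
    have h1 := hlow x y T z a hT hTz (by linarith) (by linarith) hzx (by omega) hyx hTa hK hcase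
    have h2 := hcov x g y z a hxy hyx2 hgy hcovers hS1
    have h3 : c * y * min l (Real.log z) / (Real.log x * Real.log z) ≤
        Cc * y * (L / Real.log x) / l := by
      apply (h1.trans h2).trans
      apply div_le_div_of_nonneg_right _ hlp.le
      exact mul_le_mul_of_nonneg_left hLa (by positivity)
    have h4 : min l (Real.log z) * l ≤ r * (L * Real.log z) := by
      rw [div_le_div_iff₀ (by positivity) hlp] at h3
      have e1 : Cc * y * (L / Real.log x) * (Real.log x * Real.log z) =
          y * (Cc * (L * Real.log z)) := by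
        field_simp
      have e2 : c * y * min l (Real.log z) * l = y * (c * (min l (Real.log z) * l)) := by ring
      rw [e1, e2] at h3
      have h5 := le_of_mul_le_mul_left h3 hyp
      have h6 : Cc = c * r := by
        rw [hr]
        field_simp
      rw [h6] at h5
      have h7 : c * (min l (Real.log z) * l) ≤ c * (r * (L * Real.log z)) := by
        calc _ ≤ c * r * (L * Real.log z) := h5
          _ = _ := by ring
      exact le_of_mul_le_mul_left h7 hc
    rcases le_total l (Real.log z) with hle | hle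
    · rw [min_eq_left hle] at h4
      have h5 : l ≤ Real.sqrt r * Real.sqrt (L * Real.log z) := by
        rw [← Real.sqrt_mul hrp.le]
        apply Real.le_sqrt_of_sq_le
        rw [sq]
        exact h4
      have h6 : Real.sqrt r ≤ r + 1 := by
        have h7 := Real.sq_sqrt hrp.le
        nlinarith [sq_nonneg (Real.sqrt r - 1), Real.sqrt_nonneg r]
      have h8 : Real.sqrt r ≤ C := by linarith
      calc l ≤ Real.sqrt r * Real.sqrt (L * Real.log z) := h5
        _ ≤ C * Real.sqrt (L * Real.log z) := mul_le_mul_of_nonneg_right h8 hsq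
        _ ≤ C * (Real.sqrt (L * Real.log z) + L + Real.log T) := by
            apply mul_le_mul_of_nonneg_left _ hCp.le
            linarith
    · rw [min_eq_right hle] at h4
      have h5 : l ≤ r * L := by
        have : Real.log z * l ≤ Real.log z * (r * L) := by
          calc _ ≤ r * (L * Real.log z) := h4
            _ = _ := by ring
        exact le_of_mul_le_mul_left this hlz
      calc l ≤ r * L := h5
        _ ≤ C * L := mul_le_mul_of_nonneg_right (by linarith) (by linarith)
        _ ≤ C * (Real.sqrt (L * Real.log z) + L + Real.log T) := by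
            apply mul_le_mul_of_nonneg_left _ hCp.le
            linarith
  · -- the condition fails
    push Not at hcase
    have h1 : Real.log (Real.log z) ≤ 2 * Real.sqrt (Real.log z) := main_log_le hlz
    have h2 : C0 * (Real.log (Real.log z) + Real.log T) ≤ Real.log z := by
      have h3 : 16 * C0 ^ 2 ≤ Real.log z := by
        rw [Real.le_log_iff_exp_le (by exact_mod_cast (by omega : 0 < z))]
        linarith
      have h4 : 4 * C0 ≤ Real.sqrt (Real.log z) := by
        apply Real.le_sqrt_of_sq_le
        calc (4 * C0) ^ 2 = 16 * C0 ^ 2 := by ring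
          _ ≤ _ := h3
      have h5 : C0 * Real.log (Real.log z) ≤ Real.log z / 2 := by
        have h6 := Real.sq_sqrt hlz.le
        have h7 : C0 * Real.log (Real.log z) ≤ C0 * (2 * Real.sqrt (Real.log z)) :=
          mul_le_mul_of_nonneg_left h1 hC0.le
        nlinarith [Real.sqrt_nonneg (Real.log z)]
      have h6 : C0 * Real.log T ≤ Real.log z / 2 := by
        have h7 : (M : ℝ) * Real.log T ≤ Real.log z := by
          rw [← Real.log_pow]
          apply Real.log_le_log
          · have : 0 < T := by omega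
            positivity
          · exact_mod_cast hTM
        have h8 : 2 * C0 * Real.log T ≤ (M : ℝ) * Real.log T :=
          mul_le_mul_of_nonneg_right hM hlT.le
        linarith
      linarith
    rcases le_total l (Real.log z) with hle | hle
    · rw [min_eq_left hle] at hcase
      have h3 : Real.sqrt (Real.log z) ≤ Real.sqrt (L * Real.log z) := by
        apply Real.sqrt_le_sqrt
        nlinarith
      have h4 : C0 * Real.log (Real.log z) ≤ C0 * (2 * Real.sqrt (L * Real.log z)) :=
        mul_le_mul_of_nonneg_left (by linarith) hC0.le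
      have h5 : 2 * C0 * Real.sqrt (L * Real.log z) ≤ C * Real.sqrt (L * Real.log z) :=
        mul_le_mul_of_nonneg_right (by linarith) hsq
      have h6 : C0 * Real.log T ≤ C * Real.log T :=
        mul_le_mul_of_nonneg_right (by linarith) hlT.le
      have h7 : 0 ≤ C * L := by positivity
      nlinarith
    · rw [min_eq_right hle] at hcase
      exact absurd h2 (not_le.mpr hcase)

end YX49
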