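import Pool.Agent.YX49.Vr0

/-!
# [YX49-VR1] Densities

All from `om_x0`, `om_x1`, `om_x2_*`. (`l ∈ Q` implies `l ≥ 7`, `l` prime, `l ≤ z`.)
`WW_x1`: `(1 - 2/l)/(1 - 1/l) = 1 - 1/(l-1)`. `WW_x2_le`: compare for every `l ∈ Q` the factors: `(1-3/l)/(1-1/l) = 1 - 2/(l-1) ≤ (1 - 1/(l-1))^2`,
and for `l ∣ dist u v`, `l ∤ u`: `1 - 1/(l-1) = (1 - 1/(l-1))^2 (1 + 1/(l-2))`; if `l` divides exactly one of `u`, `v`: equality, `l ∤ dist u v`;
if `l` divides both: `1 ≤ 1 + 1/(l-2)`. (`prs Z` splits into `Q` and the rest; write `MU`, `HH` as products over all `l ∈ Q` of `if` factors.)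
-/

namespace YX49

open Finset

private theorem dvd_dist {l u v : ℕ} : l ∣ Nat.dist u v ↔ u ≡ v [MOD l] := by
  rcases le_total u v with h | h
  · rw [Nat.dist_eq_sub_of_le h]
    exact (Nat.modEq_iff_dvd' h).symm
  · rw [Nat.dist_eq_sub_of_le_right h]
    exact ⟨fun hd => ((Nat.modEq_iff_dvd' h).2 hd).symm, fun hd => (Nat.modEq_iff_dvd' h).1 hd.symm⟩

private theorem prs_mono {z Z : ℕ} (h : z ≤ Z) : prs z ⊆ prs Z := by
  intro l hl
  rw [mem_prs] at hl ⊢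
  exact ⟨hl.1, hl.2.trans h⟩

private theorem two_le_cast {l : ℕ} (hl : l.Prime) : (2 : ℝ) ≤ l := by exact_mod_cast hl.two_le

theorem loc_x0 : Loc x0 := by
  refine ⟨?_, ?_, ?_, ?_⟩
  · intro l n
    unfold x0
    split_ifs
    · right; rfl
    · left; rfl
  · intro l n
    unfold x0
    simp only [Nat.dvd_add_self_right]
  · intro l hl
    rw [om_x0 hl]; norm_num
  · intro l hl
    rw [om_x0 hl]
    linarith [two_le_cast hl]

private theorem mul_add_modEq (u n l : ℕ) : u * (n + l) ≡ u * n [MOD l] := by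
  rw [mul_add]
  exact (Nat.modEq_iff_dvd' (Nat.le_add_right _ _)).2 (by rw [Nat.add_sub_cancel_left]; exact Dvd.intro_left u rfl) |>.symm

private theorem modEq_per (u n l a : ℕ) : (u * (n + l) ≡ a [MOD l]) ↔ (u * n ≡ a [MOD l]) :=
  ⟨fun h => (mul_add_modEq u n l).symm.trans h, fun h => (mul_add_modEq u n l).trans h⟩

theorem loc_x1 {z : ℕ} {Q : Finset ℕ} {α : ℕ → ℕ} (h : Good z Q α) (u : ℕ) : Loc (x1 Q α u) := by
  classical
  refine ⟨?_, ?_, ?_, ?_⟩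
  · intro l n
    unfold x1
    split_ifs
    · right; rfl
    · left; rfl
  · intro l n
    unfold x1
    simp only [Nat.dvd_add_self_right, modEq_per]
  · intro l hl
    rw [om_x1 h u hl]
    split_ifs <;> norm_num
  · intro l hl
    rw [om_x1 h u hl]
    split_ifs with hc
    · have h7 : (7 : ℝ) ≤ l := by exact_mod_cast h.seven l hc.1
      linarith
    · linarith [two_le_cast hl]

/-- all possible values of `om` for two factors -/
private theorem om_x2_cases {z : ℕ} {Q : Finset ℕ} {α : ℕ → ℕ} (h : Good z Q α) (u v : ℕ) {l : ℕ} (hl : l.Prime) :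
    (l ∉ Q ∧ om (x2 Q α u v) l = 1) ∨
    (l ∈ Q ∧ ¬ l ∣ u ∧ ¬ l ∣ v ∧ ¬ u ≡ v [MOD l] ∧ om (x2 Q α u v) l = 3) ∨
    (l ∈ Q ∧ ¬ l ∣ u ∧ ¬ l ∣ v ∧ u ≡ v [MOD l] ∧ om (x2 Q α u v) l = 2) ∨
    (l ∈ Q ∧ ¬ l ∣ u ∧ l ∣ v ∧ om (x2 Q α u v) l = 2) ∨
    (l ∈ Q ∧ l ∣ u ∧ ¬ l ∣ v ∧ om (x2 Q α u v) l = 2) ∨
    (l ∈ Q ∧ l ∣ u ∧ l ∣ v ∧ om (x2 Q α u v) l = 1) := by
  by_cases hQ : l ∈ Q
  · right
    by_cases hu : l ∣ u
    · right; right; right
      by_cases hv : l ∣ v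
      · right; exact ⟨hQ, hu, hv, om_x2_one h hQ hu hv⟩
      · left; exact ⟨hQ, hu, hv, om_x2_two' h hQ hu hv⟩
    · by_cases hv : l ∣ v
      · right; right; left; exact ⟨hQ, hu, hv, om_x2_two h hQ hu (Or.inl hv)⟩
      · by_cases huv : u ≡ v [MOD l]
        · right; left; exact ⟨hQ, hu, hv, huv, om_x2_two h hQ hu (Or.inr huv)⟩
        · left; exact ⟨hQ, hu, hv, huv, om_x2_three h hQ hu hv huv⟩
  · left
    exact ⟨hQ, om_x2_not u v hl hQ⟩

theorem loc_x2 {z : ℕ} {Q : Finset ℕ} {α : ℕ → ℕ} (h : Good z Q α) (u v : ℕ) :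
    Loc (x2 Q α u v) := by
  classical
  refine ⟨?_, ?_, ?_, ?_⟩
  · intro l n
    unfold x2
    split_ifs
    · right; rfl
    · left; rfl
  · intro l n
    unfold x2
    simp only [Nat.dvd_add_self_right, modEq_per]
  · intro l hl
    rcases om_x2_cases h u v hl with hc | hc | hc | hc | hc | hc
    · rw [hc.2]; norm_num
    · rw [hc.2.2.2.2]
    · rw [hc.2.2.2.2]; norm_num
    · rw [hc.2.2.2]; norm_num
    · rw [hc.2.2.2]; norm_num
    · rw [hc.2.2.2]; norm_num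
  · intro l hl
    rcases om_x2_cases h u v hl with hc | hc | hc | hc | hc | hc
    · rw [hc.2]; linarith [two_le_cast hl]
    · have h7 : (7 : ℝ) ≤ l := by exact_mod_cast h.seven l hc.1
      rw [hc.2.2.2.2]; linarith
    · have h7 : (7 : ℝ) ≤ l := by exact_mod_cast h.seven l hc.1
      rw [hc.2.2.2.2]; linarith
    · have h7 : (7 : ℝ) ≤ l := by exact_mod_cast h.seven l hc.1
      rw [hc.2.2.2]; linarith
    · have h7 : (7 : ℝ) ≤ l := by exact_mod_cast h.seven l hc.1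
      rw [hc.2.2.2]; linarith
    · have h7 : (7 : ℝ) ≤ l := by exact_mod_cast h.seven l hc.1
      rw [hc.2.2.2]; linarith

theorem WW_x0 (Z : ℕ) : WW Z x0 = ∏ l ∈ prs Z, (1 - 1 / (l : ℝ)) := by
  unfold WW
  refine Finset.prod_congr rfl fun l hl => ?_
  rw [om_x0 (mem_prs.1 hl).1]

private theorem MU_eq {z Z : ℕ} {Q : Finset ℕ} {α : ℕ → ℕ} (h : Good z Q α) (hz : z ≤ Z) (u : ℕ) :
    MU Q u = ∏ l ∈ prs Z, (if l ∈ Q ∧ ¬ l ∣ u then 1 - 1 / ((l : ℝ) - 1) else 1) := by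
  unfold MU
  rw [← Finset.prod_filter]
  refine Finset.prod_congr ?_ fun _ _ => rfl
  ext l
  simp only [mem_filter]
  exact ⟨fun hl => ⟨prs_mono hz (h.sub hl.1), hl⟩, fun hl => hl.2⟩

private theorem HH_eq {z Z : ℕ} {Q : Finset ℕ} {α : ℕ → ℕ} (h : Good z Q α) (hz : z ≤ Z) (k : ℕ) :
    HH Q k = ∏ l ∈ prs Z, (if l ∈ Q ∧ l ∣ k then 1 + 1 / ((l : ℝ) - 2) else 1) := by
  unfold HH
  rw [← Finset.prod_filter]
  refine Finset.prod_congr ?_ fun _ _ => rfl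
  ext l
  simp only [mem_filter]
  exact ⟨fun hl => ⟨prs_mono hz (h.sub hl.1), hl⟩, fun hl => hl.2⟩

theorem WW_x1 {z Z : ℕ} {Q : Finset ℕ} {α : ℕ → ℕ} (h : Good z Q α) (hz : z ≤ Z) (u : ℕ) :
    WW Z (x1 Q α u) = WW Z x0 * MU Q u := by
  rw [WW_x0, MU_eq h hz, ← Finset.prod_mul_distrib]
  unfold WW
  refine Finset.prod_congr rfl fun l hl => ?_
  have hp := (mem_prs.1 hl).1
  rw [om_x1 h u hp]
  by_cases hc : l ∈ Q ∧ ¬ l ∣ u
  · rw [if_pos hc, if_pos hc]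
    have h7 : (7 : ℝ) ≤ l := by exact_mod_cast h.seven l hc.1
    have h0 : (l : ℝ) ≠ 0 := by linarith
    have h1 : (l : ℝ) - 1 ≠ 0 := by linarith
    field_simp
    ring
  · rw [if_neg hc, if_neg hc, mul_one]

theorem WW_x2_le {z Z : ℕ} {Q : Finset ℕ} {α : ℕ → ℕ} (h : Good z Q α) (hz : z ≤ Z) (u v : ℕ) :
    WW Z (x2 Q α u v) ≤ WW Z x0 * (MU Q u * MU Q v * HH Q (Nat.dist u v)) := by
  rw [WW_x0, MU_eq h hz, MU_eq h hz, HH_eq h hz, ← Finset.prod_mul_distrib, ← Finset.prod_mul_distrib,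
    ← Finset.prod_mul_distrib]
  unfold WW
  refine Finset.prod_le_prod (fun l hl => ?_) (fun l hl => ?_)
  · have hp := (mem_prs.1 hl).1
    have h1 := (loc_x2 h u v).half l hp
    have h2 := two_le_cast hp
    have h3 : om (x2 Q α u v) l / l ≤ 1 := by
      rw [div_le_one (by linarith)]; linarith
    linarith
  · have hp := (mem_prs.1 hl).1
    rcases om_x2_cases h u v hp with hc | hc | hc | hc | hc | hc
    · rw [hc.2, if_neg (fun hh => hc.1 hh.1), if_neg (fun hh => hc.1 hh.1), if_neg (fun hh => hc.1 hh.1)]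
      simp
    · obtain ⟨hQ, hu, hv, huv, ho⟩ := hc
      have h7 : (7 : ℝ) ≤ l := by exact_mod_cast h.seven l hQ
      rw [ho, if_pos ⟨hQ, hu⟩, if_pos ⟨hQ, hv⟩, if_neg (fun hh => huv (dvd_dist.1 hh.2)), mul_one]
      have h0 : (0 : ℝ) < l := by linarith
      have h1 : (0 : ℝ) < (l : ℝ) - 1 := by linarith
      have e : (1 - 1 / (l : ℝ)) * ((1 - 1 / ((l : ℝ) - 1)) * (1 - 1 / ((l : ℝ) - 1))) - (1 - 3 / (l : ℝ)) =
          1 / ((l : ℝ) * ((l : ℝ) - 1)) := by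
        field_simp
        ring
      have e2 : (0 : ℝ) ≤ 1 / ((l : ℝ) * ((l : ℝ) - 1)) := by positivity
      linarith
    · obtain ⟨hQ, hu, hv, huv, ho⟩ := hc
      have h7 : (7 : ℝ) ≤ l := by exact_mod_cast h.seven l hQ
      rw [ho, if_pos ⟨hQ, hu⟩, if_pos ⟨hQ, hv⟩, if_pos ⟨hQ, dvd_dist.2 huv⟩]
      have h0 : (l : ℝ) ≠ 0 := by linarith
      have h1 : (l : ℝ) - 1 ≠ 0 := by linarith
      have h2 : (l : ℝ) - 2 ≠ 0 := by linarith
      apply le_of_eq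
      field_simp
      ring
    · obtain ⟨hQ, hu, hv, ho⟩ := hc
      have h7 : (7 : ℝ) ≤ l := by exact_mod_cast h.seven l hQ
      have hd : ¬ (l ∈ Q ∧ l ∣ Nat.dist u v) := by
        intro hh
        exact hu (((dvd_dist.1 hh.2).dvd_iff (dvd_refl l)).2 hv)
      rw [ho, if_pos ⟨hQ, hu⟩, if_neg (fun hh => hh.2 hv), if_neg hd]
      have h0 : (l : ℝ) ≠ 0 := by linarith
      have h1 : (l : ℝ) - 1 ≠ 0 := by linarith
      apply le_of_eq
      field_simp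
      ring
    · obtain ⟨hQ, hu, hv, ho⟩ := hc
      have h7 : (7 : ℝ) ≤ l := by exact_mod_cast h.seven l hQ
      have hd : ¬ (l ∈ Q ∧ l ∣ Nat.dist u v) := by
        intro hh
        exact hv (((dvd_dist.1 hh.2).dvd_iff (dvd_refl l)).1 hu)
      rw [ho, if_neg (fun hh => hh.2 hu), if_pos ⟨hQ, hv⟩, if_neg hd]
      have h0 : (l : ℝ) ≠ 0 := by linarith
      have h1 : (l : ℝ) - 1 ≠ 0 := by linarith
      apply le_of_eq
      field_simp
      ring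
    · obtain ⟨hQ, hu, hv, ho⟩ := hc
      have h7 : (7 : ℝ) ≤ l := by exact_mod_cast h.seven l hQ
      have huv : u ≡ v [MOD l] :=
        ((Nat.modEq_zero_iff_dvd).2 hu).trans ((Nat.modEq_zero_iff_dvd).2 hv).symm
      rw [ho, if_neg (fun hh => hh.2 hu), if_neg (fun hh => hh.2 hv), if_pos ⟨hQ, dvd_dist.2 huv⟩, one_mul, one_mul]
      have h0 : (0 : ℝ) < l := by linarith
      have h2 : (0 : ℝ) < (l : ℝ) - 2 := by linarith
      have e1 : (0 : ℝ) ≤ 1 - 1 / (l : ℝ) := by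
        have : 1 / (l : ℝ) ≤ 1 := by rw [div_le_one h0]; linarith
        linarith
      have e2 : (0 : ℝ) ≤ 1 / ((l : ℝ) - 2) := by positivity
      nlinarith

end YX49
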