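import Pool.Agent.YX49.Defs

/-!
# [YX49-VR3] Sifted indicators

Pointwise: `sf Z x n` is `1` if `x l n = 0` for all primes `l ≤ Z` and `0` otherwise (all values of `x l n` are `0` or `1`; `Q ⊆ prs z ⊆ prs Z`).
So `sf Z (x1 Q α u) n = sf Z x0 n * (if u n avoids all classes then 1 else 0)`, and similarly for `x2`; sum over `U` resp. `U × U`.
-/

namespace YX49

open Finset

private theorem prod_ind (s : Finset ℕ) (p : ℕ → Prop) [DecidablePred p]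
    [Decidable (∀ l ∈ s, ¬ p l)] :
    ∏ l ∈ s, (1 - (if p l then (1 : ℝ) else 0)) = if ∀ l ∈ s, ¬ p l then 1 else 0 := by
  by_cases h : ∀ l ∈ s, ¬ p l
  · rw [if_pos h]
    refine Finset.prod_eq_one fun l hl => ?_
    rw [if_neg (h l hl), sub_zero]
  · rw [if_neg h]
    push Not at h
    obtain ⟨l, hl, hp⟩ := h
    exact Finset.prod_eq_zero hl (by rw [if_pos hp, sub_self])

private theorem prs_mono {z Z : ℕ} (hz : z ≤ Z) : prs z ⊆ prs Z := fun l hl => by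
  rw [mem_prs] at hl ⊢
  exact ⟨hl.1, hl.2.trans hz⟩

theorem sf_x0 (Z n : ℕ) : sf Z x0 n = if ∀ l ∈ prs Z, ¬ l ∣ n then 1 else 0 := by
  unfold sf x0
  exact prod_ind (prs Z) (fun l => l ∣ n)

open Classical in
private theorem sf_x1' (Z n : ℕ) (Q : Finset ℕ) (α : ℕ → ℕ) (u : ℕ) :
    sf Z (x1 Q α u) n =
      if ∀ l ∈ prs Z, ¬ (l ∣ n ∨ (l ∈ Q ∧ u * n ≡ α l [MOD l])) then 1 else 0 := by
  unfold sf x1
  exact prod_ind (prs Z) _

open Classical in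
private theorem sf_x2' (Z n : ℕ) (Q : Finset ℕ) (α : ℕ → ℕ) (u v : ℕ) :
    sf Z (x2 Q α u v) n =
      if ∀ l ∈ prs Z, ¬ (l ∣ n ∨ (l ∈ Q ∧ (u * n ≡ α l [MOD l] ∨ v * n ≡ α l [MOD l])))
      then 1 else 0 := by
  unfold sf x2
  exact prod_ind (prs Z) _

open Classical in
private theorem NN_eq (Q : Finset ℕ) (α : ℕ → ℕ) (U : Finset ℕ) (n : ℕ) :
    NN Q α U n = ∑ u ∈ U, if ∀ l ∈ Q, ¬ u * n ≡ α l [MOD l] then (1 : ℝ) else 0 := by
  unfold NN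
  rw [Finset.card_filter]
  push_cast
  rfl

theorem sf_x1 {z Z : ℕ} {Q : Finset ℕ} {α : ℕ → ℕ} (h : Good z Q α) (hz : z ≤ Z)
    (U : Finset ℕ) (n : ℕ) :
    sf Z x0 n * NN Q α U n = ∑ u ∈ U, sf Z (x1 Q α u) n := by
  classical
  rw [NN_eq, Finset.mul_sum]
  refine Finset.sum_congr rfl fun u _ => ?_
  rw [sf_x0, sf_x1']
  have hQ : ∀ l ∈ Q, l ∈ prs Z := fun l hl => prs_mono hz (h.sub hl)
  by_cases h0 : ∀ l ∈ prs Z, ¬ l ∣ n
  · rw [if_pos h0, one_mul]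
    by_cases h1 : ∀ l ∈ Q, ¬ u * n ≡ α l [MOD l]
    · rw [if_pos h1, if_pos]
      rintro l hl (h2 | ⟨h2, h3⟩)
      · exact h0 l hl h2
      · exact h1 l h2 h3
    · rw [if_neg h1, if_neg]
      intro h2
      exact h1 fun l hl h3 => h2 l (hQ l hl) (Or.inr ⟨hl, h3⟩)
  · rw [if_neg h0, zero_mul, if_neg]
    intro h2
    exact h0 fun l hl h3 => h2 l hl (Or.inl h3)

theorem sf_x2 {z Z : ℕ} {Q : Finset ℕ} {α : ℕ → ℕ} (h : Good z Q α) (hz : z ≤ Z)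
    (U : Finset ℕ) (n : ℕ) :
    sf Z x0 n * NN Q α U n ^ 2 = ∑ u ∈ U, ∑ v ∈ U, sf Z (x2 Q α u v) n := by
  classical
  rw [NN_eq, sq, Finset.sum_mul_sum, Finset.mul_sum]
  refine Finset.sum_congr rfl fun u _ => ?_
  rw [Finset.mul_sum]
  refine Finset.sum_congr rfl fun v _ => ?_
  rw [sf_x0, sf_x2']
  have hQ : ∀ l ∈ Q, l ∈ prs Z := fun l hl => prs_mono hz (h.sub hl)
  by_cases h0 : ∀ l ∈ prs Z, ¬ l ∣ n
  · rw [if_pos h0, one_mul]
    by_cases h1 : ∀ l ∈ Q, ¬ u * n ≡ α l [MOD l]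
    · rw [if_pos h1, one_mul]
      by_cases h1' : ∀ l ∈ Q, ¬ v * n ≡ α l [MOD l]
      · rw [if_pos h1', if_pos]
        rintro l hl (h2 | ⟨h2, h3 | h3⟩)
        · exact h0 l hl h2
        · exact h1 l h2 h3
        · exact h1' l h2 h3
      · rw [if_neg h1', if_neg]
        intro h2
        exact h1' fun l hl h3 => h2 l (hQ l hl) (Or.inr ⟨hl, Or.inr h3⟩)
    · rw [if_neg h1, zero_mul, if_neg]
      intro h2
      exact h1 fun l hl h3 => h2 l (hQ l hl) (Or.inr ⟨hl, Or.inl h3⟩)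
  · rw [if_neg h0, zero_mul, if_neg]
    intro h2
    exact h0 fun l hl h3 => h2 l hl (Or.inl h3)

theorem x2_self (Q : Finset ℕ) (α : ℕ → ℕ) (u : ℕ) : x2 Q α u u = x1 Q α u := by
  classical
  funext l n
  unfold x2 x1
  simp only [or_self]

end YX49
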