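import Pool.Agent.YX49.Up
import Pool.Agent.YX49.Vr1
import Pool.Agent.YX49.Vr3

/-!
# [YX49-MASSA] Integers free of some primes

`free_sum`: induction over `Z0`: with `A T = ∑_{n ≤ N, free of T} 1/n` one has `(1 - 1/l) A T ≤ A (insert l T)`, because
`A T ≤ A (insert l T) + (1/l) A T`: the members divisible by `l` are `l m` with `m ≤ N/l ≤ N` free of `T`.
`rough_upper`: if `2 V ≤ T` the set is empty (`u ≥ 2` has the prime factor `u.minFac ≤ u ≤ 2 V ≤ T`); otherwise `sieve_up` with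
`x = x0`, `Λ = ∅`, `N = H = V` (`loc_x0`, `om_x0`, `sf_x0`).
-/

namespace YX49

open Finset

theorem free_sum (Z0 : Finset ℕ) (h : ∀ l ∈ Z0, l.Prime) (N : ℕ) :
    (∑ n ∈ Ioc 0 N, (1 : ℝ) / n) * ∏ l ∈ Z0, (1 - 1 / (l : ℝ)) ≤
      ∑ n ∈ (Ioc 0 N).filter (fun n => ∀ l ∈ Z0, ¬ l ∣ n), (1 : ℝ) / n := by
  classical
  induction Z0 using Finset.induction_on with
  | empty => simp
  | insert l T hl ih =>
    have hlp : l.Prime := h l (mem_insert_self l T)
    have ih' := ih fun l' hl' => h l' (mem_insert_of_mem hl')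
    have hl0 : (0 : ℝ) < l := by exact_mod_cast hlp.pos
    have hl1 : (1 : ℝ) ≤ l := by exact_mod_cast hlp.one_lt.le
    have hl2 : (0 : ℝ) ≤ 1 - 1 / (l : ℝ) := by
      rw [sub_nonneg, div_le_one hl0]
      exact hl1
    rw [prod_insert hl]
    -- the multiples of `l`
    have hmul : ∑ n ∈ ((Ioc 0 N).filter fun n => ∀ l' ∈ T, ¬ l' ∣ n).filter (fun n => l ∣ n),
        (1 : ℝ) / n ≤ (1 / (l : ℝ)) *
          ∑ n ∈ (Ioc 0 N).filter (fun n => ∀ l' ∈ T, ¬ l' ∣ n), (1 : ℝ) / n := by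
      rw [mul_sum]
      have e1 : ∑ n ∈ ((Ioc 0 N).filter fun n => ∀ l' ∈ T, ¬ l' ∣ n).filter (fun n => l ∣ n),
          (1 : ℝ) / n = ∑ m ∈ (((Ioc 0 N).filter fun n => ∀ l' ∈ T, ¬ l' ∣ n).filter
            (fun n => l ∣ n)).image (fun n => n / l), (1 / (l : ℝ)) * (1 / (m : ℝ)) := by
        rw [sum_image]
        · refine sum_congr rfl fun n hn => ?_
          rw [mem_filter] at hn
          obtain ⟨m, rfl⟩ := hn.2
          rw [Nat.mul_div_cancel_left m hlp.pos]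
          push_cast
          rw [one_div_mul_one_div]
        · intro n hn n' hn' hnn
          rw [mem_coe, mem_filter] at hn hn'
          obtain ⟨m, rfl⟩ := hn.2
          obtain ⟨m', rfl⟩ := hn'.2
          simp only [Nat.mul_div_cancel_left _ hlp.pos] at hnn
          rw [hnn]
      rw [e1]
      refine sum_le_sum_of_subset_of_nonneg ?_ fun m _ _ => by positivity
      intro m hm
      rw [mem_image] at hm
      obtain ⟨n, hn, rfl⟩ := hm
      rw [mem_filter, mem_filter, mem_Ioc] at hn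
      obtain ⟨⟨⟨hn0, hnN⟩, hT⟩, m, rfl⟩ := hn
      rw [Nat.mul_div_cancel_left m hlp.pos, mem_filter, mem_Ioc]
      refine ⟨⟨?_, ?_⟩, fun l' hl' hd => hT l' hl' (hd.mul_left l)⟩
      · exact Nat.pos_of_mul_pos_left hn0
      · exact (Nat.le_mul_of_pos_left m hlp.pos).trans hnN
    have hsplit := sum_filter_add_sum_filter_not
      ((Ioc 0 N).filter fun n => ∀ l' ∈ T, ¬ l' ∣ n) (fun n => l ∣ n) (fun n => (1 : ℝ) / n)
    have e2 : ((Ioc 0 N).filter fun n => ∀ l' ∈ T, ¬ l' ∣ n).filter (fun n => ¬ l ∣ n) =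
        (Ioc 0 N).filter (fun n => ∀ l' ∈ insert l T, ¬ l' ∣ n) := by
      ext n
      rw [mem_filter, mem_filter, mem_filter, and_assoc]
      refine and_congr_right fun _ => ?_
      rw [forall_mem_insert, and_comm]
    rw [e2] at hsplit
    calc (∑ n ∈ Ioc 0 N, (1 : ℝ) / n) * ((1 - 1 / (l : ℝ)) * ∏ l ∈ T, (1 - 1 / (l : ℝ)))
        = ((∑ n ∈ Ioc 0 N, (1 : ℝ) / n) * ∏ l ∈ T, (1 - 1 / (l : ℝ))) * (1 - 1 / (l : ℝ)) := by
          ring
      _ ≤ (∑ n ∈ (Ioc 0 N).filter (fun n => ∀ l' ∈ T, ¬ l' ∣ n), (1 : ℝ) / n) *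
          (1 - 1 / (l : ℝ)) := mul_le_mul_of_nonneg_right ih' hl2
      _ ≤ _ := by
          rw [mul_sub, mul_one]
          linarith

theorem rough_upper : ∃ C : ℝ, 0 < C ∧ ∀ T V : ℕ, 2 ≤ T → 1 ≤ V →
    (((Ioc V (2 * V)).filter fun u => ∀ l ∈ prs T, ¬ l ∣ u).card : ℝ) ≤ C * V / Real.log T := by
  classical
  obtain ⟨C, hC, hsieve⟩ := sieve_up
  refine ⟨C, hC, fun T V hT hV => ?_⟩
  have hlog : 0 < Real.log T := Real.log_pos (by exact_mod_cast hT)
  rcases Nat.lt_or_ge (2 * V) T with h | h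
  · -- the set is empty
    have he : (Ioc V (2 * V)).filter (fun u => ∀ l ∈ prs T, ¬ l ∣ u) = ∅ := by
      rw [filter_eq_empty_iff]
      intro u hu hall
      rw [mem_Ioc] at hu
      have hu1 : u ≠ 1 := by omega
      refine hall u.minFac ?_ (Nat.minFac_dvd u)
      rw [mem_prs]
      exact ⟨Nat.minFac_prime hu1, (Nat.minFac_le (by omega)).trans (by omega)⟩
    rw [he, card_empty, Nat.cast_zero]
    positivity
  · have h1 := hsieve x0 ∅ loc_x0 (by simp) (by simp) (fun l hl _ => (om_x0 hl).ge) T V V hT h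
    have e : ∑ n ∈ Ioc V (V + V), sf T x0 n =
        (((Ioc V (2 * V)).filter fun u => ∀ l ∈ prs T, ¬ l ∣ u).card : ℝ) := by
      rw [two_mul, Finset.sum_congr rfl fun n _ => sf_x0 T n, sum_boole]
    rw [e] at h1
    exact h1

end YX49
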