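import Pool.Agent.YX49.FL

/-!
# [YX49-UP] Upper bound sieve

`sieve_up`: `s` from `fund 1`. Let `t = min T ⌊H^(1/s)⌋` (any integer `t ≤ T` with `t ^ s ≤ H` and `log t ≥ c log T` for `T ≥ T0`; note `H ≥ T / 2`).
`sf T x n ≤ sf t x n` (all factors are in `[0,1]`), `∑ sf t x n ≤ 2 H WW t x`, and
`WW t x ≤ ∏_{l ∈ prs t, l ∉ Λ} (1 - 1/l) ≤ e^2 ∏_{l ∈ prs t} (1 - 1/l) ≤ e^2 C / log t` (`mert_upper`; `1 - 1/l ≥ exp (-2/l)` for `l ≥ 2`).
For `T < T0` the trivial bound `H` (`0 ≤ sf ≤ 1`).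
-/

namespace YX49

open Finset

private theorem sieve_up_fac {x : ℕ → ℕ → ℝ} (hx : Loc x) (l n : ℕ) :
    0 ≤ 1 - x l n ∧ 1 - x l n ≤ 1 := by
  rcases hx.val l n with h | h <;> rw [h] <;> norm_num

private theorem sieve_up_sf {x : ℕ → ℕ → ℝ} (hx : Loc x) (z n : ℕ) :
    0 ≤ sf z x n ∧ sf z x n ≤ 1 := by
  unfold sf
  exact ⟨prod_nonneg fun l _ => (sieve_up_fac hx l n).1,
    prod_le_one (fun l _ => (sieve_up_fac hx l n).1) fun l _ => (sieve_up_fac hx l n).2⟩

private theorem sieve_up_mono {x : ℕ → ℕ → ℝ} (hx : Loc x) {t T : ℕ} (h : t ≤ T) (n : ℕ) :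
    sf T x n ≤ sf t x n := by
  have hsub : prs t ⊆ prs T := by
    intro l hl
    rw [mem_prs] at hl ⊢
    exact ⟨hl.1, hl.2.trans h⟩
  unfold sf
  rw [← prod_sdiff hsub]
  have h1 : ∏ l ∈ prs T \ prs t, (1 - x l n) ≤ 1 :=
    prod_le_one (fun l _ => (sieve_up_fac hx l n).1) fun l _ => (sieve_up_fac hx l n).2
  have h2 : 0 ≤ ∏ l ∈ prs t, (1 - x l n) := prod_nonneg fun l _ => (sieve_up_fac hx l n).1
  nlinarith

private theorem sieve_up_om {x : ℕ → ℕ → ℝ} (hx : Loc x) (l : ℕ) : 0 ≤ om x l := by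
  unfold om
  apply sum_nonneg
  intro n _
  rcases hx.val l n with h | h <;> rw [h] <;> norm_num

private theorem sieve_up_WW {x : ℕ → ℕ → ℝ} (hx : Loc x) (Λ : Finset ℕ)
    (hΛ : ∀ l ∈ Λ, l.Prime) (hs : ∑ l ∈ Λ, (1 : ℝ) / l ≤ 1)
    (h1 : ∀ l, l.Prime → l ∉ Λ → 1 ≤ om x l) (t : ℕ) :
    0 ≤ WW t x ∧ WW t x ≤ Real.exp 2 * ∏ l ∈ prs t, (1 - 1 / (l : ℝ)) := by
  have hpos : ∀ l ∈ prs t, (2 : ℝ) ≤ l := by
    intro l hl
    rw [mem_prs] at hl
    exact_mod_cast hl.1.two_le
  have hfac : ∀ l ∈ prs t, 0 ≤ 1 - om x l / l := by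
    intro l hl
    have h2 := hpos l hl
    have h3 := hx.half l (mem_prs.mp hl).1
    have h4 : om x l / l ≤ 1 := by
      rw [div_le_one (by linarith)]
      linarith
    linarith
  refine ⟨prod_nonneg hfac, ?_⟩
  have hle : WW t x ≤ ∏ l ∈ prs t, ((if l ∈ Λ then Real.exp (2 * (1 / (l : ℝ))) else 1) *
      (1 - 1 / (l : ℝ))) := by
    unfold WW
    apply prod_le_prod hfac
    intro l hl
    have h2 := hpos l hl
    have hl0 : (0 : ℝ) < l := by linarith
    by_cases hmem : l ∈ Λ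
    · rw [if_pos hmem]
      have h3 : 0 ≤ om x l / l := div_nonneg (sieve_up_om hx l) hl0.le
      have h4 : 2 * (1 / (l : ℝ)) + 1 ≤ Real.exp (2 * (1 / (l : ℝ))) := Real.add_one_le_exp _
      have h5 : 0 < 1 / (l : ℝ) := by positivity
      have h6 : 1 / (l : ℝ) ≤ 1 / 2 := by
        apply one_div_le_one_div_of_le (by norm_num) h2
      set u := 1 / (l : ℝ) with hu
      have h7 : (2 * u + 1) * (1 - u) ≤ Real.exp (2 * u) * (1 - u) :=
        mul_le_mul_of_nonneg_right h4 (by linarith)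
      nlinarith
    · rw [if_neg hmem, one_mul]
      have h3 := h1 l (mem_prs.mp hl).1 hmem
      have h4 : 1 / (l : ℝ) ≤ om x l / l := by
        apply div_le_div_of_nonneg_right h3 hl0.le
      linarith
  refine hle.trans ?_
  rw [prod_mul_distrib]
  apply mul_le_mul_of_nonneg_right
  · have h2 : ∏ l ∈ prs t, (if l ∈ Λ then Real.exp (2 * (1 / (l : ℝ))) else 1) =
        Real.exp (∑ l ∈ (prs t).filter (fun l => l ∈ Λ), 2 * (1 / (l : ℝ))) := by
      rw [Real.exp_sum, prod_filter]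
    rw [h2]
    apply Real.exp_le_exp.mpr
    rw [← mul_sum]
    have h3 : ∑ l ∈ (prs t).filter (fun l => l ∈ Λ), 1 / (l : ℝ) ≤ ∑ l ∈ Λ, 1 / (l : ℝ) := by
      apply sum_le_sum_of_subset_of_nonneg
      · intro l hl
        exact (mem_filter.mp hl).2
      · intro l _ _
        positivity
    linarith
  · apply prod_nonneg
    intro l hl
    have h2 := hpos l hl
    have h3 : 1 / (l : ℝ) ≤ 1 := by
      rw [div_le_one (by linarith)]
      linarith
    linarith

theorem sieve_up : ∃ C : ℝ, 0 < C ∧ ∀ (x : ℕ → ℕ → ℝ) (Λ : Finset ℕ), Loc x →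
    (∀ l ∈ Λ, l.Prime) → ∑ l ∈ Λ, (1 : ℝ) / l ≤ 1 → (∀ l, l.Prime → l ∉ Λ → 1 ≤ om x l) →
    ∀ T N H : ℕ, 2 ≤ T → T ≤ 2 * H →
    ∑ n ∈ Ioc N (N + H), sf T x n ≤ C * H / Real.log T := by
  obtain ⟨s, hs1, hfund⟩ := fund 1 one_pos le_rfl
  obtain ⟨C', hC', hmert⟩ := mert_upper
  have hs1' : (1 : ℝ) ≤ s := by exact_mod_cast hs1
  have hlog2 : Real.log 2 ≤ 1 := by
    have := Real.log_two_lt_d9
    linarith
  have hlog2' : 0 < Real.log 2 := Real.log_pos (by norm_num)
  refine ⟨(s + 1) + 6 * s * Real.exp 2 * C', by positivity, ?_⟩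
  intro x Λ hx hΛ hsum hom T N H hT hTH
  have hTpos : (0 : ℝ) < T := by positivity
  have hT2 : (2 : ℝ) ≤ T := by exact_mod_cast hT
  have hlogT : 0 < Real.log T := Real.log_pos (by linarith)
  have hH0 : H ≠ 0 := by omega
  have hH : (0 : ℝ) ≤ H := by positivity
  rw [le_div_iff₀ hlogT]
  have hlt : H < 2 ^ (Nat.log 2 H + 1) := Nat.lt_pow_succ_log_self (by norm_num) H
  by_cases hsmall : Nat.log 2 H < s
  · -- the trivial bound
    have h1 : T ≤ 2 ^ (s + 1) := by
      calc T ≤ 2 * H := hTH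
        _ ≤ 2 * 2 ^ s := by
          apply Nat.mul_le_mul_left
          exact hlt.le.trans (Nat.pow_le_pow_right (by norm_num) hsmall)
        _ = 2 ^ (s + 1) := by ring
    have h2 : Real.log T ≤ s + 1 := by
      have h3 : Real.log T ≤ Real.log ((2 : ℝ) ^ (s + 1)) := by
        apply Real.log_le_log hTpos
        exact_mod_cast h1
      rw [Real.log_pow] at h3
      push_cast at h3
      nlinarith
    have h3 : ∑ n ∈ Ioc N (N + H), sf T x n ≤ H := by
      calc ∑ n ∈ Ioc N (N + H), sf T x n ≤ ∑ n ∈ Ioc N (N + H), (1 : ℝ) :=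
            sum_le_sum fun n _ => (sieve_up_sf hx T n).2
        _ = H := by simp
    calc (∑ n ∈ Ioc N (N + H), sf T x n) * Real.log T ≤ H * (s + 1) :=
          mul_le_mul h3 h2 hlogT.le hH
      _ ≤ ((s + 1) + 6 * s * Real.exp 2 * C') * H := by
          have : 0 ≤ 6 * s * Real.exp 2 * C' * H := by positivity
          nlinarith
  · push Not at hsmall
    set q := Nat.log 2 H / s with hq
    have hq1 : 1 ≤ q := by
      rw [hq, Nat.one_le_div_iff (by omega)]
      exact hsmall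
    have hqs : q * s ≤ Nat.log 2 H := Nat.div_mul_le_self _ _
    have hqs2 : Nat.log 2 H < (q + 1) * s := by
      rw [hq]
      have := Nat.lt_div_mul_add (a := Nat.log 2 H) (b := s) (by omega)
      rw [Nat.add_mul, one_mul]
      exact this
    have hqs3 : Nat.log 2 H + 1 ≤ 2 * (q * s) := by
      have h1 : s ≤ q * s := Nat.le_mul_of_pos_left s hq1
      have h2 : (q + 1) * s = q * s + s := by ring
      omega
    have hTle : T ≤ 2 ^ (3 * (q * s)) := by
      have h1 : 1 ≤ q * s := Nat.one_le_iff_ne_zero.mpr (by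
        have := Nat.mul_pos (show 0 < q by omega) (show 0 < s by omega)
        omega)
      calc T ≤ 2 * H := hTH
        _ ≤ 2 * 2 ^ (2 * (q * s)) := by
          apply Nat.mul_le_mul_left
          exact hlt.le.trans (Nat.pow_le_pow_right (by norm_num) hqs3)
        _ = 2 ^ (2 * (q * s) + 1) := by ring
        _ ≤ 2 ^ (3 * (q * s)) := Nat.pow_le_pow_right (by norm_num) (by omega)
    set t := min T (2 ^ q) with ht
    have ht2 : 2 ≤ t := by
      rw [ht, le_min_iff]
      refine ⟨hT, ?_⟩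
      calc 2 = 2 ^ 1 := by norm_num
        _ ≤ 2 ^ q := Nat.pow_le_pow_right (by norm_num) hq1
    have ht2' : (2 : ℝ) ≤ t := by exact_mod_cast ht2
    have htT : t ≤ T := min_le_left _ _
    have hts : t ^ s ≤ H := by
      calc t ^ s ≤ (2 ^ q) ^ s := Nat.pow_le_pow_left (min_le_right _ _) s
        _ = 2 ^ (q * s) := by rw [pow_mul]
        _ ≤ 2 ^ Nat.log 2 H := Nat.pow_le_pow_right (by norm_num) hqs
        _ ≤ H := Nat.pow_log_le_self 2 hH0
    have hlogt : 0 < Real.log t := Real.log_pos (by linarith)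
    have hlog : Real.log T ≤ 3 * s * Real.log t := by
      rcases min_choice T (2 ^ q) with h | h
      · rw [ht, h]
        nlinarith
      · have h3 : Real.log T ≤ Real.log ((2 : ℝ) ^ (3 * (q * s))) := by
          apply Real.log_le_log hTpos
          exact_mod_cast hTle
        rw [Real.log_pow] at h3
        have h4 : Real.log t = q * Real.log 2 := by
          rw [ht, h]
          push_cast
          rw [Real.log_pow]
        rw [h4]
        push_cast at h3
        nlinarith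
    have hf := hfund t ht2 x hx N H hts
    obtain ⟨hW0, hW⟩ := sieve_up_WW hx Λ hΛ hsum hom t
    have hm := hmert t ht2
    have h1 : ∑ n ∈ Ioc N (N + H), sf t x n ≤ 2 * (H * WW t x) := by
      have h2 := (abs_le.mp hf).2
      have h3 : 0 ≤ H * WW t x := mul_nonneg hH hW0
      have h4 : (1 / (s : ℝ)) ≤ 1 := by
        rw [div_le_one (by linarith)]
        exact hs1'
      have h5 : (1 / (s : ℝ)) * (H * WW t x) ≤ 1 * (H * WW t x) :=
        mul_le_mul_of_nonneg_right h4 h3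
      linarith
    have h2 : ∑ n ∈ Ioc N (N + H), sf T x n ≤ ∑ n ∈ Ioc N (N + H), sf t x n :=
      sum_le_sum fun n _ => sieve_up_mono hx htT n
    have h3 : WW t x * Real.log t ≤ Real.exp 2 * C' := by
      have h4 : WW t x ≤ Real.exp 2 * (C' / Real.log t) :=
        hW.trans (mul_le_mul_of_nonneg_left hm (Real.exp_pos 2).le)
      calc WW t x * Real.log t ≤ Real.exp 2 * (C' / Real.log t) * Real.log t :=
            mul_le_mul_of_nonneg_right h4 hlogt.le
        _ = Real.exp 2 * C' := by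
            field_simp
    have hS0 : 0 ≤ ∑ n ∈ Ioc N (N + H), sf T x n :=
      sum_nonneg fun n _ => (sieve_up_sf hx T n).1
    calc (∑ n ∈ Ioc N (N + H), sf T x n) * Real.log T
        ≤ (2 * (H * WW t x)) * (3 * s * Real.log t) :=
          mul_le_mul (h2.trans h1) hlog hlogT.le (by positivity)
      _ = 6 * s * H * (WW t x * Real.log t) := by ring
      _ ≤ 6 * s * H * (Real.exp 2 * C') :=
          mul_le_mul_of_nonneg_left h3 (by positivity)
      _ ≤ ((s + 1) + 6 * s * Real.exp 2 * C') * H := by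
          have : 0 ≤ ((s : ℝ) + 1) * H := by positivity
          nlinarith

end YX49
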