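import Pool.Agent.YX49.Defs

/-!
# [YX49-VR0] Local densities

Count the `n < l` with `x l n = 1`: the class `0`, and for `l ∈ Q`, `¬ l ∣ u` the one class `n ≡ α l / u`, which is not `0` because `¬ l ∣ α l`; for `l ∣ u` there is
no `n` with `u n ≡ α l` modulo `l`. For `u`, `v` not divisible by `l` the classes `α l / u`, `α l / v` are equal iff `u ≡ v`.
A clean way: `om` is the cardinality of `(range l).filter _`, and this set is `{0, n1}`, `{0, n1, n2}` etc.
-/

namespace YX49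

open Finset

private theorem cls {l u a : ℕ} (hl : l.Prime) (hu : ¬ l ∣ u) (ha : ¬ l ∣ a) :
    ∃ n0, n0 < l ∧ n0 ≠ 0 ∧ ∀ n < l, (u * n ≡ a [MOD l] ↔ n = n0) := by
  have hco : Nat.Coprime u l := ((Nat.Prime.coprime_iff_not_dvd hl).2 hu).symm
  obtain ⟨c, -, hc⟩ := Nat.exists_mul_mod_eq_one_of_coprime hco hl.one_lt
  have hc1 : u * c ≡ 1 [MOD l] := by
    unfold Nat.ModEq
    rw [hc, Nat.mod_eq_of_lt hl.one_lt]
  have key : u * ((c * a) % l) ≡ a [MOD l] := by
    have h1 : u * ((c * a) % l) ≡ u * (c * a) [MOD l] := Nat.ModEq.mul_left u (Nat.mod_modEq _ _)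
    have h2 : u * (c * a) ≡ 1 * a [MOD l] := by
      rw [← mul_assoc]
      exact Nat.ModEq.mul_right a hc1
    rw [one_mul] at h2
    exact h1.trans h2
  refine ⟨(c * a) % l, Nat.mod_lt _ hl.pos, ?_, ?_⟩
  · intro h0
    rw [h0, mul_zero] at key
    exact ha ((Nat.modEq_zero_iff_dvd).1 key.symm)
  · intro n hn
    constructor
    · intro h
      have h3 : u * n ≡ u * ((c * a) % l) [MOD l] := h.trans key.symm
      have h4 : n ≡ (c * a) % l [MOD l] := Nat.ModEq.cancel_left_of_coprime hco.symm h3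
      exact Nat.ModEq.eq_of_lt_of_lt h4 hn (Nat.mod_lt _ hl.pos)
    · intro h
      rw [h]
      exact key

private theorem nocls {l u a n : ℕ} (hu : l ∣ u) (ha : ¬ l ∣ a) : ¬ u * n ≡ a [MOD l] := by
  intro h
  have h1 : u * n ≡ 0 [MOD l] := (Nat.modEq_zero_iff_dvd).2 (hu.mul_right n)
  exact ha ((Nat.modEq_zero_iff_dvd).1 (h.symm.trans h1))

private theorem dvd_lt {l n : ℕ} (hn : n < l) : l ∣ n ↔ n = 0 := by
  constructor
  · intro h
    exact Nat.eq_zero_of_dvd_of_lt h hn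
  · rintro rfl
    exact dvd_zero _

private theorem sum1 {l : ℕ} (hl : 0 < l) (f : ℕ → ℝ) (h : ∀ n < l, f n = if n = 0 then 1 else 0) :
    ∑ n ∈ range l, f n = 1 := by
  rw [sum_congr rfl (fun n hn => h n (mem_range.1 hn)), Finset.sum_ite_eq' (range l) 0, if_pos (mem_range.2 hl)]

private theorem sum2 {l n1 : ℕ} (hl : 0 < l) (h1 : n1 < l) (f : ℕ → ℝ)
    (h : ∀ n < l, f n = (if n = 0 then 1 else 0) + (if n = n1 then 1 else 0)) :
    ∑ n ∈ range l, f n = 2 := by
  rw [sum_congr rfl (fun n hn => h n (mem_range.1 hn)), sum_add_distrib, Finset.sum_ite_eq' (range l) 0,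
    Finset.sum_ite_eq' (range l) n1, if_pos (mem_range.2 hl), if_pos (mem_range.2 h1)]
  norm_num

private theorem sum3 {l n1 n2 : ℕ} (hl : 0 < l) (h1 : n1 < l) (h2 : n2 < l) (f : ℕ → ℝ)
    (h : ∀ n < l, f n = (if n = 0 then 1 else 0) + (if n = n1 then 1 else 0) + (if n = n2 then 1 else 0)) :
    ∑ n ∈ range l, f n = 3 := by
  rw [sum_congr rfl (fun n hn => h n (mem_range.1 hn)), sum_add_distrib, sum_add_distrib,
    Finset.sum_ite_eq' (range l) 0, Finset.sum_ite_eq' (range l) n1, Finset.sum_ite_eq' (range l) n2,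
    if_pos (mem_range.2 hl), if_pos (mem_range.2 h1), if_pos (mem_range.2 h2)]
  norm_num

theorem om_x0 {l : ℕ} (hl : l.Prime) : om x0 l = 1 := by
  unfold om
  refine sum1 hl.pos _ ?_
  intro n hn
  unfold x0
  simp only [dvd_lt hn]

theorem om_x1 {z : ℕ} {Q : Finset ℕ} {α : ℕ → ℕ} (h : Good z Q α) (u : ℕ) {l : ℕ}
    (hl : l.Prime) : om (x1 Q α u) l = if l ∈ Q ∧ ¬ l ∣ u then 2 else 1 := by
  unfold om
  by_cases hQ : l ∈ Q
  · have ha := h.nz l hQ
    by_cases hu : l ∣ u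
    · rw [if_neg (by tauto)]
      refine sum1 hl.pos _ ?_
      intro n hn
      unfold x1
      have := nocls (n := n) hu ha
      simp only [dvd_lt hn, this, and_false, or_false]
    · rw [if_pos ⟨hQ, hu⟩]
      obtain ⟨n1, h1, h1', h1''⟩ := cls hl hu ha
      refine sum2 hl.pos h1 _ ?_
      intro n hn
      unfold x1
      simp only [dvd_lt hn, h1'' n hn, hQ, true_and]
      by_cases h0 : n = 0
      · subst h0
        have : ¬ (0 = n1) := fun h => h1' h.symm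
        simp [this]
      · simp [h0]
  · rw [if_neg (by tauto)]
    refine sum1 hl.pos _ ?_
    intro n hn
    unfold x1
    simp only [dvd_lt hn, hQ, false_and, or_false]

theorem om_x2_not {Q : Finset ℕ} {α : ℕ → ℕ} (u v : ℕ) {l : ℕ}
    (hl : l.Prime) (hQ : l ∉ Q) : om (x2 Q α u v) l = 1 := by
  unfold om
  refine sum1 hl.pos _ ?_
  intro n hn
  unfold x2
  simp only [dvd_lt hn, hQ, false_and, or_false]

private theorem prm {z : ℕ} {Q : Finset ℕ} {α : ℕ → ℕ} (h : Good z Q α) {l : ℕ} (hQ : l ∈ Q) : l.Prime :=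
  (mem_prs.1 (h.sub hQ)).1

theorem om_x2_three {z : ℕ} {Q : Finset ℕ} {α : ℕ → ℕ} (h : Good z Q α) {u v l : ℕ}
    (hQ : l ∈ Q) (hu : ¬ l ∣ u) (hv : ¬ l ∣ v) (huv : ¬ u ≡ v [MOD l]) :
    om (x2 Q α u v) l = 3 := by
  have hl := prm h hQ
  have ha := h.nz l hQ
  unfold om
  obtain ⟨n1, h1, h1', h1''⟩ := cls hl hu ha
  obtain ⟨n2, h2, h2', h2''⟩ := cls hl hv ha
  have hne : n1 ≠ n2 := by
    intro he
    apply huv
    have e1 : u * n1 ≡ α l [MOD l] := (h1'' n1 h1).2 rfl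
    have e2 : v * n1 ≡ α l [MOD l] := (h2'' n1 h1).2 he
    have hco : Nat.Coprime l n1 := (Nat.Prime.coprime_iff_not_dvd hl).2 (fun hd => h1' ((dvd_lt h1).1 hd))
    exact Nat.ModEq.cancel_right_of_coprime hco (e1.trans e2.symm)
  refine sum3 hl.pos h1 h2 _ ?_
  intro n hn
  unfold x2
  simp only [dvd_lt hn, h1'' n hn, h2'' n hn, hQ, true_and]
  by_cases h0 : n = 0
  · subst h0
    have e1 : ¬ (0 = n1) := fun h => h1' h.symm
    have e2 : ¬ (0 = n2) := fun h => h2' h.symm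
    simp [e1, e2]
  · by_cases hn1 : n = n1
    · subst hn1
      simp [h1', hne]
    · simp [h0, hn1]

theorem om_x2_two {z : ℕ} {Q : Finset ℕ} {α : ℕ → ℕ} (h : Good z Q α) {u v l : ℕ}
    (hQ : l ∈ Q) (hu : ¬ l ∣ u) (hv : l ∣ v ∨ u ≡ v [MOD l]) :
    om (x2 Q α u v) l = 2 := by
  have hl := prm h hQ
  have ha := h.nz l hQ
  unfold om
  obtain ⟨n1, h1, h1', h1''⟩ := cls hl hu ha
  refine sum2 hl.pos h1 _ ?_
  intro n hn
  unfold x2
  have key : (u * n ≡ α l [MOD l] ∨ v * n ≡ α l [MOD l]) ↔ n = n1 := by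
    rw [h1'' n hn]
    constructor
    · rintro (e | e)
      · exact e
      · rcases hv with hv | hv
        · exact absurd e (nocls hv ha)
        · exact (h1'' n hn).1 ((Nat.ModEq.mul_right n hv).trans e)
    · intro e
      exact Or.inl e
  simp only [dvd_lt hn, key, hQ, true_and]
  by_cases h0 : n = 0
  · subst h0
    have e1 : ¬ (0 = n1) := fun h => h1' h.symm
    simp [e1]
  · simp [h0]

theorem om_x2_two' {z : ℕ} {Q : Finset ℕ} {α : ℕ → ℕ} (h : Good z Q α) {u v l : ℕ}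
    (hQ : l ∈ Q) (hu : l ∣ u) (hv : ¬ l ∣ v) : om (x2 Q α u v) l = 2 := by
  have hl := prm h hQ
  have ha := h.nz l hQ
  unfold om
  obtain ⟨n1, h1, h1', h1''⟩ := cls hl hv ha
  refine sum2 hl.pos h1 _ ?_
  intro n hn
  unfold x2
  have e0 : ¬ u * n ≡ α l [MOD l] := nocls hu ha
  simp only [dvd_lt hn, h1'' n hn, e0, hQ, true_and, false_or]
  by_cases h0 : n = 0
  · subst h0
    have e1 : ¬ (0 = n1) := fun h => h1' h.symm
    simp [e1]
  · simp [h0]

theorem om_x2_one {z : ℕ} {Q : Finset ℕ} {α : ℕ → ℕ} (h : Good z Q α) {u v l : ℕ}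
    (hQ : l ∈ Q) (hu : l ∣ u) (hv : l ∣ v) : om (x2 Q α u v) l = 1 := by
  have hl := prm h hQ
  have ha := h.nz l hQ
  unfold om
  refine sum1 hl.pos _ ?_
  intro n hn
  unfold x2
  have e0 : ¬ u * n ≡ α l [MOD l] := nocls hu ha
  have e1 : ¬ v * n ≡ α l [MOD l] := nocls hv ha
  simp only [dvd_lt hn, e0, e1, or_self, and_false, or_false]

end YX49
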