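import Pool.Agent.YX49.Vr1
import Pool.Agent.YX49.Vr3

/-!
# [YX49-VR2] The variance

Expand the square: `∑ sf x0 NN^2 - 2 μ ∑ sf x0 NN + μ^2 ∑ sf x0` with `μ = ∑_{u ∈ U} MU u`; `sf_x1`, `sf_x2`, exchange sums, `hF` for `x0`, `x1 u`, `x2 u v`;
`x2 u u = x1 u` (`x2_self`; so the diagonal terms are at most `(1 + ε) H W0 MU u`); `W0 = WW Z x0 ≥ 0`; `∑_{u ≠ v} MU u MU v ≤ μ^2`; `0 ≤ MU`. Result:
`H W0 [(1+ε) ∑_{u≠v} MU MU HH + (1+ε) μ - 2 (1-ε) μ^2 + (1+ε) μ^2]`.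
`MU_eq`: per prime: `1 / (1 - 1/(l-1)) = 1 + 1/(l-2)`.
-/

namespace YX49

open Finset

theorem MU_eq (Q : Finset ℕ) (hQ : ∀ l ∈ Q, 7 ≤ l) (u : ℕ) :
    MU Q u = (∏ l ∈ Q, (1 - 1 / ((l : ℝ) - 1))) * HH Q u := by
  unfold MU HH
  rw [← Finset.prod_filter_mul_prod_filter_not Q (fun l => l ∣ u)
    (fun l => (1 - 1 / ((l : ℝ) - 1)))]
  have h1 : (∏ l ∈ Q.filter (fun l => l ∣ u), (1 - 1 / ((l : ℝ) - 1))) *
      (∏ l ∈ Q.filter (fun l => l ∣ u), (1 + 1 / ((l : ℝ) - 2))) = 1 := by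
    rw [← Finset.prod_mul_distrib]
    refine Finset.prod_eq_one fun l hl => ?_
    have h7 : (7 : ℝ) ≤ l := by exact_mod_cast hQ l (Finset.mem_filter.1 hl).1
    have h2 : (l : ℝ) - 1 ≠ 0 := by linarith
    have h3 : (l : ℝ) - 2 ≠ 0 := by linarith
    field_simp
    ring
  rw [mul_comm (∏ l ∈ Q.filter (fun l => l ∣ u), (1 - 1 / ((l : ℝ) - 1))), mul_assoc, h1, mul_one]

theorem Vr2_prod_pos (Q : Finset ℕ) (hQ : ∀ l ∈ Q, 7 ≤ l) :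
    0 < ∏ l ∈ Q, (1 - 1 / ((l : ℝ) - 1)) := by
  refine Finset.prod_pos fun l hl => ?_
  have h7 : (7 : ℝ) ≤ l := by exact_mod_cast hQ l hl
  have h2 : (0 : ℝ) < (l : ℝ) - 1 := by linarith
  have h3 : 1 / ((l : ℝ) - 1) < 1 := by
    rw [div_lt_one h2]
    linarith
  linarith

theorem MU_nonneg (Q : Finset ℕ) (hQ : ∀ l ∈ Q, 7 ≤ l) (u : ℕ) : 0 ≤ MU Q u :=
  (Vr2_prod_pos _ fun l hl => hQ l (Finset.mem_filter.1 hl).1).le

theorem Vr2_W0 (Z : ℕ) : 0 ≤ WW Z x0 := by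
  rw [WW_x0]
  refine Finset.prod_nonneg fun l hl => ?_
  have h1 : (1 : ℝ) ≤ l := by exact_mod_cast (mem_prs.1 hl).1.one_lt.le
  have h2 : 1 / (l : ℝ) ≤ 1 := by
    rw [div_le_one (by linarith)]
    exact h1
  linarith

theorem variance {z Z : ℕ} {Q : Finset ℕ} {α : ℕ → ℕ} (h : Good z Q α) (hz : z ≤ Z) {ε : ℝ}
    (hε : 0 ≤ ε) (hε1 : ε ≤ 1) (N H : ℕ)
    (hF : ∀ x : ℕ → ℕ → ℝ, Loc x →
      |∑ n ∈ Ioc N (N + H), sf Z x n - H * WW Z x| ≤ ε * (H * WW Z x)) (U : Finset ℕ) :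
    ∑ n ∈ Ioc N (N + H), sf Z x0 n * (NN Q α U n - ∑ u ∈ U, MU Q u) ^ 2 ≤
      H * WW Z x0 * ((1 + ε) * (∑ u ∈ U, ∑ v ∈ U.erase u,
        MU Q u * MU Q v * (HH Q (Nat.dist u v) - 1)) + 4 * ε * (∑ u ∈ U, MU Q u) ^ 2 +
        (1 + ε) * ∑ u ∈ U, MU Q u) := by
  obtain ⟨μ, hμ⟩ : ∃ μ, μ = ∑ u ∈ U, MU Q u := ⟨_, rfl⟩
  obtain ⟨A, hA⟩ : ∃ A : ℝ, A = H * WW Z x0 := ⟨_, rfl⟩
  have hA0 : 0 ≤ A := by
    rw [hA]
    exact mul_nonneg (Nat.cast_nonneg _) (Vr2_W0 Z)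
  have hM : ∀ u, 0 ≤ MU Q u := MU_nonneg Q h.seven
  have hμ0 : 0 ≤ μ := by
    rw [hμ]
    exact Finset.sum_nonneg fun u _ => hM u
  rw [← hμ, ← hA]
  -- the three kinds of sums
  have e0 : ∑ n ∈ Ioc N (N + H), sf Z x0 n ≤ (1 + ε) * A := by
    have h1 := (abs_le.1 (hF x0 loc_x0)).2
    rw [← hA] at h1
    linarith
  have e1l : ∀ u, (1 - ε) * (A * MU Q u) ≤ ∑ n ∈ Ioc N (N + H), sf Z (x1 Q α u) n := by
    intro u
    have h1 := (abs_le.1 (hF _ (loc_x1 h u))).1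
    have h2 : (H : ℝ) * WW Z (x1 Q α u) = A * MU Q u := by
      rw [WW_x1 h hz u, hA, mul_assoc]
    rw [h2] at h1
    linarith
  have e1u : ∀ u, ∑ n ∈ Ioc N (N + H), sf Z (x1 Q α u) n ≤ (1 + ε) * (A * MU Q u) := by
    intro u
    have h1 := (abs_le.1 (hF _ (loc_x1 h u))).2
    have h2 : (H : ℝ) * WW Z (x1 Q α u) = A * MU Q u := by
      rw [WW_x1 h hz u, hA, mul_assoc]
    rw [h2] at h1
    linarith
  have e2 : ∀ u v, ∑ n ∈ Ioc N (N + H), sf Z (x2 Q α u v) n ≤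
      (1 + ε) * (A * (MU Q u * MU Q v * HH Q (Nat.dist u v))) := by
    intro u v
    have h1 := (abs_le.1 (hF _ (loc_x2 h u v))).2
    have h2 : (H : ℝ) * WW Z (x2 Q α u v) ≤ A * (MU Q u * MU Q v * HH Q (Nat.dist u v)) := by
      rw [hA, mul_assoc]
      exact mul_le_mul_of_nonneg_left (WW_x2_le h hz u v) (Nat.cast_nonneg _)
    have h3 := mul_le_mul_of_nonneg_left h2 (by linarith : 0 ≤ 1 + ε)
    linarith
  -- expansion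
  have hexp : ∑ n ∈ Ioc N (N + H), sf Z x0 n * (NN Q α U n - μ) ^ 2 =
      (∑ u ∈ U, ∑ v ∈ U, ∑ n ∈ Ioc N (N + H), sf Z (x2 Q α u v) n) -
        2 * μ * (∑ u ∈ U, ∑ n ∈ Ioc N (N + H), sf Z (x1 Q α u) n) +
        μ ^ 2 * ∑ n ∈ Ioc N (N + H), sf Z x0 n := by
    have h1 : ∑ u ∈ U, ∑ v ∈ U, ∑ n ∈ Ioc N (N + H), sf Z (x2 Q α u v) n =
        ∑ n ∈ Ioc N (N + H), sf Z x0 n * NN Q α U n ^ 2 := by
      have h2 : ∀ u ∈ U, ∑ v ∈ U, ∑ n ∈ Ioc N (N + H), sf Z (x2 Q α u v) n =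
          ∑ n ∈ Ioc N (N + H), ∑ v ∈ U, sf Z (x2 Q α u v) n := fun u _ => Finset.sum_comm
      rw [Finset.sum_congr rfl h2, Finset.sum_comm]
      exact Finset.sum_congr rfl fun n _ => (sf_x2 h hz U n).symm
    have h3 : ∑ u ∈ U, ∑ n ∈ Ioc N (N + H), sf Z (x1 Q α u) n =
        ∑ n ∈ Ioc N (N + H), sf Z x0 n * NN Q α U n := by
      rw [Finset.sum_comm]
      exact Finset.sum_congr rfl fun n _ => (sf_x1 h hz U n).symm
    rw [h1, h3, Finset.mul_sum, Finset.mul_sum, ← Finset.sum_sub_distrib, ← Finset.sum_add_distrib]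
    exact Finset.sum_congr rfl fun n _ => by ring
  -- the double sum
  obtain ⟨S, hS⟩ : ∃ S : ℝ, S = ∑ u ∈ U, ∑ v ∈ U.erase u,
        MU Q u * MU Q v * (HH Q (Nat.dist u v) - 1) := ⟨_, rfl⟩
  rw [← hS]
  have hd : ∑ u ∈ U, ∑ v ∈ U, ∑ n ∈ Ioc N (N + H), sf Z (x2 Q α u v) n ≤
      (1 + ε) * (A * (S + μ ^ 2 + μ)) := by
    have h1 : ∀ u ∈ U, ∑ v ∈ U, ∑ n ∈ Ioc N (N + H), sf Z (x2 Q α u v) n ≤
        (1 + ε) * (A * (∑ v ∈ U.erase u, MU Q u * MU Q v * (HH Q (Nat.dist u v) - 1))) +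
          (1 + ε) * (A * (MU Q u * μ)) + (1 + ε) * (A * MU Q u) := by
      intro u hu
      rw [← Finset.add_sum_erase U _ hu, x2_self]
      have h2 : ∑ v ∈ U.erase u, ∑ n ∈ Ioc N (N + H), sf Z (x2 Q α u v) n ≤
          ∑ v ∈ U.erase u, (1 + ε) * (A * (MU Q u * MU Q v * HH Q (Nat.dist u v))) :=
        Finset.sum_le_sum fun v _ => e2 u v
      have h3 : ∑ v ∈ U.erase u, (1 + ε) * (A * (MU Q u * MU Q v * HH Q (Nat.dist u v))) =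
          (1 + ε) * (A * (∑ v ∈ U.erase u, MU Q u * MU Q v * (HH Q (Nat.dist u v) - 1))) +
            (1 + ε) * (A * (MU Q u * ∑ v ∈ U.erase u, MU Q v)) := by
        simp only [Finset.mul_sum]
        rw [← Finset.sum_add_distrib]
        exact Finset.sum_congr rfl fun v _ => by ring
      have h4 : ∑ v ∈ U.erase u, MU Q v ≤ μ := by
        rw [hμ]
        exact Finset.sum_le_sum_of_subset_of_nonneg (Finset.erase_subset u U) fun v _ _ => hM v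
      have h5 : (1 + ε) * (A * (MU Q u * ∑ v ∈ U.erase u, MU Q v)) ≤
          (1 + ε) * (A * (MU Q u * μ)) :=
        mul_le_mul_of_nonneg_left (mul_le_mul_of_nonneg_left
          (mul_le_mul_of_nonneg_left h4 (hM u)) hA0) (by linarith)
      have h6 := e1u u
      linarith
    refine (Finset.sum_le_sum h1).trans (le_of_eq ?_)
    rw [Finset.sum_add_distrib, Finset.sum_add_distrib, ← Finset.mul_sum, ← Finset.mul_sum,
      ← Finset.mul_sum, ← Finset.mul_sum, ← Finset.mul_sum, ← Finset.mul_sum, ← Finset.sum_mul,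
      ← hS, ← hμ]
    ring
  have hl : (1 - ε) * (A * μ) ≤ ∑ u ∈ U, ∑ n ∈ Ioc N (N + H), sf Z (x1 Q α u) n := by
    have h1 : ∑ u ∈ U, (1 - ε) * (A * MU Q u) ≤
        ∑ u ∈ U, ∑ n ∈ Ioc N (N + H), sf Z (x1 Q α u) n := Finset.sum_le_sum fun u _ => e1l u
    rwa [← Finset.mul_sum, ← Finset.mul_sum, ← hμ] at h1
  rw [hexp]
  have h7 := mul_le_mul_of_nonneg_left hl (by linarith : 0 ≤ 2 * μ)
  have h8 := mul_le_mul_of_nonneg_left e0 (sq_nonneg μ)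
  calc (∑ u ∈ U, ∑ v ∈ U, ∑ n ∈ Ioc N (N + H), sf Z (x2 Q α u v) n) -
        2 * μ * (∑ u ∈ U, ∑ n ∈ Ioc N (N + H), sf Z (x1 Q α u) n) +
        μ ^ 2 * ∑ n ∈ Ioc N (N + H), sf Z x0 n
      ≤ (1 + ε) * (A * (S + μ ^ 2 + μ)) - 2 * μ * ((1 - ε) * (A * μ)) +
        μ ^ 2 * ((1 + ε) * A) := by linarith
    _ = A * ((1 + ε) * S + 4 * ε * μ ^ 2 + (1 + ε) * μ) := by ring

end YX49
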